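import Pool.Agent.H9.Beps.Defs

/-! Elementary facts on `Tree`, `KK`, `PP`, `QQ` (all proved). -/

set_option autoImplicit false

open Finset Module

namespace H9.Beps

variable {n N : ℕ → ℕ}

theorem Tree.nonneg {f : ℕ → ℝ} (h : Tree n N f) : ∀ j, 0 ≤ f j := by
  induction h with
  | single j0 => intro j; dsimp only; split_ifs <;> norm_num
  | node i A f hd hA hf ih =>
    intro j
    dsimp only
    apply div_nonneg _ (by norm_num)
    apply Finset.sum_nonneg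
    intro c _
    split_ifs
    · exact ih c j
    · exact le_rfl

/-- For pairwise disjoint sets, at most one term of the sum is nonzero. -/
theorem sum_ite_disjoint {L : ℕ} (A : Fin L → Finset ℕ) (hd : ∀ c c', c ≠ c' → Disjoint (A c) (A c'))
    (f : Fin L → ℕ → ℝ) (j : ℕ) :
    (∑ c, if j ∈ A c then f c j else 0) = 0 ∨
      ∃ c, j ∈ A c ∧ (∑ c, if j ∈ A c then f c j else 0) = f c j := by
  by_cases h : ∃ c, j ∈ A c
  · obtain ⟨c, hc⟩ := h
    right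
    refine ⟨c, hc, ?_⟩
    rw [Finset.sum_eq_single c]
    · simp [hc]
    · intro c' _ hne
      rw [if_neg]
      intro h'
      exact Finset.disjoint_left.mp (hd c c' (Ne.symm hne)) hc h'
    · simp
  · left
    push Not at h
    apply Finset.sum_eq_zero
    intro c _
    rw [if_neg (h c)]

theorem Tree.le_one {f : ℕ → ℝ} (h : Tree n N f) : ∀ j, f j ≤ 1 := by
  induction h with
  | single j0 => intro j; dsimp only; split_ifs <;> norm_num
  | node i A f hd hA hf ih =>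
    intro j
    dsimp only
    rcases sum_ite_disjoint A hd f j with h0 | ⟨c, _, h1⟩
    · rw [h0]; norm_num
    · rw [h1]
      have := ih c j
      have h2 := (hf c).nonneg j
      linarith

theorem Tree.node_le_half {i : ℕ} (A : Fin (N i) → Finset ℕ) (f : Fin (N i) → ℕ → ℝ)
    (hd : ∀ c c', c ≠ c' → Disjoint (A c) (A c')) (hf : ∀ c, Tree n N (f c)) (j : ℕ) :
    (∑ c, if j ∈ A c then f c j else 0) / 2 ≤ 1 / 2 := by
  rcases sum_ite_disjoint A hd f j with h0 | ⟨c, _, h1⟩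
  · rw [h0]; norm_num
  · rw [h1]
    have := (hf c).le_one j
    linarith

theorem KK_nonneg {g : ℕ → ℝ} (hg : g ∈ KK n N) (j : ℕ) : 0 ≤ g j := hg.1 j

theorem KK_le_one {g : ℕ → ℝ} (hg : g ∈ KK n N) (j : ℕ) : g j ≤ 1 := by
  have := hg.2 _ (Tree.single j) {j}
  simpa using this

theorem KK_zero : (fun _ => (0 : ℝ)) ∈ KK n N := by
  refine ⟨fun _ => le_rfl, fun f _ S => ?_⟩
  simp

theorem KK_single (j : ℕ) : (fun k => if k = j then (1 : ℝ) else 0) ∈ KK n N := by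
  refine ⟨fun k => by dsimp only; split_ifs <;> norm_num, fun f hf S => ?_⟩
  have h : ∀ k ∈ S, f k * (if k = j then (1 : ℝ) else 0) = if k = j then f j else 0 := by
    intro k _
    split_ifs with h
    · rw [h, mul_one]
    · rw [mul_zero]
  rw [Finset.sum_congr rfl h, Finset.sum_ite_eq']
  split_ifs
  · exact hf.le_one j
  · norm_num

theorem KK_convex {g g' : ℕ → ℝ} (hg : g ∈ KK n N) (hg' : g' ∈ KK n N) {s t : ℝ} (hs : 0 ≤ s)
    (ht : 0 ≤ t) (hst : s + t = 1) : (fun j => s * g j + t * g' j) ∈ KK n N := by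
  refine ⟨fun j => ?_, fun f hf S => ?_⟩
  · have := hg.1 j
    have := hg'.1 j
    dsimp only
    positivity
  · have h1 := hg.2 f hf S
    have h2 := hg'.2 f hf S
    have h3 : ∑ j ∈ S, f j * (s * g j + t * g' j) =
        s * ∑ j ∈ S, f j * g j + t * ∑ j ∈ S, f j * g' j := by
      rw [Finset.mul_sum, Finset.mul_sum, ← Finset.sum_add_distrib]
      exact Finset.sum_congr rfl fun j _ => by ring
    rw [h3]
    nlinarith

/-- pieces: the gauge of `KK` is almost additive over few far out pieces -/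
theorem KK_pieces {g : ℕ → ℝ} (hg : g ∈ KK n N) (i : ℕ) (A : Fin (N i) → Finset ℕ)
    (hd : ∀ c c', c ≠ c' → Disjoint (A c) (A c')) (hA : ∀ c, ∀ j ∈ A c, n i ≤ j)
    (f : Fin (N i) → ℕ → ℝ) (hf : ∀ c, Tree n N (f c)) :
    ∑ c, ∑ j ∈ A c, f c j * g j ≤ 2 := by
  have h := hg.2 _ (Tree.node i A f hd hA hf) (Finset.univ.biUnion A)
  have h1 : ∑ j ∈ Finset.univ.biUnion A, (∑ c, if j ∈ A c then f c j else 0) / 2 * g j =
      (∑ c, ∑ j ∈ A c, f c j * g j) / 2 := by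
    have h2 : ∀ j ∈ Finset.univ.biUnion A, (∑ c, if j ∈ A c then f c j else 0) / 2 * g j =
        ∑ c, (if j ∈ A c then f c j * g j else 0) / 2 := by
      intro j _
      rw [Finset.sum_div, Finset.sum_mul]
      refine Finset.sum_congr rfl fun c _ => ?_
      split_ifs <;> ring
    rw [Finset.sum_congr rfl h2, Finset.sum_comm, Finset.sum_div]
    refine Finset.sum_congr rfl fun c _ => ?_
    rw [← Finset.sum_div]
    congr 1
    rw [← Finset.sum_filter]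
    apply Finset.sum_congr _ (fun _ _ => rfl)
    ext j
    simp only [Finset.mem_filter, Finset.mem_biUnion, Finset.mem_univ, true_and]
    exact ⟨fun h => h.2, fun h => ⟨⟨c, h⟩, h⟩⟩
  linarith

/-! ### `PP` and `QQ` -/

theorem PP_eq_sum (g : ℕ → ℝ) (a : ℕ →₀ ℝ) {S : Finset ℕ} (h : a.support ⊆ S) :
    PP g a = ∑ j ∈ S, g j ^ (1 / 3 : ℝ) * |a j| ^ (4 / 3 : ℝ) := by
  rw [PP, Finsupp.sum_of_support_subset _ h]
  intro j _
  rw [abs_zero, Real.zero_rpow (by norm_num), mul_zero]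

theorem PP_nonneg {g : ℕ → ℝ} (hg : ∀ j, 0 ≤ g j) (a : ℕ →₀ ℝ) : 0 ≤ PP g a := by
  rw [PP]
  apply Finsupp.sum_nonneg
  intro j _
  have := hg j
  positivity

theorem PP_le {g : ℕ → ℝ} (hg : g ∈ KK n N) (a : ℕ →₀ ℝ) :
    PP g a ≤ a.sum fun _ v => |v| ^ (4 / 3 : ℝ) := by
  rw [PP]
  apply Finset.sum_le_sum
  intro j _
  have h1 : g j ^ (1 / 3 : ℝ) ≤ 1 := Real.rpow_le_one (KK_nonneg hg j) (KK_le_one hg j) (by norm_num)
  have h2 : 0 ≤ |a j| ^ (4 / 3 : ℝ) := by positivity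
  dsimp only
  nlinarith

theorem PP_bddAbove (a : ℕ →₀ ℝ) : BddAbove ((fun g => PP g a) '' KK n N) := by
  refine ⟨a.sum fun _ v => |v| ^ (4 / 3 : ℝ), ?_⟩
  rintro _ ⟨g, hg, rfl⟩
  exact PP_le hg a

theorem PP_le_QQ {g : ℕ → ℝ} (hg : g ∈ KK n N) (a : ℕ →₀ ℝ) : PP g a ≤ QQ n N a :=
  le_csSup (PP_bddAbove a) ⟨g, hg, rfl⟩

theorem QQ_le {a : ℕ →₀ ℝ} {B : ℝ} (h : ∀ g ∈ KK n N, PP g a ≤ B) : QQ n N a ≤ B := by
  apply csSup_le
  · exact ⟨_, _, KK_zero, rfl⟩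
  · rintro _ ⟨g, hg, rfl⟩
    exact h g hg

theorem QQ_nonneg (a : ℕ →₀ ℝ) : 0 ≤ QQ n N a :=
  (PP_nonneg (fun _ => le_rfl) a).trans (PP_le_QQ KK_zero a)

theorem NN_nonneg (a : ℕ →₀ ℝ) : 0 ≤ NN n N a := Real.rpow_nonneg (QQ_nonneg a) _

theorem QQ_eq_NN_rpow (a : ℕ →₀ ℝ) : QQ n N a = NN n N a ^ (4 / 3 : ℝ) := by
  rw [NN, ← Real.rpow_mul (QQ_nonneg a)]
  norm_num

theorem PP_le_NN {g : ℕ → ℝ} (hg : g ∈ KK n N) (a : ℕ →₀ ℝ) : PP g a ≤ NN n N a ^ (4 / 3 : ℝ) :=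
  (PP_le_QQ hg a).trans_eq (QQ_eq_NN_rpow a)

theorem NN_le {a : ℕ →₀ ℝ} {B : ℝ} (hB : 0 ≤ B) (h : ∀ g ∈ KK n N, PP g a ≤ B ^ (4 / 3 : ℝ)) :
    NN n N a ≤ B := by
  have h1 : QQ n N a ≤ B ^ (4 / 3 : ℝ) := QQ_le h
  have h2 : NN n N a ≤ (B ^ (4 / 3 : ℝ)) ^ (3 / 4 : ℝ) :=
    Real.rpow_le_rpow (QQ_nonneg a) h1 (by norm_num)
  rw [← Real.rpow_mul hB] at h2
  norm_num at h2
  exact h2

/-- Hoelder inequality with exponents 3 and 3/2, for finite sums. -/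
theorem holder_third {ι : Type*} (S : Finset ι) (u v : ι → ℝ) (hu : ∀ i ∈ S, 0 ≤ u i)
    (hv : ∀ i ∈ S, 0 ≤ v i) :
    ∑ i ∈ S, u i ^ (1 / 3 : ℝ) * v i ^ (2 / 3 : ℝ) ≤
      (∑ i ∈ S, u i) ^ (1 / 3 : ℝ) * (∑ i ∈ S, v i) ^ (2 / 3 : ℝ) := by
  have hpq : (3 : ℝ).HolderConjugate (3 / 2) := by
    rw [Real.holderConjugate_iff]; norm_num
  have h := Real.inner_le_Lp_mul_Lq_of_nonneg S (f := fun i => u i ^ (1 / 3 : ℝ))
    (g := fun i => v i ^ (2 / 3 : ℝ)) hpq (fun i hi => Real.rpow_nonneg (hu i hi) _)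
    (fun i hi => Real.rpow_nonneg (hv i hi) _)
  refine h.trans (le_of_eq ?_)
  have h1 : ∑ i ∈ S, (u i ^ (1 / 3 : ℝ)) ^ (3 : ℝ) = ∑ i ∈ S, u i := by
    refine Finset.sum_congr rfl fun i hi => ?_
    rw [← Real.rpow_mul (hu i hi)]
    norm_num
  have h2 : ∑ i ∈ S, (v i ^ (2 / 3 : ℝ)) ^ (3 / 2 : ℝ) = ∑ i ∈ S, v i := by
    refine Finset.sum_congr rfl fun i hi => ?_
    rw [← Real.rpow_mul (hv i hi)]
    norm_num
  rw [h1, h2]
  norm_num

end H9.Beps
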