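import Pool.Agent.H9.Beps.Notions

/-!
# MP_975b05_an: a Banach space with the bilinear extension property (BEPS) but without type 2
Basic definitions.
-/

set_option autoImplicit false

open Finset Module

namespace H9.Beps

/-! ### Tree functionals and the convex set `KK` -/

/-- Norming functionals of a (modified, fast) Tsirelson space: `n i` is the `i`-th threshold and
`N i` the number of disjoint pieces allowed beyond it. -/
inductive Tree (n N : ℕ → ℕ) : (ℕ → ℝ) → Prop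
  | single (j : ℕ) : Tree n N (fun k => if k = j then 1 else 0)
  | node (i : ℕ) (A : Fin (N i) → Finset ℕ) (f : Fin (N i) → ℕ → ℝ)
      (hd : ∀ c c', c ≠ c' → Disjoint (A c) (A c'))
      (hA : ∀ c, ∀ j ∈ A c, n i ≤ j)
      (hf : ∀ c, Tree n N (f c)) :
      Tree n N (fun j => (∑ c, if j ∈ A c then f c j else 0) / 2)

/-- The nonnegative part of the unit ball of the Tsirelson space. -/
def KK (n N : ℕ → ℕ) : Set (ℕ → ℝ) :=
  {g | (∀ j, 0 ≤ g j) ∧ ∀ f, Tree n N f → ∀ S : Finset ℕ, ∑ j ∈ S, f j * g j ≤ 1}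

/-! ### The lattice norm on finitely supported real sequences -/

noncomputable def PP (g : ℕ → ℝ) (a : ℕ →₀ ℝ) : ℝ :=
  a.sum fun j v => g j ^ (1 / 3 : ℝ) * |v| ^ (4 / 3 : ℝ)

noncomputable def QQ (n N : ℕ → ℕ) (a : ℕ →₀ ℝ) : ℝ := sSup ((fun g => PP g a) '' KK n N)

noncomputable def NN (n N : ℕ → ℕ) (a : ℕ →₀ ℝ) : ℝ := QQ n N a ^ (3 / 4 : ℝ)

/-! ### Abstract operator notions -/

section abs
variable {X : Type*} [NormedAddCommGroup X] [NormedSpace ℝ X]

/-- 2-uniform convexity inequality with constant `c`. -/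
def UC (X : Type*) [NormedAddCommGroup X] (c : ℝ) : Prop :=
  ∀ x y : X, 2 * ‖x‖ ^ 2 + 2 * c * ‖y‖ ^ 2 ≤ ‖x + y‖ ^ 2 + ‖x - y‖ ^ 2

/-- Window property: after removing `q` dimensions, any `M ≤ 2 b` vectors are Hilbertian and
complemented, up to the additive error `θ`. -/
def WinAt (X : Type*) [NormedAddCommGroup X] [NormedSpace ℝ X] (q b : ℕ) (θ : ℝ) : Prop :=
  ∃ π : X →ₗ[ℝ] (Fin q → ℝ), ∀ M : ℕ, M ≤ 2 * b → ∀ x : Fin M → X,
    (∀ j, π (x j) = 0) → (∀ j, ‖x j‖ ≤ 1) →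
    ∃ (L : ℕ) (Λ : X →ₗ[ℝ] EuclideanSpace ℝ (Fin L)),
      (∀ y, ‖Λ y‖ ≤ ‖y‖) ∧ ∀ j, ‖x j‖ ≤ 2 * ‖Λ (x j)‖ + θ

/-- The synthesis operator of a finite family. -/
noncomputable def syn {m : ℕ} (x : Fin m → X) : EuclideanSpace ℝ (Fin m) →ₗ[ℝ] X where
  toFun h := ∑ i, h i • x i
  map_add' := by
    intro h k
    simp [add_smul, Finset.sum_add_distrib]
  map_smul' := by
    intro r h
    simp [Finset.smul_sum, mul_smul]

/-- Gelfand numbers: `gel w k` is the infimum of the norms of `w` on subspaces of codimension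
at most `k`. -/
noncomputable def gel {m : ℕ} (w : EuclideanSpace ℝ (Fin m) →ₗ[ℝ] X) (k : ℕ) : ℝ :=
  sInf {s : ℝ | 0 ≤ s ∧ ∃ V : Submodule ℝ (EuclideanSpace ℝ (Fin m)),
    m ≤ finrank ℝ V + k ∧ ∀ v ∈ V, ‖w v‖ ≤ s * ‖v‖}

/-- Property (P): Gelfand numbers of operators from Hilbert space are square summable. -/
def PropP (X : Type*) [NormedAddCommGroup X] [NormedSpace ℝ X] (C : ℝ) : Prop :=
  ∀ (m : ℕ) (x : Fin m → X), ∑ i, ‖x i‖ ^ 2 ≤ 1 → ∀ K : ℕ, ∑ k ∈ range K, gel (syn x) k ^ 2 ≤ C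

end abs

/-! ### Weighted averages over colour classes -/

section avg
variable {X : Type*} [NormedAddCommGroup X] [NormedSpace ℝ X]

/-- Conditional expectation with respect to the partition given by a colouring. -/
noncomputable def avg {m : ℕ} (p : Fin m → ℝ) (κ : Fin m → ℕ) (ξ : Fin m → X) (i : Fin m) : X :=
  (∑ i' with κ i' = κ i, p i')⁻¹ • ∑ i' with κ i' = κ i, p i' • ξ i'

/-- Energy of the conditional expectation. -/
noncomputable def En {m : ℕ} (p : Fin m → ℝ) (κ : Fin m → ℕ) (ξ : Fin m → X) : ℝ :=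
  ∑ i, p i * ‖avg p κ ξ i‖ ^ 2

/-- Square norm of the martingale difference. -/
noncomputable def Dn {m : ℕ} (p : Fin m → ℝ) (κ κ' : Fin m → ℕ) (ξ : Fin m → X) : ℝ :=
  ∑ i, p i * ‖avg p κ' ξ i - avg p κ ξ i‖ ^ 2

end avg

end H9.Beps
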