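import Pool.Agent.H9.Beps.Core

/-!
# MP_975b05_an: property (P) implies the bilinear extension property
-/

set_option autoImplicit false

open Finset Module

namespace H9.Beps

section MT1

/-! Modules T1, T2: traces over orthonormal bases and reduction of tensors. -/


open Finset Module


section T

/-- T1 -/
theorem onb_sum_indep {E G : Type*} [NormedAddCommGroup E] [InnerProductSpace ℝ E]
    [AddCommGroup G] [Module ℝ G] {ι ι' : Type*} [Fintype ι] [Fintype ι']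
    (b : E →ₗ[ℝ] E →ₗ[ℝ] G) (e : OrthonormalBasis ι ℝ E) (f : OrthonormalBasis ι' ℝ E) :
    ∑ i, b (e i) (e i) = ∑ i, b (f i) (f i) := by
  classical
  have h1 : ∀ i, b (e i) (e i) =
      ∑ j, ∑ k, (inner ℝ (f j) (e i) * inner ℝ (f k) (e i)) • b (f j) (f k) := by
    intro i
    conv_lhs => rw [← f.sum_repr' (e i)]
    simp only [map_sum, LinearMap.sum_apply, map_smul, LinearMap.smul_apply, Finset.smul_sum,
      smul_smul]
    rw [Finset.sum_comm]
    refine Finset.sum_congr rfl fun j _ => Finset.sum_congr rfl fun k _ => ?_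
    rw [mul_comm]
  have h2 : ∀ j k, ∑ i, (inner ℝ (f j) (e i) * inner ℝ (f k) (e i)) = inner ℝ (f j) (f k) := by
    intro j k
    rw [← e.sum_inner_mul_inner (f j) (f k)]
    refine Finset.sum_congr rfl fun i _ => ?_
    rw [real_inner_comm (e i) (f k)]
  calc ∑ i, b (e i) (e i)
      = ∑ i, ∑ j, ∑ k, (inner ℝ (f j) (e i) * inner ℝ (f k) (e i)) • b (f j) (f k) :=
        Finset.sum_congr rfl fun i _ => h1 i
    _ = ∑ j, ∑ i, ∑ k, (inner ℝ (f j) (e i) * inner ℝ (f k) (e i)) • b (f j) (f k) :=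
        Finset.sum_comm
    _ = ∑ j, ∑ k, ∑ i, (inner ℝ (f j) (e i) * inner ℝ (f k) (e i)) • b (f j) (f k) :=
        Finset.sum_congr rfl fun j _ => Finset.sum_comm
    _ = ∑ j, ∑ k, (inner ℝ (f j) (f k)) • b (f j) (f k) := by
        refine Finset.sum_congr rfl fun j _ => Finset.sum_congr rfl fun k _ => ?_
        rw [← Finset.sum_smul, h2]
    _ = ∑ j, b (f j) (f j) := by
        refine Finset.sum_congr rfl fun j _ => ?_
        rw [Finset.sum_eq_single j]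
        · rw [orthonormal_iff_ite.mp f.orthonormal, if_pos rfl, one_smul]
        · intro k _ hk
          rw [orthonormal_iff_ite.mp f.orthonormal, if_neg (Ne.symm hk), zero_smul]
        · simp

variable {X : Type*} [NormedAddCommGroup X] [NormedSpace ℝ X]

/-- splitting the trace along a subspace -/
theorem aux_T2_split {E G : Type*} [NormedAddCommGroup E] [InnerProductSpace ℝ E]
    [FiniteDimensional ℝ E] [AddCommGroup G] [Module ℝ G]
    (b : E →ₗ[ℝ] E →ₗ[ℝ] G) {H K : Submodule ℝ E} (hHK : H ≤ K) :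
    ∑ j, b (stdOrthonormalBasis ℝ K j) (stdOrthonormalBasis ℝ K j) =
      ∑ j, b (stdOrthonormalBasis ℝ H j) (stdOrthonormalBasis ℝ H j) +
      ∑ j, b (stdOrthonormalBasis ℝ (Hᗮ ⊓ K : Submodule ℝ E) j)
        (stdOrthonormalBasis ℝ (Hᗮ ⊓ K : Submodule ℝ E) j) := by
  classical
  set K' : Submodule ℝ E := Hᗮ ⊓ K with hK'
  let v : Fin (finrank ℝ H) ⊕ Fin (finrank ℝ K') → K := Sum.elim
    (fun j => ⟨(stdOrthonormalBasis ℝ H j : E), hHK (stdOrthonormalBasis ℝ H j).2⟩)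
    (fun j => ⟨(stdOrthonormalBasis ℝ K' j : E), (stdOrthonormalBasis ℝ K' j).2.2⟩)
  have hv : Orthonormal ℝ v := by
    rw [orthonormal_iff_ite]
    have hH := orthonormal_iff_ite.mp (stdOrthonormalBasis ℝ H).orthonormal
    have hK := orthonormal_iff_ite.mp (stdOrthonormalBasis ℝ K').orthonormal
    rintro (i | i) (j | j)
    · have := hH i j
      simpa [v, Submodule.coe_inner] using this
    · have h1 := (stdOrthonormalBasis ℝ K' j).2.1 _ (stdOrthonormalBasis ℝ H i).2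
      simpa [v, Submodule.coe_inner] using h1
    · have h1 := (stdOrthonormalBasis ℝ K' i).2.1 _ (stdOrthonormalBasis ℝ H j).2
      rw [real_inner_comm] at h1
      simpa [v, Submodule.coe_inner] using h1
    · have := hK i j
      simpa [v, Submodule.coe_inner] using this
  have hcard : Fintype.card (Fin (finrank ℝ H) ⊕ Fin (finrank ℝ K')) = finrank ℝ K := by
    rw [Fintype.card_sum, Fintype.card_fin, Fintype.card_fin]
    exact Submodule.finrank_add_inf_finrank_orthogonal hHK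
  have hspan : ⊤ ≤ Submodule.span ℝ (Set.range v) :=
    (hv.linearIndependent.span_eq_top_of_card_eq_finrank' hcard).ge
  have key := onb_sum_indep (b.compl₁₂ K.subtype K.subtype) (stdOrthonormalBasis ℝ K)
    (OrthonormalBasis.mk hv hspan)
  simp only [LinearMap.compl₁₂_apply, Submodule.subtype_apply, OrthonormalBasis.coe_mk] at key
  rw [key, Fintype.sum_sum_type]
  rfl

open TensorProduct in
/-- linear independence in the first factor -/
theorem aux_T2_indep {A B : Type*} [AddCommGroup A] [Module ℝ A] [AddCommGroup B] [Module ℝ B]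
    {ι : Type*} [Fintype ι] (a : ι → A) (b : ι → B) (ha : LinearIndependent ℝ a)
    (h : ∑ i, a i ⊗ₜ[ℝ] b i = 0) (j : ι) : b j = 0 := by
  classical
  obtain ⟨g, hg⟩ := LinearMap.exists_extend ((Finsupp.lapply j).comp ha.repr)
  have hga : ∀ i, g (a i) = if i = j then 1 else 0 := by
    intro i
    have h1 := LinearMap.congr_fun hg ⟨a i, Submodule.subset_span ⟨i, rfl⟩⟩
    simp only [LinearMap.comp_apply, Submodule.subtype_apply, Finsupp.lapply_apply] at h1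
    rw [h1]
    have h2 : ha.repr ⟨a i, Submodule.subset_span ⟨i, rfl⟩⟩ = Finsupp.single i 1 :=
      ha.repr_eq_single i _ rfl
    have h3 : (ha.repr : Submodule.span ℝ (Set.range a) →ₗ[ℝ] ι →₀ ℝ)
      ⟨a i, Submodule.subset_span ⟨i, rfl⟩⟩ = Finsupp.single i 1 := h2
    rw [h3, Finsupp.single_apply]
  have h4 := congrArg (fun t => TensorProduct.lid ℝ B (TensorProduct.map g LinearMap.id t)) h
  simp only [map_sum, TensorProduct.map_tmul, TensorProduct.lid_tmul, LinearMap.id_apply,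
    map_zero, hga, ite_smul, one_smul, zero_smul, Finset.sum_ite_eq', Finset.mem_univ,
    if_true] at h4
  exact h4

open TensorProduct in
/-- one reduction step -/
theorem aux_T2_step {E : Type*} [NormedAddCommGroup E] [InnerProductSpace ℝ E]
    [FiniteDimensional ℝ E] (y y' : E →ₗ[ℝ] X) (Y : Submodule ℝ X) (K : Submodule ℝ E)
    (h : ∑ j, Y.mkQ (y (stdOrthonormalBasis ℝ K j)) ⊗ₜ[ℝ] y' (stdOrthonormalBasis ℝ K j) = 0) :
    ∑ j, y (stdOrthonormalBasis ℝ K j) ⊗ₜ[ℝ] y' (stdOrthonormalBasis ℝ K j) =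
      ∑ j, y (stdOrthonormalBasis ℝ (Y.comap y ⊓ K : Submodule ℝ E) j) ⊗ₜ[ℝ]
        y' (stdOrthonormalBasis ℝ (Y.comap y ⊓ K : Submodule ℝ E) j) := by
  classical
  set H : Submodule ℝ E := Y.comap y ⊓ K with hH
  have hHK : H ≤ K := inf_le_right
  set K' : Submodule ℝ E := Hᗮ ⊓ K with hK'
  have s1 := aux_T2_split ((TensorProduct.mk ℝ X X).compl₁₂ y y') hHK
  simp only [LinearMap.compl₁₂_apply, TensorProduct.mk_apply] at s1
  have s2 := aux_T2_split ((TensorProduct.mk ℝ (X ⧸ Y) X).compl₁₂ (Y.mkQ.comp y) y') hHK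
  simp only [LinearMap.compl₁₂_apply, TensorProduct.mk_apply, LinearMap.comp_apply] at s2
  rw [h] at s2
  have h0 : ∑ j, Y.mkQ (y (stdOrthonormalBasis ℝ H j)) ⊗ₜ[ℝ] y' (stdOrthonormalBasis ℝ H j) = 0 := by
    apply Finset.sum_eq_zero
    intro j _
    have : Y.mkQ (y (stdOrthonormalBasis ℝ H j)) = 0 := by
      rw [Submodule.mkQ_apply, Submodule.Quotient.mk_eq_zero]
      exact (stdOrthonormalBasis ℝ H j).2.1
    rw [this, TensorProduct.zero_tmul]
  rw [h0, zero_add] at s2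
  have hinj : LinearMap.ker ((Y.mkQ.comp y).comp K'.subtype) = ⊥ := by
    rw [LinearMap.ker_eq_bot']
    intro w hw
    simp only [LinearMap.comp_apply, Submodule.subtype_apply, Submodule.mkQ_apply,
      Submodule.Quotient.mk_eq_zero] at hw
    have hwH : (w : E) ∈ H := ⟨hw, w.2.2⟩
    have hw0 : inner ℝ (w : E) (w : E) = 0 := w.2.1 _ hwH
    exact Subtype.ext (inner_self_eq_zero.mp hw0)
  have hli := (stdOrthonormalBasis ℝ K').orthonormal.linearIndependent.map' _ hinj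
  have hb := aux_T2_indep _ (fun j => y' (stdOrthonormalBasis ℝ K' j)) hli s2.symm
  rw [s1]
  have h5 : ∑ j, y (stdOrthonormalBasis ℝ K' j) ⊗ₜ[ℝ] y' (stdOrthonormalBasis ℝ K' j) = 0 := by
    apply Finset.sum_eq_zero
    intro j _
    rw [hb j, TensorProduct.tmul_zero]
  rw [h5, add_zero]

open TensorProduct in
/-- T2 -/
theorem tensor_reduce {m : ℕ} (x x' : Fin m → X) (Y : Submodule ℝ X)
    (z : Y ⊗[ℝ] Y) (hz : TensorProduct.map Y.subtype Y.subtype z = ∑ i, x i ⊗ₜ[ℝ] x' i) :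
    ∃ H : Submodule ℝ (EuclideanSpace ℝ (Fin m)),
      (∀ h ∈ H, syn x h ∈ Y ∧ syn x' h ∈ Y) ∧
      ∑ i, x i ⊗ₜ[ℝ] x' i = ∑ j, syn x (stdOrthonormalBasis ℝ H j) ⊗ₜ[ℝ]
        syn x' (stdOrthonormalBasis ℝ H j) := by
  classical
  have hsyn : ∀ (u : Fin m → X) (i : Fin m), syn u (EuclideanSpace.basisFun (Fin m) ℝ i) = u i := by
    intro u i
    simp only [syn, LinearMap.coe_mk, AddHom.coe_mk, EuclideanSpace.basisFun_apply]
    rw [Finset.sum_eq_single i]
    · simp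
    · intro j _ hj
      simp [hj]
    · simp
  -- the trace over the whole space
  have e0 : ∑ i, x i ⊗ₜ[ℝ] x' i =
      ∑ j, syn x (stdOrthonormalBasis ℝ (⊤ : Submodule ℝ (EuclideanSpace ℝ (Fin m))) j) ⊗ₜ[ℝ]
        syn x' (stdOrthonormalBasis ℝ (⊤ : Submodule ℝ (EuclideanSpace ℝ (Fin m))) j) := by
    have := onb_sum_indep ((TensorProduct.mk ℝ X X).compl₁₂ (syn x) (syn x'))
      (EuclideanSpace.basisFun (Fin m) ℝ)
      ((stdOrthonormalBasis ℝ (⊤ : Submodule ℝ (EuclideanSpace ℝ (Fin m)))).map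
        (LinearIsometryEquiv.ofTop (EuclideanSpace ℝ (Fin m)) ⊤ rfl))
    simp only [LinearMap.compl₁₂_apply, TensorProduct.mk_apply, hsyn,
      OrthonormalBasis.map_apply] at this
    exact this
  set H2 : Submodule ℝ (EuclideanSpace ℝ (Fin m)) := Y.comap (syn x) ⊓ ⊤ with hH2
  have k1 : (TensorProduct.map Y.mkQ (LinearMap.id : X →ₗ[ℝ] X)).comp
      (TensorProduct.map Y.subtype Y.subtype) = 0 := by
    rw [← TensorProduct.map_comp]
    have : Y.mkQ.comp Y.subtype = 0 := by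
      ext w
      simp
    rw [this]
    ext
    simp
  have e1 := aux_T2_step (syn x) (syn x') Y (⊤ : Submodule ℝ (EuclideanSpace ℝ (Fin m))) (by
    have := LinearMap.congr_fun k1 z
    rw [LinearMap.comp_apply, hz, e0] at this
    simpa only [map_sum, TensorProduct.map_tmul, LinearMap.id_apply, LinearMap.zero_apply]
      using this)
  have k2 : (TensorProduct.map Y.mkQ (LinearMap.id : X →ₗ[ℝ] X)).comp
      ((TensorProduct.comm ℝ X X).toLinearMap.comp (TensorProduct.map Y.subtype Y.subtype)) = 0 := by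
    ext u v
    have hv : (Submodule.Quotient.mk (v : X) : X ⧸ Y) = 0 :=
      (Submodule.Quotient.mk_eq_zero Y).mpr v.2
    simp [hv]
  have e2 := aux_T2_step (syn x') (syn x) Y H2 (by
    have := LinearMap.congr_fun k2 z
    rw [LinearMap.comp_apply, LinearMap.comp_apply, hz, e0, e1] at this
    simpa only [map_sum, TensorProduct.map_tmul, LinearMap.id_apply, LinearMap.zero_apply,
      LinearEquiv.coe_coe, TensorProduct.comm_tmul] using this)
  have e3 := congrArg (TensorProduct.comm ℝ X X) e2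
  simp only [map_sum, TensorProduct.comm_tmul] at e3
  refine ⟨Y.comap (syn x') ⊓ H2, fun h hh => ⟨hh.2.1, hh.1⟩, ?_⟩
  rw [e0, e1]
  exact e3

end T

end MT1

section MT3

/-! T3: trace bound -/


open Finset Module


section T3
open scoped InnerProductSpace

variable {F : Type*} [NormedAddCommGroup F] [InnerProductSpace ℝ F] [FiniteDimensional ℝ F]

theorem aux_T3_proj {ι : Type*} [Fintype ι] (f : OrthonormalBasis ι ℝ F)
    (β : F →ₗ[ℝ] F →ₗ[ℝ] ℝ) (Q : F →ₗ[ℝ] F) (hs : ∀ u v : F, ⟪Q u, v⟫_ℝ = ⟪u, Q v⟫_ℝ)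
    (hi : ∀ u, Q (Q u) = Q u) :
    ∑ i, β (f i) (Q (f i)) = ∑ i, β (Q (f i)) (Q (f i)) := by
  have h1 : ∀ i, β (Q (f i)) (Q (f i)) = ∑ j, ⟪f j, Q (f i)⟫_ℝ * β (f j) (Q (f i)) := by
    intro i
    have h := congrArg (fun z => β z (Q (f i))) (f.sum_repr' (Q (f i)))
    simp only [map_sum, map_smul, LinearMap.sum_apply, LinearMap.smul_apply, smul_eq_mul] at h
    exact h.symm
  have h2 : ∀ j, β (f j) (Q (f j)) = ∑ i, ⟪f j, Q (f i)⟫_ℝ * β (f j) (Q (f i)) := by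
    intro j
    have h3 : Q (f j) = ∑ i, ⟪f j, Q (f i)⟫_ℝ • Q (f i) := by
      conv_lhs => rw [← hi (f j), ← f.sum_repr' (Q (f j))]
      rw [map_sum]
      refine Finset.sum_congr rfl fun i _ => ?_
      rw [map_smul, real_inner_comm, hs]
    conv_lhs => rw [h3]
    simp only [map_sum, map_smul, smul_eq_mul]
  rw [Finset.sum_congr rfl fun j _ => h2 j, Finset.sum_congr rfl fun i _ => h1 i, Finset.sum_comm]

theorem aux_T3_bound {ι : Type*} [Fintype ι] (f : OrthonormalBasis ι ℝ F)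
    (β : F →ₗ[ℝ] F →ₗ[ℝ] ℝ) (Q : F →ₗ[ℝ] F) (hs : ∀ u v : F, ⟪Q u, v⟫_ℝ = ⟪u, Q v⟫_ℝ)
    (hi : ∀ u, Q (Q u) = Q u) (c : ℝ) (hc : ∀ u, |β (Q u) (Q u)| ≤ c * ‖Q u‖ ^ 2) :
    |∑ i, β (f i) (Q (f i))| ≤ c * LinearMap.trace ℝ F Q := by
  rw [aux_T3_proj f β Q hs hi]
  refine (Finset.abs_sum_le_sum_abs _ _).trans ?_
  rw [LinearMap.trace_eq_sum_inner Q f, Finset.mul_sum]
  refine Finset.sum_le_sum fun i _ => ?_
  refine (hc (f i)).trans (le_of_eq ?_)
  rw [← real_inner_self_eq_norm_sq, hs, hi]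

theorem aux_T3_trace (U : Submodule ℝ F) :
    LinearMap.trace ℝ F (U.starProjection : F →ₗ[ℝ] F) = finrank ℝ U := by
  apply LinearMap.IsProj.trace
  constructor
  · intro x; exact U.starProjection_apply_mem x
  · intro x hx; exact U.starProjection_eq_self_iff.mpr hx

/-- trace along a decreasing chain -/
theorem aux_T3_chain {ι : Type*} [Fintype ι] (f : OrthonormalBasis ι ℝ F)
    (β : F →ₗ[ℝ] F →ₗ[ℝ] ℝ) (U : ℕ → Submodule ℝ F) (hU0 : U 0 = ⊤) (hU : ∀ l, U (l + 1) ≤ U l)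
    (c : ℕ → ℝ) (hc0 : ∀ l, 0 ≤ c l) (hc : ∀ l, ∀ u ∈ U l, |β u u| ≤ c l * ‖u‖ ^ 2) (d : ℕ → ℕ)
    (hd : ∀ l, finrank ℝ (U l) ≤ finrank ℝ (U (l + 1)) + d l) (L : ℕ) :
    |∑ i, β (f i) (f i)| ≤ ∑ l ∈ range L, c l * d l + c L * finrank ℝ F := by
  let P : ℕ → F →ₗ[ℝ] F := fun l => ((U l).starProjection : F →ₗ[ℝ] F)
  have hPs : ∀ l (u v : F), ⟪P l u, v⟫_ℝ = ⟪u, P l v⟫_ℝ := fun l u v =>
    (U l).inner_starProjection_left_eq_right u v
  have hPi : ∀ l u, P l (P l u) = P l u := fun l u =>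
    (U l).starProjection_eq_self_iff.mpr ((U l).starProjection_apply_mem u)
  have hPP : ∀ l u, P l (P (l + 1) u) = P (l + 1) u := fun l u =>
    (U l).starProjection_eq_self_iff.mpr (hU l ((U (l + 1)).starProjection_apply_mem u))
  have hPP' : ∀ l u, P (l + 1) (P l u) = P (l + 1) u := by
    intro l u
    apply ext_inner_right ℝ
    intro v
    rw [hPs, hPs, hPP, hPs]
  have hmem : ∀ l u, P l u ∈ U l := fun l u => (U l).starProjection_apply_mem u
  have h0 : ∑ i, β (f i) (f i) = ∑ i, β (f i) (P 0 (f i)) := by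
    refine Finset.sum_congr rfl fun i _ => ?_
    have : P 0 (f i) = f i := (U 0).starProjection_eq_self_iff.mpr (by rw [hU0]; trivial)
    rw [this]
  have hstep : ∀ l, |∑ i, β (f i) (P l (f i))| ≤ c l * d l + |∑ i, β (f i) (P (l + 1) (f i))| := by
    intro l
    have hb := aux_T3_bound f β (P l - P (l + 1)) (by
      intro u v
      simp only [LinearMap.sub_apply, inner_sub_left, inner_sub_right, hPs]) (by
      intro u
      simp only [LinearMap.sub_apply, map_sub, hPi, hPP, hPP', sub_self, sub_zero]) (c l) (by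
      intro u
      apply hc l
      simp only [LinearMap.sub_apply]
      exact (U l).sub_mem (hmem l u) (hU l (hmem (l + 1) u)))
    have htr : LinearMap.trace ℝ F (P l - P (l + 1)) ≤ d l := by
      rw [map_sub]
      change LinearMap.trace ℝ F ((U l).starProjection : F →ₗ[ℝ] F) -
        LinearMap.trace ℝ F ((U (l + 1)).starProjection : F →ₗ[ℝ] F) ≤ d l
      rw [aux_T3_trace, aux_T3_trace]
      have := hd l
      have h' : (finrank ℝ (U l) : ℝ) ≤ finrank ℝ (U (l + 1)) + d l := by exact_mod_cast this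
      linarith
    have he : ∑ i, β (f i) (P l (f i)) = ∑ i, β (f i) ((P l - P (l + 1)) (f i)) +
        ∑ i, β (f i) (P (l + 1) (f i)) := by
      rw [← Finset.sum_add_distrib]
      refine Finset.sum_congr rfl fun i _ => ?_
      rw [LinearMap.sub_apply, map_sub, sub_add_cancel]
    rw [he]
    refine (abs_add_le _ _).trans ?_
    have := hb.trans (mul_le_mul_of_nonneg_left htr (hc0 l))
    linarith
  have hlast : ∀ l, |∑ i, β (f i) (P l (f i))| ≤ c l * finrank ℝ F := by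
    intro l
    refine (aux_T3_bound f β (P l) (hPs l) (hPi l) (c l) (fun u => hc l _ (hmem l u))).trans ?_
    refine mul_le_mul_of_nonneg_left ?_ (hc0 l)
    change LinearMap.trace ℝ F ((U l).starProjection : F →ₗ[ℝ] F) ≤ _
    rw [aux_T3_trace]
    exact_mod_cast Submodule.finrank_le _
  have hind : ∀ L, |∑ i, β (f i) (P 0 (f i))| ≤ ∑ l ∈ range L, c l * d l +
      |∑ i, β (f i) (P L (f i))| := by
    intro L
    induction L with
    | zero => simp
    | succ L ih =>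
      rw [Finset.sum_range_succ]
      have := hstep L
      linarith
  rw [h0]
  have h1 := hind L
  have h2 := hlast L
  linarith

end T3

section gelfand
variable {X : Type*} [NormedAddCommGroup X] [NormedSpace ℝ X]

theorem aux_T3_nonempty {m : ℕ} (w : EuclideanSpace ℝ (Fin m) →ₗ[ℝ] X) (k : ℕ) :
    {s : ℝ | 0 ≤ s ∧ ∃ V : Submodule ℝ (EuclideanSpace ℝ (Fin m)),
    m ≤ finrank ℝ V + k ∧ ∀ v ∈ V, ‖w v‖ ≤ s * ‖v‖}.Nonempty := by
  obtain ⟨M, hM0, hM⟩ := w.toContinuousLinearMap.isBoundedLinearMap.bound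
  refine ⟨M, hM0.le, ⊤, ?_, ?_⟩
  · rw [finrank_top, finrank_euclideanSpace_fin]
    exact Nat.le_add_right _ _
  · intro v _
    exact hM v

theorem aux_T3_gel_nonneg {m : ℕ} (w : EuclideanSpace ℝ (Fin m) →ₗ[ℝ] X) (k : ℕ) :
    0 ≤ gel w k := by
  apply Real.sInf_nonneg
  intro s hs
  exact hs.1

theorem aux_T3_bdd {m : ℕ} (w : EuclideanSpace ℝ (Fin m) →ₗ[ℝ] X) (k : ℕ) :
    BddBelow {s : ℝ | 0 ≤ s ∧ ∃ V : Submodule ℝ (EuclideanSpace ℝ (Fin m)),
    m ≤ finrank ℝ V + k ∧ ∀ v ∈ V, ‖w v‖ ≤ s * ‖v‖} := ⟨0, fun _ hs => hs.1⟩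

theorem aux_T3_gel_anti {m : ℕ} (w : EuclideanSpace ℝ (Fin m) →ₗ[ℝ] X) {k k' : ℕ} (h : k ≤ k') :
    gel w k' ≤ gel w k := by
  apply csInf_le_csInf (aux_T3_bdd w k') (aux_T3_nonempty w k)
  rintro s ⟨hs, V, hV, hb⟩
  exact ⟨hs, V, hV.trans (by omega), hb⟩

theorem aux_T3_gel_zero {m : ℕ} (w : EuclideanSpace ℝ (Fin m) →ₗ[ℝ] X) {k : ℕ} (h : m ≤ k) :
    gel w k = 0 := by
  apply le_antisymm _ (aux_T3_gel_nonneg w k)
  apply csInf_le (aux_T3_bdd w k)
  refine ⟨le_refl _, ⊥, by simpa using h, ?_⟩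
  intro v hv
  rw [Submodule.mem_bot] at hv
  simp [hv]

theorem aux_T3_gel_exists {m : ℕ} (w : EuclideanSpace ℝ (Fin m) →ₗ[ℝ] X) (k : ℕ) {ε : ℝ}
    (hε : 0 < ε) : ∃ V : Submodule ℝ (EuclideanSpace ℝ (Fin m)),
    m ≤ finrank ℝ V + k ∧ ∀ v ∈ V, ‖w v‖ ≤ (gel w k + ε) * ‖v‖ := by
  obtain ⟨s, ⟨hs, V, hV, hb⟩, hlt⟩ := exists_lt_of_csInf_lt (aux_T3_nonempty w k)
    (show gel w k < gel w k + ε by linarith)
  refine ⟨V, hV, fun v hv => (hb v hv).trans ?_⟩
  exact mul_le_mul_of_nonneg_right hlt.le (norm_nonneg _)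

theorem aux_T3_gel_top {m : ℕ} (w : EuclideanSpace ℝ (Fin m) →ₗ[ℝ] X) {ε : ℝ}
    (hε : 0 < ε) (v : EuclideanSpace ℝ (Fin m)) : ‖w v‖ ≤ (gel w 0 + ε) * ‖v‖ := by
  obtain ⟨V, hV, hb⟩ := aux_T3_gel_exists w 0 hε
  have : V = ⊤ := by
    apply Submodule.eq_top_of_finrank_eq
    apply le_antisymm (Submodule.finrank_le _)
    rw [finrank_euclideanSpace_fin]
    simpa using hV
  subst this
  exact hb v trivial

/-- the shifted dyadic Gelfand numbers -/
noncomputable def aux_T3_a {m : ℕ} (w : EuclideanSpace ℝ (Fin m) →ₗ[ℝ] X) : ℕ → ℝ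
  | 0 => gel w 0
  | l + 1 => gel w (2 ^ l)

theorem aux_T3_a_nonneg {m : ℕ} (w : EuclideanSpace ℝ (Fin m) →ₗ[ℝ] X) (l : ℕ) :
    0 ≤ aux_T3_a w l := by
  cases l with
  | zero => exact aux_T3_gel_nonneg w 0
  | succ l => exact aux_T3_gel_nonneg w _

theorem aux_T3_sum {m : ℕ} {C : ℝ} (w : EuclideanSpace ℝ (Fin m) →ₗ[ℝ] X)
    (hw : ∀ K, ∑ k ∈ range K, gel w k ^ 2 ≤ C) (L : ℕ) :
    ∑ l ∈ range L, (2 * 2 ^ l : ℝ) * aux_T3_a w l ^ 2 ≤ 10 * C := by
  have hC : 0 ≤ C := by simpa using hw 0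
  have hanti : ∀ ⦃m' n : ℕ⦄, 1 < m' → m' ≤ n → gel w n ^ 2 ≤ gel w m' ^ 2 := by
    intro m' n _ h
    exact pow_le_pow_left₀ (aux_T3_gel_nonneg w n) (aux_T3_gel_anti w h) 2
  cases L with
  | zero => simpa using by linarith
  | succ L =>
    rw [Finset.sum_range_succ']
    have h0 : gel w 0 ^ 2 ≤ C := by simpa using hw 1
    have hcond : ∑ l ∈ range L, (2 ^ l : ℝ) * gel w (2 ^ l) ^ 2 ≤ 2 * C := by
      have h1 := Finset.sum_condensed_le (f := fun k => gel w k ^ 2) hanti L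
      have h2 : ∑ l ∈ range L, (2 ^ l : ℝ) * gel w (2 ^ l) ^ 2 ≤
          ∑ l ∈ range (L + 1), 2 ^ l • gel w (2 ^ l) ^ 2 := by
        rw [Finset.sum_range_succ]
        have : 0 ≤ 2 ^ L • gel w (2 ^ L) ^ 2 := by positivity
        have e : ∑ l ∈ range L, (2 ^ l : ℝ) * gel w (2 ^ l) ^ 2 =
            ∑ l ∈ range L, 2 ^ l • gel w (2 ^ l) ^ 2 := by
          refine Finset.sum_congr rfl fun l _ => ?_
          rw [nsmul_eq_mul]; push_cast; rfl
        linarith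
      have h3 : gel w 1 ^ 2 + 2 • ∑ k ∈ Ico 2 (2 ^ L + 1), gel w k ^ 2 ≤ 2 * C := by
        have h4 := hw (2 ^ L + 1)
        have h5 : ∑ k ∈ range (2 ^ L + 1), gel w k ^ 2 =
            ∑ k ∈ Ico 0 2, gel w k ^ 2 + ∑ k ∈ Ico 2 (2 ^ L + 1), gel w k ^ 2 := by
          rw [Finset.range_eq_Ico, Finset.sum_Ico_consecutive _ (by omega)]
          have : 1 ≤ 2 ^ L := Nat.one_le_two_pow
          omega
        have h6 : ∑ k ∈ Ico 0 2, gel w k ^ 2 = gel w 0 ^ 2 + gel w 1 ^ 2 := by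
          rw [← Finset.range_eq_Ico]
          simp [Finset.sum_range_succ]
        rw [h5, h6] at h4
        have h7 : 0 ≤ gel w 0 ^ 2 := by positivity
        have h8 : 0 ≤ gel w 1 ^ 2 := by positivity
        rw [nsmul_eq_mul]
        push_cast
        linarith
      exact h2.trans (h1.trans h3)
    have e : ∑ l ∈ range L, (2 * 2 ^ (l + 1) : ℝ) * aux_T3_a w (l + 1) ^ 2 =
        4 * ∑ l ∈ range L, (2 ^ l : ℝ) * gel w (2 ^ l) ^ 2 := by
      rw [Finset.mul_sum]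
      refine Finset.sum_congr rfl fun l _ => ?_
      simp only [aux_T3_a]
      ring
    rw [e]
    simp only [aux_T3_a]
    linarith

/-- the chain of subspaces -/
def aux_T3_U {m : ℕ} (H : Submodule ℝ (EuclideanSpace ℝ (Fin m)))
    (V V' : ℕ → Submodule ℝ (EuclideanSpace ℝ (Fin m))) : ℕ → Submodule ℝ H
  | 0 => ⊤
  | l + 1 => aux_T3_U H V V' l ⊓ (V l ⊓ V' l).comap H.subtype

/-- T3 -/
theorem trace_bound {m : ℕ} {C : ℝ} (w w' : EuclideanSpace ℝ (Fin m) →ₗ[ℝ] X)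
    (hw : ∀ K, ∑ k ∈ range K, gel w k ^ 2 ≤ C) (hw' : ∀ K, ∑ k ∈ range K, gel w' k ^ 2 ≤ C)
    (H : Submodule ℝ (EuclideanSpace ℝ (Fin m))) (β : H →ₗ[ℝ] H →ₗ[ℝ] ℝ) {D : ℝ} (hD : 0 ≤ D)
    (hβ : ∀ u v : H, |β u v| ≤ D * (‖w u‖ * ‖w' v‖)) :
    |∑ j, β (stdOrthonormalBasis ℝ H j) (stdOrthonormalBasis ℝ H j)| ≤ 100 * C * D := by
  have hC : 0 ≤ C := by simpa using hw 0
  set T := |∑ j, β (stdOrthonormalBasis ℝ H j) (stdOrthonormalBasis ℝ H j)| with hT
  have main : ∀ ε : ℝ, 0 < ε → T ≤ 20 * C * D + (∑ l ∈ range (m + 1), (4 * 2 ^ l : ℝ) * D + D * m) * ε ^ 2 := by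
    intro ε hε
    choose V hV hVb using fun l : ℕ => aux_T3_gel_exists w (2 ^ l) hε
    choose V' hV' hVb' using fun l : ℕ => aux_T3_gel_exists w' (2 ^ l) hε
    have hU0 : aux_T3_U H V V' 0 = ⊤ := rfl
    have hUs : ∀ l, aux_T3_U H V V' (l + 1) =
      aux_T3_U H V V' l ⊓ (V l ⊓ V' l).comap H.subtype := fun l => rfl
    generalize aux_T3_U H V V' = U at hU0 hUs
    let c : ℕ → ℝ := fun l => D * ((aux_T3_a w l + ε) * (aux_T3_a w' l + ε))
    have hcut : ∀ (A : Submodule ℝ H) (W : Submodule ℝ (EuclideanSpace ℝ (Fin m))) (k : ℕ),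
        m ≤ finrank ℝ W + k → finrank ℝ A ≤ finrank ℝ (A ⊓ W.comap H.subtype : Submodule ℝ H) + k := by
      intro A W k hk
      have e1 : finrank ℝ (A.map H.subtype) = finrank ℝ A := Submodule.finrank_map_subtype_eq H A
      have e2 : finrank ℝ ((A ⊓ W.comap H.subtype : Submodule ℝ H).map H.subtype) =
          finrank ℝ (A ⊓ W.comap H.subtype : Submodule ℝ H) := Submodule.finrank_map_subtype_eq H _
      have e3 : (A ⊓ W.comap H.subtype : Submodule ℝ H).map H.subtype = A.map H.subtype ⊓ W := by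
        ext x
        constructor
        · rintro ⟨y, ⟨hy1, hy2⟩, rfl⟩
          exact ⟨⟨y, hy1, rfl⟩, hy2⟩
        · rintro ⟨⟨y, hy1, rfl⟩, hy2⟩
          exact ⟨y, ⟨hy1, hy2⟩, rfl⟩
      have e4 := Submodule.finrank_sup_add_finrank_inf_eq (A.map H.subtype) W
      have e5 : finrank ℝ (A.map H.subtype ⊔ W : Submodule ℝ (EuclideanSpace ℝ (Fin m))) ≤ m := by
        have := Submodule.finrank_le (A.map H.subtype ⊔ W)
        rwa [finrank_euclideanSpace_fin] at this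
      rw [e3] at e2
      omega
    have hd : ∀ l, finrank ℝ (U l) ≤ finrank ℝ (U (l + 1)) + 2 * 2 ^ l := by
      intro l
      have e : U (l + 1) = (U l ⊓ (V l).comap H.subtype) ⊓ (V' l).comap H.subtype := by
        rw [hUs, Submodule.comap_inf, inf_assoc]
      have h1 := hcut (U l) (V l) _ (hV l)
      have h2 := hcut (U l ⊓ (V l).comap H.subtype) (V' l) _ (hV' l)
      rw [e]
      omega
    have hch := aux_T3_chain (stdOrthonormalBasis ℝ H) β U hU0 (fun l => by rw [hUs]; exact inf_le_left)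
      c (fun l => mul_nonneg hD (mul_nonneg (add_nonneg (aux_T3_a_nonneg w l) hε.le)
        (add_nonneg (aux_T3_a_nonneg w' l) hε.le))) (by
        intro l u hu
        have hbw : ‖w u‖ ≤ (aux_T3_a w l + ε) * ‖u‖ ∧ ‖w' u‖ ≤ (aux_T3_a w' l + ε) * ‖u‖ := by
          cases l with
          | zero => exact ⟨aux_T3_gel_top w hε u, aux_T3_gel_top w' hε u⟩
          | succ l =>
            rw [hUs] at hu
            exact ⟨hVb l _ hu.2.1, hVb' l _ hu.2.2⟩
        refine (hβ u u).trans ?_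
        have h1 : ‖w u‖ * ‖w' u‖ ≤ ((aux_T3_a w l + ε) * ‖u‖) * ((aux_T3_a w' l + ε) * ‖u‖) :=
          mul_le_mul hbw.1 hbw.2 (norm_nonneg _) ((norm_nonneg _).trans hbw.1)
        refine (mul_le_mul_of_nonneg_left h1 hD).trans (le_of_eq ?_)
        simp only [c]
        ring) (fun l => 2 * 2 ^ l) hd (m + 1)
    refine hch.trans ?_
    have hcl : ∀ l, c l * ((2 * 2 ^ l : ℕ) : ℝ) ≤ D * ((2 * 2 ^ l : ℝ) * aux_T3_a w l ^ 2) +
        D * ((2 * 2 ^ l : ℝ) * aux_T3_a w' l ^ 2) + ((4 * 2 ^ l : ℝ) * D) * ε ^ 2 := by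
      intro l
      push_cast
      simp only [c]
      have h1 : (aux_T3_a w l + ε) * (aux_T3_a w' l + ε) ≤
          aux_T3_a w l ^ 2 + aux_T3_a w' l ^ 2 + 2 * ε ^ 2 := by
        nlinarith [sq_nonneg (aux_T3_a w l - aux_T3_a w' l), sq_nonneg (aux_T3_a w l - ε),
          sq_nonneg (aux_T3_a w' l - ε)]
      have h2 : (0 : ℝ) ≤ D * (2 * 2 ^ l) := by positivity
      have h3 := mul_le_mul_of_nonneg_left h1 h2
      nlinarith [h3]
    have hsum : ∑ l ∈ range (m + 1), c l * ((2 * 2 ^ l : ℕ) : ℝ) ≤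
        D * (10 * C) + D * (10 * C) + (∑ l ∈ range (m + 1), (4 * 2 ^ l : ℝ) * D) * ε ^ 2 := by
      refine (Finset.sum_le_sum fun l _ => hcl l).trans ?_
      rw [Finset.sum_add_distrib, Finset.sum_add_distrib, ← Finset.mul_sum, ← Finset.mul_sum,
        ← Finset.sum_mul]
      have := mul_le_mul_of_nonneg_left (aux_T3_sum w hw (m + 1)) hD
      have := mul_le_mul_of_nonneg_left (aux_T3_sum w' hw' (m + 1)) hD
      linarith
    have hlast : c (m + 1) * (finrank ℝ H : ℝ) ≤ D * m * ε ^ 2 := by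
      have ha : aux_T3_a w (m + 1) = 0 := aux_T3_gel_zero w (Nat.lt_two_pow_self).le
      have ha' : aux_T3_a w' (m + 1) = 0 := aux_T3_gel_zero w' (Nat.lt_two_pow_self).le
      simp only [c]
      rw [ha, ha']
      have hf : (finrank ℝ H : ℝ) ≤ m := by
        have := Submodule.finrank_le H
        rw [finrank_euclideanSpace_fin] at this
        exact_mod_cast this
      have h2 : 0 ≤ D * ε ^ 2 := by positivity
      have := mul_le_mul_of_nonneg_left hf h2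
      nlinarith [this]
    rw [add_mul]
    linarith
  have hlim : T ≤ 20 * C * D := by
    set K : ℝ := ∑ l ∈ range (m + 1), (4 * 2 ^ l : ℝ) * D + D * m with hK
    have hK0 : 0 ≤ K := by positivity
    apply le_of_forall_pos_le_add
    intro δ hδ
    have hpos : 0 < δ / (K + 1) := by positivity
    have h1 := main (Real.sqrt (δ / (K + 1))) (Real.sqrt_pos.mpr hpos)
    rw [Real.sq_sqrt hpos.le] at h1
    have h2 : K * (δ / (K + 1)) ≤ δ := by
      rw [mul_div_assoc', div_le_iff₀ (by positivity)]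
      nlinarith
    linarith
  have : 0 ≤ C * D := mul_nonneg hC hD
  linarith

end gelfand

end MT3

section MT4

/-! Module T4: property (P) implies the bilinear extension property. -/


open Finset Module


open TensorProduct

section T4
variable {X : Type*} [NormedAddCommGroup X] [NormedSpace ℝ X]

/-- values of the representations of a tensor -/
def aux_T4_S (z : X ⊗[ℝ] X) : Set ℝ :=
  {s | ∃ (m : ℕ) (x x' : Fin m → X), ∑ i, x i ⊗ₜ[ℝ] x' i = z ∧ ∑ i, ‖x i‖ * ‖x' i‖ = s}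

/-- projective norm -/
noncomputable def aux_T4_p (z : X ⊗[ℝ] X) : ℝ := sInf (aux_T4_S z)

theorem aux_T4_S_add {z w : X ⊗[ℝ] X} {s t : ℝ} (hs : s ∈ aux_T4_S z) (ht : t ∈ aux_T4_S w) :
    s + t ∈ aux_T4_S (z + w) := by
  obtain ⟨m, x, x', h1, h2⟩ := hs
  obtain ⟨n, y, y', h3, h4⟩ := ht
  refine ⟨m + n, Fin.append x y, Fin.append x' y', ?_, ?_⟩
  · rw [Fin.sum_univ_add]
    simp only [Fin.append_left, Fin.append_right]
    rw [h1, h3]
  · rw [Fin.sum_univ_add]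
    simp only [Fin.append_left, Fin.append_right]
    rw [h2, h4]

theorem aux_T4_S_smul {z : X ⊗[ℝ] X} {s : ℝ} (c : ℝ) (hs : s ∈ aux_T4_S z) :
    |c| * s ∈ aux_T4_S (c • z) := by
  obtain ⟨m, x, x', h1, h2⟩ := hs
  refine ⟨m, fun i => c • x i, x', ?_, ?_⟩
  · rw [← h1, Finset.smul_sum]
    exact Finset.sum_congr rfl fun i _ => (TensorProduct.smul_tmul' _ _ _)
  · rw [← h2, Finset.mul_sum]
    exact Finset.sum_congr rfl fun i _ => by rw [norm_smul, Real.norm_eq_abs, mul_assoc]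

theorem aux_T4_S_tmul (x x' : X) : ‖x‖ * ‖x'‖ ∈ aux_T4_S (x ⊗ₜ[ℝ] x') :=
  ⟨1, fun _ => x, fun _ => x', by simp, by simp⟩

theorem aux_T4_S_nonempty (z : X ⊗[ℝ] X) : (aux_T4_S z).Nonempty := by
  induction z using TensorProduct.induction_on with
  | zero => exact ⟨0, 0, Fin.elim0, Fin.elim0, by simp, by simp⟩
  | tmul x y => exact ⟨_, aux_T4_S_tmul x y⟩
  | add x y hx hy =>
    obtain ⟨s, hs⟩ := hx
    obtain ⟨t, ht⟩ := hy
    exact ⟨_, aux_T4_S_add hs ht⟩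

theorem aux_T4_S_nonneg {z : X ⊗[ℝ] X} {s : ℝ} (hs : s ∈ aux_T4_S z) : 0 ≤ s := by
  obtain ⟨m, x, x', _, h2⟩ := hs
  rw [← h2]
  positivity

theorem aux_T4_p_le {z : X ⊗[ℝ] X} {s : ℝ} (hs : s ∈ aux_T4_S z) : aux_T4_p z ≤ s :=
  csInf_le ⟨0, fun _ h => aux_T4_S_nonneg h⟩ hs

theorem aux_T4_le_p {z : X ⊗[ℝ] X} {r : ℝ} (h : ∀ s ∈ aux_T4_S z, r ≤ s) : r ≤ aux_T4_p z :=
  le_csInf (aux_T4_S_nonempty z) h

theorem aux_T4_p_add (z w : X ⊗[ℝ] X) : aux_T4_p (z + w) ≤ aux_T4_p z + aux_T4_p w := by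
  have h1 : ∀ t ∈ aux_T4_S w, aux_T4_p (z + w) - t ≤ aux_T4_p z := by
    intro t ht
    refine aux_T4_le_p fun s hs => ?_
    have := aux_T4_p_le (aux_T4_S_add hs ht)
    linarith
  have h2 : aux_T4_p (z + w) - aux_T4_p z ≤ aux_T4_p w := by
    refine aux_T4_le_p fun t ht => ?_
    have := h1 t ht
    linarith
  linarith

theorem aux_T4_p_smul_le (c : ℝ) (hc : 0 < c) (z : X ⊗[ℝ] X) :
    aux_T4_p (c • z) ≤ c * aux_T4_p z := by
  have h : c⁻¹ * aux_T4_p (c • z) ≤ aux_T4_p z := by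
    refine aux_T4_le_p fun s hs => ?_
    have h1 := aux_T4_p_le (aux_T4_S_smul c hs)
    rw [abs_of_pos hc] at h1
    rw [inv_mul_le_iff₀ hc]
    exact h1
  rwa [inv_mul_le_iff₀ hc] at h

theorem aux_T4_p_smul (c : ℝ) (hc : 0 < c) (z : X ⊗[ℝ] X) :
    aux_T4_p (c • z) = c * aux_T4_p z := by
  refine le_antisymm (aux_T4_p_smul_le c hc z) ?_
  have h := aux_T4_p_smul_le c⁻¹ (inv_pos.2 hc) (c • z)
  rw [smul_smul, inv_mul_cancel₀ hc.ne', one_smul] at h
  rw [← le_inv_mul_iff₀ hc]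
  exact h

theorem aux_T4_bd {E : Type*} [NormedAddCommGroup E] [NormedSpace ℝ E] (B : E →L[ℝ] E →L[ℝ] ℝ) :
    ∃ D : ℝ, 0 ≤ D ∧ ∀ u v, |B u v| ≤ D * (‖u‖ * ‖v‖) := by
  refine ⟨‖B‖, B.opNorm_nonneg, fun u v => ?_⟩
  have h1 := B.le_opNorm₂ u v
  rw [Real.norm_eq_abs] at h1
  rw [← mul_assoc]; exact h1

/-- the bilinear form as an algebraic bilinear map -/
noncomputable def aux_T4_Bl (Y : Submodule ℝ X) (B : Y →L[ℝ] Y →L[ℝ] ℝ) : Y →ₗ[ℝ] Y →ₗ[ℝ] ℝ :=
  LinearMap.mk₂ ℝ (fun y y' => B y y') (by intros; simp) (by intros; simp) (by intros; simp)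
    (by intros; simp)

theorem aux_T4_key {C : ℝ} (h : PropP X C) (Y : Submodule ℝ X) (B : Y →L[ℝ] Y →L[ℝ] ℝ)
    {D : ℝ} (hD : 0 ≤ D) (hB : ∀ u v : Y, |B u v| ≤ D * (‖u‖ * ‖v‖))
    (z : Y ⊗[ℝ] Y) {m : ℕ} (x x' : Fin m → X)
    (hz : TensorProduct.map Y.subtype Y.subtype z = ∑ i, x i ⊗ₜ[ℝ] x' i)
    (hx : ∑ i, ‖x i‖ ^ 2 ≤ 1) (hx' : ∑ i, ‖x' i‖ ^ 2 ≤ 1) :
    |TensorProduct.lift (aux_T4_Bl Y B) z| ≤ 100 * C * D := by
  obtain ⟨H, hH, hsum⟩ := tensor_reduce x x' Y z hz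
  let w1 : H →ₗ[ℝ] Y := LinearMap.codRestrict Y ((syn x) ∘ₗ H.subtype) (fun u => (hH u u.2).1)
  let w2 : H →ₗ[ℝ] Y := LinearMap.codRestrict Y ((syn x') ∘ₗ H.subtype) (fun u => (hH u u.2).2)
  have hw1 : ∀ u : H, ((w1 u : Y) : X) = syn x u := fun u => rfl
  have hw2 : ∀ u : H, ((w2 u : Y) : X) = syn x' u := fun u => rfl
  let β : H →ₗ[ℝ] H →ₗ[ℝ] ℝ :=
    LinearMap.mk₂ ℝ (fun u v => B (w1 u) (w2 v)) (by intros; simp) (by intros; simp)
      (by intros; simp) (by intros; simp)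
  have hβ : ∀ u v, β u v = B (w1 u) (w2 v) := fun u v => rfl
  have hz' : z = ∑ j, w1 (stdOrthonormalBasis ℝ H j) ⊗ₜ[ℝ] w2 (stdOrthonormalBasis ℝ H j) := by
    apply TensorProduct.map_injective_of_flat_flat Y.subtype Y.subtype Y.subtype_injective
      Y.subtype_injective
    rw [hz, hsum, map_sum]
    refine Finset.sum_congr rfl fun j _ => ?_
    rw [TensorProduct.map_tmul]
    rfl
  have hval : TensorProduct.lift (aux_T4_Bl Y B) z =
      ∑ j, β (stdOrthonormalBasis ℝ H j) (stdOrthonormalBasis ℝ H j) := by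
    conv_lhs => rw [hz']
    rw [map_sum]
    refine Finset.sum_congr rfl fun j _ => ?_
    rw [TensorProduct.lift.tmul]
    rfl
  rw [hval]
  refine trace_bound (syn x) (syn x') (h m x hx) (h m x' hx') H β hD ?_
  intro u v
  rw [hβ]
  exact hB (w1 u) (w2 v)

theorem aux_T4_bound {C : ℝ} (h : PropP X C) (Y : Submodule ℝ X) (B : Y →L[ℝ] Y →L[ℝ] ℝ)
    {D : ℝ} (hD : 0 ≤ D) (hB : ∀ u v : Y, |B u v| ≤ D * (‖u‖ * ‖v‖))
    (z : Y ⊗[ℝ] Y) {s : ℝ} (hs : s ∈ aux_T4_S (TensorProduct.map Y.subtype Y.subtype z)) :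
    TensorProduct.lift (aux_T4_Bl Y B) z ≤ 100 * C * D * s := by
  have hs0 := aux_T4_S_nonneg hs
  obtain ⟨m, x, x', h1, h2⟩ := hs
  -- balanced representation
  set r : Fin m → ℝ := fun i => Real.sqrt (‖x i‖ * ‖x' i‖) with hr
  set u : Fin m → X := fun i => (r i / ‖x i‖) • x i with hu
  set u' : Fin m → X := fun i => (r i / ‖x' i‖) • x' i with hu'
  have hr2 : ∀ i, r i ^ 2 = ‖x i‖ * ‖x' i‖ := fun i => Real.sq_sqrt (by positivity)
  have hr0 : ∀ i, 0 ≤ r i := fun i => Real.sqrt_nonneg _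
  have huu : ∀ i, u i ⊗ₜ[ℝ] u' i = x i ⊗ₜ[ℝ] x' i := by
    intro i
    by_cases hx : x i = 0
    · simp [hu, hx]
    by_cases hx' : x' i = 0
    · simp [hu', hx']
    have e1 : ‖x i‖ ≠ 0 := norm_ne_zero_iff.2 hx
    have e2 : ‖x' i‖ ≠ 0 := norm_ne_zero_iff.2 hx'
    have e3 : (r i / ‖x i‖) * (r i / ‖x' i‖) = 1 := by
      have : (r i / ‖x i‖) * (r i / ‖x' i‖) = r i ^ 2 / (‖x i‖ * ‖x' i‖) := by
        field_simp
      rw [this, hr2]
      field_simp
    simp only [hu, hu']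
    rw [TensorProduct.smul_tmul_smul, e3, one_smul]
  have hun : ∀ i, ‖u i‖ ^ 2 ≤ ‖x i‖ * ‖x' i‖ := by
    intro i
    by_cases hx : x i = 0
    · simp [hu, hx]
    have e1 : ‖x i‖ ≠ 0 := norm_ne_zero_iff.2 hx
    simp only [hu]
    rw [norm_smul, Real.norm_eq_abs, abs_of_nonneg (by have := hr0 i; positivity),
      div_mul_cancel₀ _ e1, hr2]
  have hun' : ∀ i, ‖u' i‖ ^ 2 ≤ ‖x i‖ * ‖x' i‖ := by
    intro i
    by_cases hx : x' i = 0
    · simp [hu', hx]
    have e1 : ‖x' i‖ ≠ 0 := norm_ne_zero_iff.2 hx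
    simp only [hu']
    rw [norm_smul, Real.norm_eq_abs, abs_of_nonneg (by have := hr0 i; positivity),
      div_mul_cancel₀ _ e1, hr2]
  have hsumu : ∑ i, ‖u i‖ ^ 2 ≤ s := by
    rw [← h2]; exact Finset.sum_le_sum fun i _ => hun i
  have hsumu' : ∑ i, ‖u' i‖ ^ 2 ≤ s := by
    rw [← h2]; exact Finset.sum_le_sum fun i _ => hun' i
  have hrep : TensorProduct.map Y.subtype Y.subtype z = ∑ i, u i ⊗ₜ[ℝ] u' i := by
    rw [← h1]
    exact Finset.sum_congr rfl fun i _ => (huu i).symm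
  rcases hs0.eq_or_lt with hs1 | hs1
  · -- `s = 0`
    have hu0 : ∀ i, u i = 0 := by
      intro i
      have h3 : ‖u i‖ ^ 2 ≤ ∑ i, ‖u i‖ ^ 2 :=
        Finset.single_le_sum (f := fun i => ‖u i‖ ^ 2) (fun i _ => by positivity)
          (Finset.mem_univ i)
      have h4 : ‖u i‖ ^ 2 ≤ 0 := by linarith
      have h5 : ‖u i‖ = 0 := by
        have := sq_nonneg ‖u i‖
        exact pow_eq_zero_iff (two_ne_zero) |>.1 (le_antisymm h4 this)
      exact norm_eq_zero.1 h5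
    have hz0 : z = 0 := by
      apply TensorProduct.map_injective_of_flat_flat Y.subtype Y.subtype Y.subtype_injective
        Y.subtype_injective
      rw [hrep, map_zero]
      exact Finset.sum_eq_zero fun i _ => by rw [hu0 i, TensorProduct.zero_tmul]
    rw [hz0, map_zero, ← hs1, mul_zero]
  · set σ : ℝ := (Real.sqrt s)⁻¹ with hσ
    have hσ2 : σ ^ 2 = s⁻¹ := by
      rw [hσ, inv_pow, Real.sq_sqrt hs1.le]
    have hσσ : σ * σ = s⁻¹ := by rw [← hσ2]; ring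
    have hv : ∑ i, ‖σ • u i‖ ^ 2 ≤ 1 := by
      have e : ∀ i, ‖σ • u i‖ ^ 2 = s⁻¹ * ‖u i‖ ^ 2 := by
        intro i
        rw [norm_smul, mul_pow, Real.norm_eq_abs, sq_abs, hσ2]
      simp only [e]
      rw [← Finset.mul_sum, inv_mul_le_iff₀ hs1, mul_one]
      exact hsumu
    have hv' : ∑ i, ‖σ • u' i‖ ^ 2 ≤ 1 := by
      have e : ∀ i, ‖σ • u' i‖ ^ 2 = s⁻¹ * ‖u' i‖ ^ 2 := by
        intro i
        rw [norm_smul, mul_pow, Real.norm_eq_abs, sq_abs, hσ2]
      simp only [e]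
      rw [← Finset.mul_sum, inv_mul_le_iff₀ hs1, mul_one]
      exact hsumu'
    have hrep2 : TensorProduct.map Y.subtype Y.subtype (s⁻¹ • z) =
        ∑ i, (σ • u i) ⊗ₜ[ℝ] (σ • u' i) := by
      rw [map_smul, hrep, Finset.smul_sum]
      refine Finset.sum_congr rfl fun i _ => ?_
      exact (by rw [TensorProduct.smul_tmul_smul, hσσ] :
        (σ • u i) ⊗ₜ[ℝ] (σ • u' i) = s⁻¹ • (u i ⊗ₜ[ℝ] u' i)).symm
    have hk := aux_T4_key h Y B hD hB (s⁻¹ • z) _ _ hrep2 hv hv'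
    rw [map_smul, smul_eq_mul] at hk
    have hk2 := (le_abs_self _).trans hk
    rw [inv_mul_le_iff₀ hs1] at hk2
    linarith

theorem extend_of_propP {C : ℝ} (h : PropP X C) (Y : Submodule ℝ X)
    (B : Y →L[ℝ] Y →L[ℝ] ℝ) :
    ∃ B' : X →L[ℝ] X →L[ℝ] ℝ, ∀ y y' : Y, B' (y : X) (y' : X) = B y y' := by
  have hC : 0 ≤ C := by
    have := h 0 Fin.elim0 (by simp) 0
    simpa using this
  obtain ⟨D, hD, hB⟩ := aux_T4_bd (E := Y) B
  set K : ℝ := 100 * C * D with hK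
  have hK0 : 0 ≤ K := by positivity
  set T := TensorProduct.map Y.subtype Y.subtype with hT
  have hinj : Function.Injective T :=
    TensorProduct.map_injective_of_flat_flat Y.subtype Y.subtype Y.subtype_injective
      Y.subtype_injective
  let e := LinearEquiv.ofInjective T hinj
  let f : (X ⊗[ℝ] X) →ₗ.[ℝ] ℝ :=
    { domain := LinearMap.range T
      toFun := (TensorProduct.lift (aux_T4_Bl Y B)) ∘ₗ e.symm.toLinearMap }
  have hf : ∀ (z : Y ⊗[ℝ] Y) (hz : T z ∈ f.domain), f ⟨T z, hz⟩ =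
      TensorProduct.lift (aux_T4_Bl Y B) z := by
    intro z hz
    change TensorProduct.lift (aux_T4_Bl Y B) (e.symm ⟨T z, hz⟩) = _
    congr 1
    rw [LinearEquiv.symm_apply_eq]
    rfl
  obtain ⟨g, hg1, hg2⟩ := exists_extension_of_le_sublinear f (fun z => K * aux_T4_p z)
    (fun c hc z => by rw [aux_T4_p_smul c hc]; ring)
    (fun z w => by
      have := mul_le_mul_of_nonneg_left (aux_T4_p_add z w) hK0
      linarith)
    (by
      rintro ⟨w, hw⟩
      obtain ⟨z, rfl⟩ := hw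
      rw [hf z]
      change _ ≤ K * aux_T4_p (T z)
      rcases hK0.eq_or_lt with hK1 | hK1
      · obtain ⟨s, hs⟩ := aux_T4_S_nonempty (T z)
        have := aux_T4_bound h Y B hD hB z hs
        rw [← hK, ← hK1, zero_mul] at this
        rw [← hK1, zero_mul]
        exact this
      · have h3 : K⁻¹ * TensorProduct.lift (aux_T4_Bl Y B) z ≤ aux_T4_p (T z) := by
          refine aux_T4_le_p fun s hs => ?_
          rw [inv_mul_le_iff₀ hK1]
          exact aux_T4_bound h Y B hD hB z hs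
        rwa [inv_mul_le_iff₀ hK1] at h3)
  have hgb : ∀ x x' : X, ‖g (x ⊗ₜ[ℝ] x')‖ ≤ K * ‖x‖ * ‖x'‖ := by
    intro x x'
    rw [Real.norm_eq_abs, abs_le]
    constructor
    · have h3 := hg2 ((-x) ⊗ₜ[ℝ] x')
      have h4 := mul_le_mul_of_nonneg_left (aux_T4_p_le (aux_T4_S_tmul (-x) x')) hK0
      rw [norm_neg] at h4
      rw [TensorProduct.neg_tmul, map_neg] at h3
      rw [TensorProduct.neg_tmul] at h4
      linarith
    · have h3 := hg2 (x ⊗ₜ[ℝ] x')
      have h4 := mul_le_mul_of_nonneg_left (aux_T4_p_le (aux_T4_S_tmul x x')) hK0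
      linarith
  let b : X →ₗ[ℝ] X →ₗ[ℝ] ℝ := (TensorProduct.mk ℝ X X).compr₂ g
  have hb : ∀ x x', b x x' = g (x ⊗ₜ[ℝ] x') := fun x x' => rfl
  refine ⟨LinearMap.mkContinuous₂ b K (fun x x' => by rw [hb]; exact hgb x x'), ?_⟩
  intro y y'
  rw [LinearMap.mkContinuous₂_apply, hb]
  have h5 : (y : X) ⊗ₜ[ℝ] (y' : X) = T (y ⊗ₜ[ℝ] y') := by
    rw [hT, TensorProduct.map_tmul]; rfl
  rw [h5]
  have h6 := hg1 ⟨T (y ⊗ₜ[ℝ] y'), LinearMap.mem_range_self T _⟩
  rw [hf] at h6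
  change g (T (y ⊗ₜ[ℝ] y')) = _ at h6
  rw [h6, TensorProduct.lift.tmul]
  rfl

end T4

end MT4

section MF1

/-! Module F1: property (P) passes to a space in which `X` is dense -/


open Finset Module


section F1
variable {X : Type*} [NormedAddCommGroup X] [NormedSpace ℝ X]

theorem aux_F1_gel_nonneg {m : ℕ} (w : EuclideanSpace ℝ (Fin m) →ₗ[ℝ] X) (k : ℕ) : 0 ≤ gel w k := by
  apply Real.sInf_nonneg
  rintro s ⟨hs, -⟩
  exact hs

theorem aux_F1_bdd {m : ℕ} (w : EuclideanSpace ℝ (Fin m) →ₗ[ℝ] X) (k : ℕ) :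
    BddBelow {s : ℝ | 0 ≤ s ∧ ∃ V : Submodule ℝ (EuclideanSpace ℝ (Fin m)),
      m ≤ finrank ℝ V + k ∧ ∀ v ∈ V, ‖w v‖ ≤ s * ‖v‖} :=
  ⟨0, fun _ hs => hs.1⟩

theorem aux_F1_gel_zero {m : ℕ} (w : EuclideanSpace ℝ (Fin m) →ₗ[ℝ] X) (k : ℕ) (hk : m ≤ k) :
    gel w k = 0 := by
  apply le_antisymm _ (aux_F1_gel_nonneg w k)
  apply csInf_le (aux_F1_bdd w k)
  refine ⟨le_rfl, ⊥, by omega, ?_⟩
  intro v hv
  rw [Submodule.mem_bot] at hv
  subst hv
  simp

theorem aux_F1_nonempty {m : ℕ} (w : EuclideanSpace ℝ (Fin m) →ₗ[ℝ] X) (k : ℕ) :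
    {s : ℝ | 0 ≤ s ∧ ∃ V : Submodule ℝ (EuclideanSpace ℝ (Fin m)),
      m ≤ finrank ℝ V + k ∧ ∀ v ∈ V, ‖w v‖ ≤ s * ‖v‖}.Nonempty := by
  refine ⟨‖LinearMap.toContinuousLinearMap w‖, norm_nonneg _, ⊤, ?_, ?_⟩
  · rw [finrank_top]; simp
  · intro v _
    exact (LinearMap.toContinuousLinearMap w).le_opNorm v

theorem propP_of_dense {X' : Type*} [NormedAddCommGroup X'] [NormedSpace ℝ X'] (ι : X →ₗᵢ[ℝ] X')
    (hι : DenseRange ι) {C : ℝ} (h : PropP X C) : ∃ C', PropP X' C' := by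
  refine ⟨8 * C + 2, ?_⟩
  intro m x hx K
  set η : ℝ := 1 / ((m : ℝ) + 1) ^ 2 with hη
  have hη0 : 0 < η := by positivity
  have hm0 : (0 : ℝ) ≤ m := Nat.cast_nonneg m
  have hmη : m * η * (m + 1) ≤ 1 := by
    rw [hη]
    have : (m : ℝ) * (1 / ((m : ℝ) + 1) ^ 2) * (m + 1) = m / (m + 1) := by
      field_simp
    rw [this, div_le_one (by positivity)]
    linarith
  have hy : ∀ i, ∃ y : X, ‖x i - ι y‖ ≤ η := by
    intro i
    obtain ⟨y, hy⟩ := hι.exists_dist_lt (x i) hη0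
    exact ⟨y, by rw [← dist_eq_norm]; exact hy.le⟩
  choose y hy using hy
  have hηm : m * η ≤ 1 := by
    have : 0 ≤ m * η * m := by positivity
    nlinarith
  have hη1 : η ≤ 1 := by
    rw [hη, div_le_one (by positivity)]
    nlinarith
  -- norms of the approximants
  have hny : ∑ i, ‖(1 / 2 : ℝ) • y i‖ ^ 2 ≤ 1 := by
    have h1 : ∀ i, ‖(1 / 2 : ℝ) • y i‖ ^ 2 ≤ (‖x i‖ ^ 2 + η) / 2 := by
      intro i
      have h2 : ‖y i‖ ≤ ‖x i‖ + η := by
        have : ‖y i‖ = ‖ι (y i)‖ := (ι.norm_map _).symm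
        rw [this]
        calc ‖ι (y i)‖ = ‖x i - (x i - ι (y i))‖ := by congr 1; abel
          _ ≤ ‖x i‖ + ‖x i - ι (y i)‖ := norm_sub_le _ _
          _ ≤ _ := by linarith [hy i]
      have h3 : ‖y i‖ ^ 2 ≤ 2 * ‖x i‖ ^ 2 + 2 * η := by
        have : ‖y i‖ ^ 2 ≤ (‖x i‖ + η) ^ 2 := by gcongr
        nlinarith [sq_nonneg (‖x i‖ - η), norm_nonneg (x i)]
      rw [norm_smul, mul_pow]
      norm_num
      linarith
    calc ∑ i, ‖(1 / 2 : ℝ) • y i‖ ^ 2 ≤ ∑ i, (‖x i‖ ^ 2 + η) / 2 := Finset.sum_le_sum fun i _ => h1 i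
      _ = (∑ i, ‖x i‖ ^ 2 + m * η) / 2 := by
          rw [← Finset.sum_div, Finset.sum_add_distrib]
          simp
      _ ≤ 1 := by linarith
  have hP := h m (fun i => (1 / 2 : ℝ) • y i) hny K
  -- comparison of the Gelfand numbers
  have hsyn : ∀ v : EuclideanSpace ℝ (Fin m),
      ‖syn x v‖ ≤ 2 * ‖syn (fun i => (1 / 2 : ℝ) • y i) v‖ + (m * η) * ‖v‖ := by
    intro v
    have h1 : syn x v = ι ((2 : ℝ) • syn (fun i => (1 / 2 : ℝ) • y i) v) +
        ∑ i, v i • (x i - ι (y i)) := by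
      simp only [syn, LinearMap.coe_mk, AddHom.coe_mk, smul_sub, Finset.sum_sub_distrib,
        Finset.smul_sum, map_sum, map_smul, smul_smul]
      have : ∀ i, (2 : ℝ) * (v i * (1 / 2)) = v i := fun i => by ring
      simp only [this]
      abel
    rw [h1]
    refine (norm_add_le _ _).trans ?_
    rw [ι.norm_map, norm_smul]
    have h2 : ‖∑ i, v i • (x i - ι (y i))‖ ≤ (m * η) * ‖v‖ := by
      calc ‖∑ i, v i • (x i - ι (y i))‖ ≤ ∑ i, ‖v i • (x i - ι (y i))‖ := norm_sum_le _ _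
        _ ≤ ∑ _i : Fin m, ‖v‖ * η := by
            refine Finset.sum_le_sum fun i _ => ?_
            rw [norm_smul]
            exact mul_le_mul (PiLp.norm_apply_le v i) (hy i) (norm_nonneg _) (norm_nonneg _)
        _ = (m * η) * ‖v‖ := by simp; ring
    have h3 : ‖(2 : ℝ)‖ = 2 := by norm_num
    rw [h3]
    linarith
  have hgel : ∀ k, gel (syn x) k ≤ 2 * gel (syn fun i => (1 / 2 : ℝ) • y i) k + m * η := by
    intro k
    have h1 : (gel (syn x) k - m * η) / 2 ≤ gel (syn fun i => (1 / 2 : ℝ) • y i) k := by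
      apply le_csInf (aux_F1_nonempty _ k)
      rintro s ⟨hs, V, hV, hVs⟩
      have h2 : gel (syn x) k ≤ 2 * s + m * η := by
        apply csInf_le (aux_F1_bdd _ k)
        refine ⟨by positivity, V, hV, ?_⟩
        intro v hv
        have := hVs v hv
        have h3 := hsyn v
        nlinarith
      linarith
    linarith
  have hterm : ∀ k, gel (syn x) k ^ 2 ≤ 8 * gel (syn fun i => (1 / 2 : ℝ) • y i) k ^ 2 +
      (if k < m then 2 * (m * η) ^ 2 else 0) := by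
    intro k
    have h0 := aux_F1_gel_nonneg (syn x) k
    have h0' := aux_F1_gel_nonneg (syn fun i => (1 / 2 : ℝ) • y i) k
    split_ifs with hk
    · have h1 := hgel k
      have h2 : gel (syn x) k ^ 2 ≤ (2 * gel (syn fun i => (1 / 2 : ℝ) • y i) k + m * η) ^ 2 := by
        gcongr
      nlinarith [sq_nonneg (2 * gel (syn fun i => (1 / 2 : ℝ) • y i) k - m * η)]
    · rw [aux_F1_gel_zero (syn x) k (not_lt.mp hk)]
      have := sq_nonneg (gel (syn fun i => (1 / 2 : ℝ) • y i) k)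
      linarith
  have hite : ∑ k ∈ range K, (if k < m then 2 * (m * η) ^ 2 else 0) ≤ 2 := by
    rw [← Finset.sum_filter, Finset.sum_const, nsmul_eq_mul]
    have hcard : (((range K).filter fun k => k < m).card : ℝ) ≤ m := by
      have : ((range K).filter fun k => k < m) ⊆ range m := by
        intro k hk
        rw [Finset.mem_filter] at hk
        exact Finset.mem_range.mpr hk.2
      have h := Finset.card_le_card this
      rw [Finset.card_range] at h
      exact_mod_cast h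
    have h0 : 0 ≤ m * η := by positivity
    calc (((range K).filter fun k => k < m).card : ℝ) * (2 * (m * η) ^ 2)
        ≤ m * (2 * (m * η) ^ 2) := by gcongr
      _ = 2 * (m * η * m) * (m * η) := by ring
      _ ≤ 2 * 1 * 1 := by
          have : m * η * m ≤ 1 := by nlinarith
          gcongr
      _ = 2 := by norm_num
  calc ∑ k ∈ range K, gel (syn x) k ^ 2
      ≤ ∑ k ∈ range K, (8 * gel (syn fun i => (1 / 2 : ℝ) • y i) k ^ 2 +
        (if k < m then 2 * (m * η) ^ 2 else 0)) := Finset.sum_le_sum fun k _ => hterm k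
    _ = 8 * ∑ k ∈ range K, gel (syn fun i => (1 / 2 : ℝ) • y i) k ^ 2 +
        ∑ k ∈ range K, (if k < m then 2 * (m * η) ^ 2 else 0) := by
          rw [Finset.sum_add_distrib, Finset.mul_sum]
    _ ≤ 8 * C + 2 := by linarith

end F1

end MF1

section MF2

open Finset Module


section F2
variable {X : Type*} [NormedAddCommGroup X] [NormedSpace ℂ X]

theorem aux_F2_bd {Z : Type*} [NormedAddCommGroup Z] [NormedSpace ℂ Z] (B : Z →L[ℂ] Z →L[ℂ] ℂ) :
    ∃ C : ℝ, ∀ z z' : Z, ‖B z z'‖ ≤ C * ‖z‖ * ‖z'‖ := ⟨‖B‖, B.le_opNorm₂⟩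

/-- the real part of a complex bilinear form on a subspace -/
theorem aux_F2_re (Y : Submodule ℂ X) (B : Y →L[ℂ] Y →L[ℂ] ℂ) :
    ∃ Br : (Y.restrictScalars ℝ) →L[ℝ] (Y.restrictScalars ℝ) →L[ℝ] ℝ,
      ∀ y y' : Y.restrictScalars ℝ,
        Br y y' = (B (⟨y.1, y.2⟩ : Y) (⟨y'.1, y'.2⟩ : Y)).re := by
  obtain ⟨C, hC⟩ := aux_F2_bd (Z := Y) B
  refine ⟨LinearMap.mkContinuous₂ (LinearMap.mk₂ ℝ
    (fun y y' : Y.restrictScalars ℝ => (B (⟨y.1, y.2⟩ : Y) (⟨y'.1, y'.2⟩ : Y)).re)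
    ?_ ?_ ?_ ?_) C ?_, fun y y' => rfl⟩
  · intro y₁ y₂ z
    have : (⟨(y₁ + y₂).1, (y₁ + y₂).2⟩ : Y) = (⟨y₁.1, y₁.2⟩ : Y) + ⟨y₂.1, y₂.2⟩ := rfl
    rw [this, map_add]
    rfl
  · intro c y z
    have : (⟨(c • y).1, (c • y).2⟩ : Y) = (c : ℂ) • (⟨y.1, y.2⟩ : Y) := rfl
    rw [this, map_smul]
    show (((c : ℂ)) • (B (⟨y.1, y.2⟩ : Y) (⟨z.1, z.2⟩ : Y))).re = _
    simp
  · intro y z₁ z₂
    have : (⟨(z₁ + z₂).1, (z₁ + z₂).2⟩ : Y) = (⟨z₁.1, z₁.2⟩ : Y) + ⟨z₂.1, z₂.2⟩ := rfl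
    rw [this, map_add]
    rfl
  · intro c y z
    have : (⟨(c • z).1, (c • z).2⟩ : Y) = (c : ℂ) • (⟨z.1, z.2⟩ : Y) := rfl
    rw [this, map_smul]
    simp
  · intro y z
    rw [LinearMap.mk₂_apply, Real.norm_eq_abs]
    exact (Complex.abs_re_le_norm _).trans (hC (⟨y.1, y.2⟩ : Y) (⟨z.1, z.2⟩ : Y))

/-- the symmetrised real form -/
noncomputable def aux_F2_R (R : X →L[ℝ] X →L[ℝ] ℝ) (x y : X) : ℝ :=
  (R x y - R (Complex.I • x) (Complex.I • y)) / 2

theorem aux_F2_add_left (R : X →L[ℝ] X →L[ℝ] ℝ) (x x' y : X) :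
    aux_F2_R R (x + x') y = aux_F2_R R x y + aux_F2_R R x' y := by
  unfold aux_F2_R
  simp only [map_add, smul_add, add_apply]
  ring

theorem aux_F2_add_right (R : X →L[ℝ] X →L[ℝ] ℝ) (x y y' : X) :
    aux_F2_R R x (y + y') = aux_F2_R R x y + aux_F2_R R x y' := by
  unfold aux_F2_R
  simp only [map_add, smul_add]
  ring

theorem aux_F2_smul_left (R : X →L[ℝ] X →L[ℝ] ℝ) (c : ℝ) (x y : X) :
    aux_F2_R R (c • x) y = c * aux_F2_R R x y := by
  unfold aux_F2_R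
  rw [smul_comm Complex.I c x]
  simp only [map_smul, smul_apply, smul_eq_mul]
  ring

theorem aux_F2_smul_right (R : X →L[ℝ] X →L[ℝ] ℝ) (c : ℝ) (x y : X) :
    aux_F2_R R x (c • y) = c * aux_F2_R R x y := by
  unfold aux_F2_R
  rw [smul_comm Complex.I c y]
  simp only [map_smul, smul_eq_mul]
  ring

theorem aux_F2_II (x : X) : Complex.I • Complex.I • x = -x := by
  rw [smul_smul, Complex.I_mul_I, neg_one_smul]

theorem aux_F2_I (R : X →L[ℝ] X →L[ℝ] ℝ) (x y : X) :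
    aux_F2_R R (Complex.I • x) (Complex.I • y) = - aux_F2_R R x y := by
  unfold aux_F2_R
  rw [aux_F2_II, aux_F2_II]
  simp only [map_neg, neg_apply]
  ring

theorem aux_F2_neg_left (R : X →L[ℝ] X →L[ℝ] ℝ) (x y : X) :
    aux_F2_R R (-x) y = - aux_F2_R R x y := by
  have := aux_F2_smul_left R (-1) x y
  simpa using this

theorem aux_F2_neg_right (R : X →L[ℝ] X →L[ℝ] ℝ) (x y : X) :
    aux_F2_R R x (-y) = - aux_F2_R R x y := by
  have := aux_F2_smul_right R (-1) x y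
  simpa using this

theorem aux_F2_swap (R : X →L[ℝ] X →L[ℝ] ℝ) (x y : X) :
    aux_F2_R R x (Complex.I • y) = aux_F2_R R (Complex.I • x) y := by
  have h := aux_F2_I R x (Complex.I • y)
  rw [aux_F2_II, aux_F2_neg_right] at h
  linarith

theorem aux_F2_bound (R : X →L[ℝ] X →L[ℝ] ℝ) (x y : X) :
    |aux_F2_R R x y| ≤ ‖R‖ * ‖x‖ * ‖y‖ := by
  unfold aux_F2_R
  have h1 := R.le_opNorm₂ x y
  have h2 := R.le_opNorm₂ (Complex.I • x) (Complex.I • y)
  rw [norm_smul, norm_smul, Complex.norm_I, one_mul, one_mul] at h2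
  rw [Real.norm_eq_abs] at h1 h2
  rw [abs_div, abs_two, div_le_iff₀ (by norm_num)]
  have := abs_sub (R x y) (R (Complex.I • x) (Complex.I • y))
  linarith

/-- the complex form -/
noncomputable def aux_F2_f (R : X →L[ℝ] X →L[ℝ] ℝ) (x y : X) : ℂ :=
  ⟨aux_F2_R R x y, - aux_F2_R R (Complex.I • x) y⟩

theorem aux_F2_f_smul_left (R : X →L[ℝ] X →L[ℝ] ℝ) (c : ℂ) (x y : X) :
    aux_F2_f R (c • x) y = c * aux_F2_f R x y := by
  have hc : c • x = c.re • x + c.im • Complex.I • x := by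
    conv_lhs => rw [← Complex.re_add_im c, add_smul, mul_smul]
    rfl
  have hc' : Complex.I • c • x = c.re • Complex.I • x + c.im • (-x) := by
    rw [hc, smul_add, smul_comm Complex.I c.re x, smul_comm Complex.I c.im (Complex.I • x),
      aux_F2_II]
  apply Complex.ext
  · simp only [aux_F2_f, Complex.mul_re]
    rw [hc, aux_F2_add_left, aux_F2_smul_left, aux_F2_smul_left]
    ring
  · simp only [aux_F2_f, Complex.mul_im]
    rw [hc', aux_F2_add_left, aux_F2_smul_left, aux_F2_smul_left, aux_F2_neg_left]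
    ring

theorem aux_F2_f_smul_right (R : X →L[ℝ] X →L[ℝ] ℝ) (c : ℂ) (x y : X) :
    aux_F2_f R x (c • y) = c * aux_F2_f R x y := by
  have hc : c • y = c.re • y + c.im • Complex.I • y := by
    conv_lhs => rw [← Complex.re_add_im c, add_smul, mul_smul]
    rfl
  apply Complex.ext
  · simp only [aux_F2_f, Complex.mul_re]
    rw [hc, aux_F2_add_right, aux_F2_smul_right, aux_F2_smul_right, aux_F2_swap]
    ring
  · simp only [aux_F2_f, Complex.mul_im]
    rw [hc, aux_F2_add_right, aux_F2_smul_right, aux_F2_smul_right, aux_F2_swap, aux_F2_II,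
      aux_F2_neg_left]
    ring

/-- F2: complex from real. -/
theorem beps_complex {X : Type*} [NormedAddCommGroup X] [NormedSpace ℂ X]
    (h : ∀ (Y : Submodule ℝ X) (B : Y →L[ℝ] Y →L[ℝ] ℝ),
      ∃ B' : X →L[ℝ] X →L[ℝ] ℝ, ∀ y y' : Y, B' (y : X) (y' : X) = B y y') : BEPS ℂ X := by
  intro Y _ B
  obtain ⟨Br, hBr⟩ := aux_F2_re Y B
  obtain ⟨R, hR⟩ := h (Y.restrictScalars ℝ) Br
  have hRY : ∀ y y' : Y, R (y : X) (y' : X) = (B y y').re := by
    intro y y'
    have := hR ⟨y.1, y.2⟩ ⟨y'.1, y'.2⟩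
    rw [hBr] at this
    exact this
  have hRY' : ∀ y y' : Y, aux_F2_R R (y : X) (y' : X) = (B y y').re := by
    intro y y'
    unfold aux_F2_R
    have h1 := hRY (Complex.I • y) (Complex.I • y')
    rw [Submodule.coe_smul, Submodule.coe_smul] at h1
    rw [hRY, h1, map_smul, map_smul, smul_apply, smul_smul,
      Complex.I_mul_I]
    simp
  refine ⟨LinearMap.mkContinuous₂ (LinearMap.mk₂ ℂ (aux_F2_f R) ?_ ?_ ?_ ?_) (2 * ‖R‖) ?_, ?_⟩
  · intro x x' y
    apply Complex.ext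
    · simp only [aux_F2_f, Complex.add_re, aux_F2_add_left]
    · simp only [aux_F2_f, Complex.add_im, smul_add, aux_F2_add_left]
      ring
  · intro c x y
    rw [aux_F2_f_smul_left, smul_eq_mul]
  · intro x y y'
    apply Complex.ext
    · simp only [aux_F2_f, Complex.add_re, aux_F2_add_right]
    · simp only [aux_F2_f, Complex.add_im, aux_F2_add_right]
      ring
  · intro c x y
    rw [aux_F2_f_smul_right, smul_eq_mul]
  · intro x y
    rw [LinearMap.mk₂_apply]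
    have h1 := aux_F2_bound R x y
    have h2 := aux_F2_bound R (Complex.I • x) y
    rw [norm_smul, Complex.norm_I, one_mul] at h2
    have h3 := Complex.norm_le_abs_re_add_abs_im (aux_F2_f R x y)
    simp only [aux_F2_f, abs_neg] at h3
    have h4 : ‖aux_F2_f R x y‖ ≤ |aux_F2_R R x y| + |aux_F2_R R (Complex.I • x) y| := h3
    linarith
  · intro y y'
    rw [LinearMap.mkContinuous₂_apply, LinearMap.mk₂_apply]
    apply Complex.ext
    · simp only [aux_F2_f]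
      exact hRY' y y'
    · simp only [aux_F2_f]
      have h1 := hRY' (Complex.I • y) y'
      rw [Submodule.coe_smul] at h1
      rw [h1, map_smul, smul_apply]
      simp

end F2

end MF2

end H9.Beps
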