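import Pool.Agent.H9.Beps.Core

/-!
# MP_975b05_an: the window estimate
-/

set_option autoImplicit false

open Finset Module

namespace H9.Beps

/-- number of colours used in one step -/
noncomputable def RR (b : ℕ) (θ : ℝ) : ℕ := 1 + (2 * ⌈Real.sqrt (8 * b) / θ ^ 2⌉₊ + 2) ^ (2 * b)

section MW1

/-! Module W1: the martingale step. -/


open Finset Module


section W
variable {X : Type*} [NormedAddCommGroup X] [NormedSpace ℝ X]

theorem aux_W1_avg_congr {m : ℕ} (p : Fin m → ℝ) (κ : Fin m → ℕ) (ξ : Fin m → X) {i j : Fin m}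
    (h : κ i = κ j) : avg p κ ξ i = avg p κ ξ j := by
  unfold avg
  rw [h]

theorem aux_W1_sum {m : ℕ} (p : Fin m → ℝ) (hp : ∀ i, 0 < p i)
    (ξ : Fin m → X) (κ κ' : Fin m → ℕ) (h : ∀ i j, κ' i = κ' j → κ i = κ j) (k : ℕ) :
    ∑ i with κ i = k, p i • avg p κ' ξ i = ∑ i with κ i = k, p i • ξ i := by
  classical
  have e1 : ∑ i with κ i = k, p i • avg p κ' ξ i =
      ∑ i, ∑ i', (if κ i = k ∧ κ' i' = κ' i then
        (p i * (∑ i'' with κ' i'' = κ' i, p i'')⁻¹) • p i' • ξ i' else 0) := by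
    rw [Finset.sum_filter]
    refine Finset.sum_congr rfl fun i _ => ?_
    by_cases hi : κ i = k
    · rw [if_pos hi]
      unfold avg
      rw [smul_smul, Finset.smul_sum, Finset.sum_filter]
      refine Finset.sum_congr rfl fun i' _ => ?_
      by_cases hi' : κ' i' = κ' i
      · rw [if_pos hi', if_pos ⟨hi, hi'⟩]
      · rw [if_neg hi', if_neg (fun hh => hi' hh.2)]
    · rw [if_neg hi]
      symm
      refine Finset.sum_eq_zero fun i' _ => ?_
      rw [if_neg (fun hh => hi hh.1)]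
  rw [e1, Finset.sum_comm, Finset.sum_filter]
  refine Finset.sum_congr rfl fun i' _ => ?_
  by_cases hi' : κ i' = k
  · rw [if_pos hi']
    have e2 : ∀ i, (if κ i = k ∧ κ' i' = κ' i then
        (p i * (∑ i'' with κ' i'' = κ' i, p i'')⁻¹) • p i' • ξ i' else 0) =
        (if κ' i = κ' i' then (p i * (∑ i'' with κ' i'' = κ' i', p i'')⁻¹) else 0) • p i' • ξ i' := by
      intro i
      by_cases hi : κ' i = κ' i'
      · rw [if_pos hi, if_pos ⟨(h _ _ hi).trans hi', hi.symm⟩, hi]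
      · rw [if_neg hi, if_neg (fun hh => hi hh.2.symm), zero_smul]
    rw [Finset.sum_congr rfl fun i _ => e2 i, ← Finset.sum_smul, ← Finset.sum_filter,
      ← Finset.sum_mul, mul_inv_cancel₀, one_smul]
    have : 0 < ∑ i with κ' i = κ' i', p i :=
      Finset.sum_pos (fun i _ => hp i) ⟨i', by simp⟩
    exact this.ne'
  · rw [if_neg hi']
    refine Finset.sum_eq_zero fun i _ => ?_
    rw [if_neg]
    rintro ⟨h1, h2⟩
    exact hi' ((h _ _ h2).trans h1)

/-- W1: martingale step. -/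
theorem mart_step {c : ℝ} (hc : 0 ≤ c) (hU : UC X c) {m : ℕ} (p : Fin m → ℝ)
    (hp : ∀ i, 0 < p i)
    (ξ : Fin m → X) (κ κ' : Fin m → ℕ) (h : ∀ i j, κ' i = κ' j → κ i = κ j) :
    En p κ ξ + c / 2 * Dn p κ κ' ξ ≤ En p κ' ξ := by
  classical
  have _ := hc
  choose F hF1 hF2 using fun a : X => exists_dual_vector'' ℝ a
  have key : ∀ a y : X, ‖a‖ ^ 2 + 2 * (‖a‖ * F a y) + c / 2 * ‖y‖ ^ 2 ≤ ‖a + y‖ ^ 2 := by
    intro a y
    have h1 := hU (a + (1 / 2 : ℝ) • y) ((1 / 2 : ℝ) • y)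
    have e1 : a + (1 / 2 : ℝ) • y + (1 / 2 : ℝ) • y = a + y := by
      rw [add_assoc, ← add_smul]
      norm_num
    have e2 : a + (1 / 2 : ℝ) • y - (1 / 2 : ℝ) • y = a := by
      rw [add_sub_cancel_right]
    have e3 : ‖(1 / 2 : ℝ) • y‖ = 1 / 2 * ‖y‖ := by
      rw [norm_smul]
      norm_num
    rw [e1, e2, e3] at h1
    have h2 : F a (a + (1 / 2 : ℝ) • y) = ‖a‖ + 1 / 2 * F a y := by
      rw [map_add, map_smul, hF2, smul_eq_mul]
      simp
    have h3 : |F a (a + (1 / 2 : ℝ) • y)| ≤ ‖a + (1 / 2 : ℝ) • y‖ := by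
      have := (F a).le_of_opNorm_le (hF1 a) (a + (1 / 2 : ℝ) • y)
      rwa [one_mul, Real.norm_eq_abs] at this
    have h4 : (F a (a + (1 / 2 : ℝ) • y)) ^ 2 ≤ ‖a + (1 / 2 : ℝ) • y‖ ^ 2 := by
      rw [← sq_abs]
      exact pow_le_pow_left₀ (abs_nonneg _) h3 2
    rw [h2] at h4
    nlinarith [sq_nonneg (F a y)]
  set a : Fin m → X := fun i => avg p κ ξ i with ha
  set a' : Fin m → X := fun i => avg p κ' ξ i with ha'
  have hzero : ∑ i, p i * (‖a i‖ * F (a i) (a' i - a i)) = 0 := by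
    rw [← Finset.sum_fiberwise_of_maps_to (s := univ) (t := univ.image κ) (g := κ)
      (fun i _ => Finset.mem_image_of_mem _ (Finset.mem_univ i))]
    refine Finset.sum_eq_zero fun k hk => ?_
    obtain ⟨i₀, -, hi₀⟩ := Finset.mem_image.mp hk
    have e1 : ∀ i ∈ univ.filter (fun i => κ i = k), p i * (‖a i‖ * F (a i) (a' i - a i)) =
        ‖a i₀‖ * F (a i₀) (p i • a' i - p i • a i) := by
      intro i hi
      have hi2 : κ i = κ i₀ := by
        rw [(Finset.mem_filter.mp hi).2, hi₀]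
      have e : a i = a i₀ := aux_W1_avg_congr p κ ξ hi2
      rw [← smul_sub, map_smul, smul_eq_mul, e]
      ring
    rw [Finset.sum_congr rfl e1, ← Finset.mul_sum, ← map_sum, Finset.sum_sub_distrib]
    have e2 := aux_W1_sum p hp ξ κ κ' h k
    have e3 := aux_W1_sum p hp ξ κ κ (fun i j hij => hij) k
    rw [show ∑ i with κ i = k, p i • a' i = ∑ i with κ i = k, p i • ξ i from e2,
      show ∑ i with κ i = k, p i • a i = ∑ i with κ i = k, p i • ξ i from e3, sub_self, map_zero,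
      mul_zero]
  have hpt : ∀ i, p i * ‖a i‖ ^ 2 + 2 * (p i * (‖a i‖ * F (a i) (a' i - a i))) +
      c / 2 * (p i * ‖a' i - a i‖ ^ 2) ≤ p i * ‖a' i‖ ^ 2 := by
    intro i
    have h1 := key (a i) (a' i - a i)
    rw [add_sub_cancel] at h1
    have h2 := mul_le_mul_of_nonneg_left h1 (hp i).le
    nlinarith [h2]
  have hs := Finset.sum_le_sum fun i (_ : i ∈ (univ : Finset (Fin m))) => hpt i
  rw [Finset.sum_add_distrib, Finset.sum_add_distrib, ← Finset.mul_sum, ← Finset.mul_sum,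
    hzero, mul_zero, add_zero] at hs
  exact hs

end W

end MW1

section MW2

/-! Module W2: greedy choice. -/


open Finset Module


variable {X : Type*} [NormedAddCommGroup X] [NormedSpace ℝ X]

theorem aux_W2_bdd {m : ℕ} (w : EuclideanSpace ℝ (Fin m) →ₗ[ℝ] X) (k : ℕ) :
    BddBelow {s : ℝ | 0 ≤ s ∧ ∃ V : Submodule ℝ (EuclideanSpace ℝ (Fin m)),
    m ≤ finrank ℝ V + k ∧ ∀ v ∈ V, ‖w v‖ ≤ s * ‖v‖} :=
  ⟨0, fun _ hs => hs.1⟩

theorem aux_W2_nonneg {m : ℕ} (w : EuclideanSpace ℝ (Fin m) →ₗ[ℝ] X) (k : ℕ) :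
    0 ≤ gel w k := Real.sInf_nonneg fun _ hs => hs.1

theorem aux_W2_le {m : ℕ} (w : EuclideanSpace ℝ (Fin m) →ₗ[ℝ] X) (k : ℕ) {s : ℝ} (hs : 0 ≤ s)
    (V : Submodule ℝ (EuclideanSpace ℝ (Fin m))) (hV : m ≤ finrank ℝ V + k)
    (h : ∀ v ∈ V, ‖w v‖ ≤ s * ‖v‖) : gel w k ≤ s :=
  csInf_le (aux_W2_bdd w k) ⟨hs, V, hV, h⟩

theorem aux_W2_finrank {m M : ℕ} (𝒩 : Submodule ℝ (EuclideanSpace ℝ (Fin m)))
    (g : Fin M → EuclideanSpace ℝ (Fin m)) :
    finrank ℝ 𝒩 ≤ finrank ℝ (𝒩 ⊓ (Submodule.span ℝ (Set.range g))ᗮ : Submodule ℝ _) + M := by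
  set S := Submodule.span ℝ (Set.range g) with hS
  have h1 := Submodule.finrank_add_finrank_orthogonal S
  have h2 := Submodule.finrank_sup_add_finrank_inf_eq 𝒩 Sᗮ
  have h3 : finrank ℝ (𝒩 ⊔ Sᗮ : Submodule ℝ _) ≤ finrank ℝ (EuclideanSpace ℝ (Fin m)) :=
    Submodule.finrank_le _
  have h4 : finrank ℝ S ≤ M := by
    have := finrank_range_le_card (R := ℝ) g
    simpa [Set.finrank] using this
  omega

/-- one step of the greedy choice -/
theorem aux_W2_step {m : ℕ} (w : EuclideanSpace ℝ (Fin m) →ₗ[ℝ] X)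
    (U : Submodule ℝ (EuclideanSpace ℝ (Fin m))) (k : ℕ) (hk : m ≤ finrank ℝ U + k)
    (hU : 0 < finrank ℝ U) : ∃ v ∈ U, ‖v‖ = 1 ∧ gel w k ≤ 2 * ‖w v‖ := by
  have hne : U ≠ ⊥ := by
    rintro rfl
    simp at hU
  obtain ⟨u, huU, hu0⟩ := Submodule.exists_mem_ne_zero_of_ne_bot hne
  have hun : ‖u‖ ≠ 0 := norm_ne_zero_iff.mpr hu0
  by_contra hcon
  push Not at hcon
  have hle : gel w k ≤ gel w k / 2 := by
    apply aux_W2_le w k (by have := aux_W2_nonneg w k; linarith) U hk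
    intro v hv
    by_cases hv0 : v = 0
    · simp [hv0]
    · have hvn : ‖v‖ ≠ 0 := norm_ne_zero_iff.mpr hv0
      have := hcon (‖v‖⁻¹ • v) (U.smul_mem _ hv) (by rw [norm_smul, norm_inv, norm_norm]; field_simp)
      rw [map_smul, norm_smul, norm_inv, norm_norm] at this
      have hvp : 0 < ‖v‖ := lt_of_le_of_ne (norm_nonneg _) (Ne.symm hvn)
      have h2 : 2 * ‖w v‖ < gel w k * ‖v‖ := by
        have h3 := mul_lt_mul_of_pos_right this hvp
        have h4 : 2 * (‖v‖⁻¹ * ‖w v‖) * ‖v‖ = 2 * ‖w v‖ := by field_simp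
        linarith
      linarith
  have h0 := aux_W2_nonneg w k
  have h1 := hcon (‖u‖⁻¹ • u) (U.smul_mem _ huU) (by rw [norm_smul, norm_inv, norm_norm]; field_simp)
  have h2 := norm_nonneg (w (‖u‖⁻¹ • u))
  linarith

/-- W2: greedy choice. -/
theorem greedy {m : ℕ} (w : EuclideanSpace ℝ (Fin m) →ₗ[ℝ] X)
    (𝒩 : Submodule ℝ (EuclideanSpace ℝ (Fin m))) (q : ℕ) (hq : m ≤ finrank ℝ 𝒩 + q) (M : ℕ) :
    ∃ (M' : ℕ) (_ : M' ≤ M) (g : Fin M' → EuclideanSpace ℝ (Fin m)),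
      Orthonormal ℝ g ∧ (∀ j, g j ∈ 𝒩) ∧
      ∑ k ∈ Ico q (q + M), gel w k ^ 2 ≤ 4 * ∑ j, ‖w (g j)‖ ^ 2 := by
  induction M with
  | zero =>
    refine ⟨0, le_rfl, Fin.elim0, ⟨fun i => i.elim0, fun i => i.elim0⟩, fun i => i.elim0, ?_⟩
    simp
  | succ M ih =>
    obtain ⟨M', hM', g, hg, hgN, hsum⟩ := ih
    have hsplit : ∑ k ∈ Ico q (q + (M + 1)), gel w k ^ 2 =
        ∑ k ∈ Ico q (q + M), gel w k ^ 2 + gel w (q + M) ^ 2 := by
      rw [← add_assoc, Finset.sum_Ico_succ_top (by omega)]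
    by_cases hm : m ≤ q + M
    · refine ⟨M', by omega, g, hg, hgN, ?_⟩
      have h0 : gel w (q + M) = 0 := by
        apply le_antisymm _ (aux_W2_nonneg w _)
        apply aux_W2_le w _ le_rfl ⊥ (by simpa using hm)
        intro v hv
        rw [Submodule.mem_bot] at hv
        simp [hv]
      rw [hsplit, h0]
      simpa using hsum
    · have hfr := aux_W2_finrank 𝒩 g
      obtain ⟨v, hvU, hv1, hvg⟩ := aux_W2_step w (𝒩 ⊓ (Submodule.span ℝ (Set.range g))ᗮ) (q + M)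
        (by omega) (by omega)
      rw [Submodule.mem_inf] at hvU
      have horth : ∀ j, inner ℝ (g j) v = 0 := by
        intro j
        exact (Submodule.mem_orthogonal _ _).mp hvU.2 _ (Submodule.subset_span ⟨j, rfl⟩)
      refine ⟨M' + 1, by omega, Fin.cons v g, ?_, ?_, ?_⟩
      · rw [orthonormal_iff_ite] at hg ⊢
        intro i j
        refine Fin.cases ?_ (fun i => ?_) i
        · refine Fin.cases ?_ (fun j => ?_) j
          · simp [hv1]
          · rw [Fin.cons_zero, Fin.cons_succ, real_inner_comm, horth, if_neg (Fin.succ_ne_zero j).symm]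
        · refine Fin.cases ?_ (fun j => ?_) j
          · rw [Fin.cons_zero, Fin.cons_succ, horth, if_neg (Fin.succ_ne_zero i)]
          · rw [Fin.cons_succ, Fin.cons_succ, hg i j]
            simp [Fin.succ_inj]
      · intro j
        refine Fin.cases ?_ (fun j => ?_) j
        · exact hvU.1
        · exact hgN j
      · rw [hsplit, Fin.sum_univ_succ]
        simp only [Fin.cons_zero, Fin.cons_succ]
        have h1 : gel w (q + M) ^ 2 ≤ (2 * ‖w v‖) ^ 2 :=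
          pow_le_pow_left₀ (aux_W2_nonneg w _) hvg 2
        nlinarith

end MW2

section MW3

open Finset Module


section W3

/-- W3: approximately measurable refinement. `A` is the exceptional set. The number of colours is
`RR b θ` of the spec, unfolded. -/
theorem refine_colour {m : ℕ} (p : Fin m → ℝ) (hp : ∀ i, 0 < p i) (hp1 : ∑ i, p i ≤ 1)
    (b : ℕ) (θ : ℝ) (hθ : 0 < θ) (M : ℕ) (hM : M ≤ 2 * b)
    (g : Fin M → EuclideanSpace ℝ (Fin m)) (hg : Orthonormal ℝ g) (κ : Fin m → ℕ) :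
    ∃ (κ' : Fin m → ℕ) (A : Finset (Fin m)),
      (∀ i j, κ' i = κ' j → κ i = κ j) ∧
      (univ.image κ').card ≤ (univ.image κ).card *
        (1 + (2 * ⌈Real.sqrt (8 * b) / θ ^ 2⌉₊ + 2) ^ (2 * b)) ∧
      (∀ i j, κ' i = κ' j → (i ∈ A ↔ j ∈ A)) ∧
      (∀ l, ∀ i j, κ' i = κ' j → i ∉ A →
        |g l i / Real.sqrt (p i) - g l j / Real.sqrt (p j)| ≤ θ) ∧
      (∀ l, 2 * ∑ i ∈ A, Real.sqrt (p i) * |g l i| ≤ θ) := by
  classical
  have hs : ∀ i, 0 < Real.sqrt (p i) := fun i => Real.sqrt_pos.2 (hp i)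
  have hss : ∀ i, Real.sqrt (p i) ^ 2 = p i := fun i => Real.sq_sqrt (hp i).le
  set T : ℝ := 8 * b / θ ^ 2 with hT
  have hT0 : 0 ≤ T := by positivity
  let A : Finset (Fin m) := univ.filter (fun i => T < ∑ l, (g l i) ^ 2 / p i)
  set K : ℕ := ⌈Real.sqrt (8 * b) / θ ^ 2⌉₊ with hK
  let F : Fin m → ℕ × Option (Fin M → ℤ) := fun i =>
    (κ i, if i ∈ A then none else some (fun l => ⌊g l i / Real.sqrt (p i) / θ⌋))
  have hnorm : ∀ l, ∑ i, (g l i) ^ 2 = 1 := by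
    intro l
    have h := hg.1 l
    have h2 := EuclideanSpace.norm_sq_eq (g l)
    rw [h] at h2
    simpa [Real.norm_eq_abs, sq_abs] using h2.symm
  refine ⟨fun i => Encodable.encode (F i), A, ?_, ?_, ?_, ?_, ?_⟩
  · intro i j h
    have := Encodable.encode_injective h
    exact congrArg Prod.fst this
  · have h1 : (univ.image (fun i => Encodable.encode (F i))).card ≤ (univ.image F).card := by
      have : univ.image (fun i => Encodable.encode (F i)) =
          (univ.image F).image Encodable.encode := by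
        rw [Finset.image_image]; rfl
      rw [this]
      exact Finset.card_image_le
    have h2 : univ.image F ⊆ (univ.image κ) ×ˢ
        (insertNone (Fintype.piFinset (fun _ : Fin M => Finset.Icc (-(K : ℤ)) K))) := by
      intro x hx
      obtain ⟨i, _, rfl⟩ := Finset.mem_image.1 hx
      rw [Finset.mem_product]
      refine ⟨Finset.mem_image.2 ⟨i, Finset.mem_univ _, rfl⟩, ?_⟩
      show (if i ∈ A then none else some (fun l => ⌊g l i / Real.sqrt (p i) / θ⌋)) ∈ _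
      by_cases hi : i ∈ A
      · rw [if_pos hi]; simp
      · rw [if_neg hi, Finset.some_mem_insertNone, Fintype.mem_piFinset]
        intro l
        have hi' : ∑ l, (g l i) ^ 2 / p i ≤ T := by
          by_contra hcon
          exact hi (Finset.mem_filter.2 ⟨Finset.mem_univ _, not_le.1 hcon⟩)
        have h3 : (g l i) ^ 2 / p i ≤ T :=
          (Finset.single_le_sum (f := fun l => (g l i) ^ 2 / p i)
            (fun l _ => div_nonneg (sq_nonneg _) (hp i).le) (Finset.mem_univ l)).trans hi'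
        have h4 : (g l i / Real.sqrt (p i)) ^ 2 ≤ T := by rw [div_pow, hss]; exact h3
        have h5 : |g l i / Real.sqrt (p i)| ≤ Real.sqrt T := Real.abs_le_sqrt h4
        have h6 : Real.sqrt T = Real.sqrt (8 * b) / θ := by
          rw [hT, Real.sqrt_div (by positivity), Real.sqrt_sq hθ.le]
        have h7 : |g l i / Real.sqrt (p i) / θ| ≤ K := by
          rw [abs_div, abs_of_pos hθ]
          calc |g l i / Real.sqrt (p i)| / θ ≤ Real.sqrt (8 * b) / θ / θ := by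
                rw [← h6]; gcongr
            _ = Real.sqrt (8 * b) / θ ^ 2 := by rw [div_div, sq]
            _ ≤ K := Nat.le_ceil _
        rw [abs_le] at h7
        rw [Finset.mem_Icc]
        constructor
        · rw [Int.le_floor]; push_cast; exact h7.1
        · have : (⌊g l i / Real.sqrt (p i) / θ⌋ : ℝ) ≤ K := (Int.floor_le _).trans h7.2
          exact_mod_cast this
    have h3 := (Finset.card_le_card h2)
    rw [Finset.card_product, Finset.card_insertNone, Fintype.card_piFinset] at h3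
    refine h1.trans (h3.trans ?_)
    refine Nat.mul_le_mul_left _ ?_
    rw [Finset.prod_const, Finset.card_univ, Fintype.card_fin, Int.card_Icc]
    have h4 : ((K : ℤ) + 1 - -(K : ℤ)).toNat = 2 * K + 1 := by omega
    rw [h4, add_comm]
    refine Nat.add_le_add_left ?_ _
    calc (2 * K + 1) ^ M ≤ (2 * K + 2) ^ M := Nat.pow_le_pow_left (by omega) _
      _ ≤ (2 * K + 2) ^ (2 * b) := Nat.pow_le_pow_right (by omega) hM
  · intro i j h
    have h1 := congrArg Prod.snd (Encodable.encode_injective h)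
    change (if i ∈ A then none else some (fun l => ⌊g l i / Real.sqrt (p i) / θ⌋)) =
      (if j ∈ A then none else some (fun l => ⌊g l j / Real.sqrt (p j) / θ⌋)) at h1
    by_cases hi : i ∈ A <;> by_cases hj : j ∈ A <;> simp [hi, hj] at h1 ⊢
  · intro l i j h hi
    have h1 := congrArg Prod.snd (Encodable.encode_injective h)
    change (if i ∈ A then none else some (fun l => ⌊g l i / Real.sqrt (p i) / θ⌋)) =
      (if j ∈ A then none else some (fun l => ⌊g l j / Real.sqrt (p j) / θ⌋)) at h1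
    by_cases hj : j ∈ A
    · simp [hi, hj] at h1
    · rw [if_neg hi, if_neg hj, Option.some_inj] at h1
      have h2 := congrFun h1 l
      have h3 := Int.abs_sub_lt_one_of_floor_eq_floor h2
      rw [← sub_div, abs_div, abs_of_pos hθ, div_lt_one hθ] at h3
      exact h3.le
  · intro l
    have hM1 : 1 ≤ M := by
      have := l.2
      omega
    have hb : 1 ≤ b := by omega
    have hb' : (1 : ℝ) ≤ b := by exact_mod_cast hb
    have hTpos : 0 < T := by positivity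
    have hA1 : T * ∑ i ∈ A, p i ≤ M := by
      calc T * ∑ i ∈ A, p i = ∑ i ∈ A, T * p i := by rw [Finset.mul_sum]
        _ ≤ ∑ i ∈ A, ∑ l, (g l i) ^ 2 := by
            refine Finset.sum_le_sum fun i hi => ?_
            have h1 := (Finset.mem_filter.1 hi).2
            rw [← Finset.sum_div, lt_div_iff₀ (hp i)] at h1
            exact h1.le
        _ ≤ ∑ i, ∑ l, (g l i) ^ 2 :=
            Finset.sum_le_univ_sum_of_nonneg fun i => Finset.sum_nonneg fun l _ => sq_nonneg _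
        _ = ∑ l, ∑ i, (g l i) ^ 2 := Finset.sum_comm
        _ = M := by simp [hnorm]
    have hA2 : ∑ i ∈ A, p i ≤ (θ / 2) ^ 2 := by
      have h1 : T * ∑ i ∈ A, p i ≤ 2 * b := hA1.trans (by exact_mod_cast hM)
      have h2 : T * (θ / 2) ^ 2 = 2 * b := by
        rw [hT]; field_simp; ring
      rw [← h2] at h1
      exact le_of_mul_le_mul_left h1 hTpos
    have hCS : (∑ i ∈ A, Real.sqrt (p i) * |g l i|) ^ 2 ≤
        (∑ i ∈ A, p i) * ∑ i ∈ A, (g l i) ^ 2 := by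
      have := Finset.sum_mul_sq_le_sq_mul_sq A (fun i => Real.sqrt (p i)) (fun i => |g l i|)
      simpa [hss, sq_abs] using this
    have h3 : ∑ i ∈ A, (g l i) ^ 2 ≤ 1 := by
      rw [← hnorm l]
      exact Finset.sum_le_univ_sum_of_nonneg fun i => sq_nonneg _
    have h4 : (∑ i ∈ A, Real.sqrt (p i) * |g l i|) ^ 2 ≤ (θ / 2) ^ 2 := by
      refine hCS.trans ?_
      calc (∑ i ∈ A, p i) * ∑ i ∈ A, (g l i) ^ 2 ≤ (θ / 2) ^ 2 * 1 :=
            mul_le_mul hA2 h3 (Finset.sum_nonneg fun i _ => sq_nonneg _) (sq_nonneg _)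
        _ = _ := mul_one _
    have h5 := abs_le_of_sq_le_sq h4 (by positivity)
    have h6 := (abs_le.1 h5).2
    linarith

end W3

end MW3

section MW4

open Finset Module


section W4
variable {X : Type*} [NormedAddCommGroup X] [NormedSpace ℝ X]

theorem aux_W4_avg_ite {m : ℕ} (p : Fin m → ℝ) (κ : Fin m → ℕ) (ξ : Fin m → X) (i : Fin m) :
    avg p κ ξ i = ∑ i', (if κ i' = κ i then (∑ j with κ j = κ i, p j)⁻¹ * p i' else 0) • ξ i' := by
  unfold avg
  rw [Finset.smul_sum, Finset.sum_filter]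
  refine Finset.sum_congr rfl fun i' _ => ?_
  split_ifs
  · rw [smul_smul]
  · rw [zero_smul]

theorem aux_W4_adj {m : ℕ} (p : Fin m → ℝ) (κ : Fin m → ℕ) (f : Fin m → ℝ) (ξ : Fin m → X) :
    ∑ i, (p i * f i) • avg p κ ξ i = ∑ i, (p i * avg p κ f i) • ξ i := by
  simp only [aux_W4_avg_ite]
  have h1 : ∀ i, (p i * f i) • ∑ i', (if κ i' = κ i then (∑ j with κ j = κ i, p j)⁻¹ * p i' else 0) • ξ i'
      = ∑ i', ((p i * f i) * (if κ i' = κ i then (∑ j with κ j = κ i, p j)⁻¹ * p i' else 0)) • ξ i' := by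
    intro i
    rw [Finset.smul_sum]
    exact Finset.sum_congr rfl fun i' _ => by rw [smul_smul]
  rw [Finset.sum_congr rfl fun i _ => h1 i, Finset.sum_comm]
  refine Finset.sum_congr rfl fun i' _ => ?_
  rw [← Finset.sum_smul]
  congr 1
  rw [Finset.mul_sum]
  refine Finset.sum_congr rfl fun i _ => ?_
  by_cases h : κ i' = κ i
  · rw [if_pos h, if_pos h.symm, h]
    simp only [smul_eq_mul]
    ring
  · rw [if_neg h, if_neg (fun h' => h h'.symm)]
    simp

theorem aux_W4_class_pos {m : ℕ} (p : Fin m → ℝ) (hp : ∀ i, 0 < p i) (κ : Fin m → ℕ) (i : Fin m) :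
    0 < ∑ j with κ j = κ i, p j :=
  Finset.sum_pos (fun j _ => hp j) ⟨i, by simp⟩

/-- averages of the absolute value -/
theorem aux_W4_sum_avg {m : ℕ} (p : Fin m → ℝ) (hp : ∀ i, 0 < p i) (κ : Fin m → ℕ)
    (f : Fin m → ℝ) : ∑ i, p i * |avg p κ f i| ≤ ∑ i, p i * |f i| := by
  have h1 : ∀ i, |avg p κ f i| ≤ avg p κ (fun j => |f j|) i := by
    intro i
    unfold avg
    rw [smul_eq_mul, smul_eq_mul, abs_mul,
      abs_of_nonneg (inv_nonneg.2 (aux_W4_class_pos p hp κ i).le)]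
    refine mul_le_mul_of_nonneg_left ?_ (inv_nonneg.2 (aux_W4_class_pos p hp κ i).le)
    refine (Finset.abs_sum_le_sum_abs _ _).trans (le_of_eq ?_)
    refine Finset.sum_congr rfl fun j _ => ?_
    rw [smul_eq_mul, smul_eq_mul, abs_mul, abs_of_pos (hp j)]
  have h2 := aux_W4_adj p κ (fun _ => (1 : ℝ)) (fun j => |f j|)
  have h3 : ∀ i, avg p κ (fun _ => (1 : ℝ)) i = 1 := by
    intro i
    unfold avg
    simp only [smul_eq_mul, mul_one]
    exact inv_mul_cancel₀ (aux_W4_class_pos p hp κ i).ne'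
  simp only [h3, mul_one, smul_eq_mul] at h2
  calc ∑ i, p i * |avg p κ f i| ≤ ∑ i, p i * avg p κ (fun j => |f j|) i :=
        Finset.sum_le_sum fun i _ => mul_le_mul_of_nonneg_left (h1 i) (hp i).le
    _ = ∑ i, p i * |f i| := h2

theorem aux_W4_osc {m : ℕ} (p : Fin m → ℝ) (hp : ∀ i, 0 < p i) (κ : Fin m → ℕ)
    (f : Fin m → ℝ) (θ : ℝ) (i : Fin m) (h : ∀ j, κ j = κ i → |f i - f j| ≤ θ) :
    |f i - avg p κ f i| ≤ θ := by
  have hP := aux_W4_class_pos p hp κ i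
  have h1 : f i - avg p κ f i = (∑ j with κ j = κ i, p j)⁻¹ * ∑ j with κ j = κ i, p j * (f i - f j) := by
    unfold avg
    simp only [smul_eq_mul, mul_sub, Finset.sum_sub_distrib]
    rw [← Finset.sum_mul, ← mul_assoc, inv_mul_cancel₀ hP.ne', one_mul]
  rw [h1, abs_mul, abs_of_nonneg (inv_nonneg.2 hP.le), inv_mul_le_iff₀ hP]
  calc |∑ j with κ j = κ i, p j * (f i - f j)| ≤ ∑ j with κ j = κ i, |p j * (f i - f j)| :=
        Finset.abs_sum_le_sum_abs _ _
    _ ≤ ∑ j with κ j = κ i, p j * θ := by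
        refine Finset.sum_le_sum fun j hj => ?_
        rw [abs_mul, abs_of_pos (hp j)]
        exact mul_le_mul_of_nonneg_left (h j (Finset.mem_filter.1 hj).2) (hp j).le
    _ = (∑ j with κ j = κ i, p j) * θ := by rw [Finset.sum_mul]

theorem aux_W4_norm_sum {m : ℕ} (p : Fin m → ℝ) (hp : ∀ i, 0 < p i) (ξ : Fin m → X)
    (hξ : ∀ i, ‖ξ i‖ ≤ 1) (f : Fin m → ℝ) : ‖∑ i, (p i * f i) • ξ i‖ ≤ ∑ i, p i * |f i| := by
  refine (norm_sum_le _ _).trans (Finset.sum_le_sum fun i _ => ?_)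
  rw [norm_smul, Real.norm_eq_abs, abs_mul, abs_of_pos (hp i)]
  exact mul_le_of_le_one_right (mul_nonneg (hp i).le (abs_nonneg _)) (hξ i)

theorem aux_W4_bessel {m M L : ℕ} (g : Fin M → EuclideanSpace ℝ (Fin m)) (hg : Orthonormal ℝ g)
    (y : Fin m → EuclideanSpace ℝ (Fin L)) :
    ∑ l, ‖∑ i, g l i • y i‖ ^ 2 ≤ ∑ i, ‖y i‖ ^ 2 := by
  have h1 : ∀ l, ‖∑ i, g l i • y i‖ ^ 2 =
      ∑ c, (inner ℝ (g l) (WithLp.toLp 2 (fun i => y i c) : EuclideanSpace ℝ (Fin m))) ^ 2 := by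
    intro l
    rw [EuclideanSpace.norm_sq_eq]
    refine Finset.sum_congr rfl fun c _ => ?_
    rw [Real.norm_eq_abs, sq_abs]
    congr 1
    rw [PiLp.inner_apply]
    simp [mul_comm]
  rw [Finset.sum_congr rfl fun l _ => h1 l, Finset.sum_comm]
  have h2 : ∀ c, ∑ l, (inner ℝ (g l) (WithLp.toLp 2 (fun i => y i c) : EuclideanSpace ℝ (Fin m))) ^ 2
      ≤ ∑ i, (y i c) ^ 2 := by
    intro c
    have h3 := hg.sum_inner_products_le (WithLp.toLp 2 (fun i => y i c) : EuclideanSpace ℝ (Fin m))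
      (s := Finset.univ)
    rw [EuclideanSpace.norm_sq_eq] at h3
    simpa [Real.norm_eq_abs, sq_abs] using h3
  refine (Finset.sum_le_sum fun c _ => h2 c).trans (le_of_eq ?_)
  rw [Finset.sum_comm]
  refine Finset.sum_congr rfl fun i _ => ?_
  rw [EuclideanSpace.norm_sq_eq]
  simp [Real.norm_eq_abs, sq_abs]

/-- W4: main estimate for one window. -/
theorem main_estimate {m : ℕ} (p : Fin m → ℝ) (hp : ∀ i, 0 < p i) (hp1 : ∑ i, p i ≤ 1)
    (ξ : Fin m → X) (hξ : ∀ i, ‖ξ i‖ ≤ 1) (θ : ℝ) (hθ : 0 < θ) (M : ℕ)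
    (g : Fin M → EuclideanSpace ℝ (Fin m)) (hg : Orthonormal ℝ g)
    (κ κ' : Fin m → ℕ) (href : ∀ i j, κ' i = κ' j → κ i = κ j) (A : Finset (Fin m))
    (hA : ∀ i j, κ' i = κ' j → (i ∈ A ↔ j ∈ A))
    (hosc : ∀ l, ∀ i j, κ' i = κ' j → i ∉ A →
        |g l i / Real.sqrt (p i) - g l j / Real.sqrt (p j)| ≤ θ)
    (hsmall : ∀ l, 2 * ∑ i ∈ A, Real.sqrt (p i) * |g l i| ≤ θ)
    (hzero : ∀ l, ∀ i, ∑ i' with κ i' = κ i, Real.sqrt (p i') * g l i' = 0)
    {L : ℕ} (Λ : X →ₗ[ℝ] EuclideanSpace ℝ (Fin L)) (hΛ : ∀ y, ‖Λ y‖ ≤ ‖y‖)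
    (hΛw : ∀ l, ‖syn (fun i => Real.sqrt (p i) • ξ i) (g l)‖ ≤
      2 * ‖Λ (syn (fun i => Real.sqrt (p i) • ξ i) (g l))‖ + θ) :
    ∑ l, ‖syn (fun i => Real.sqrt (p i) • ξ i) (g l)‖ ^ 2 ≤
      8 * Dn p κ κ' ξ + 50 * M * θ ^ 2 := by
  classical
  have hs : ∀ i, 0 < Real.sqrt (p i) := fun i => Real.sqrt_pos.2 (hp i)
  have hss : ∀ i, Real.sqrt (p i) * Real.sqrt (p i) = p i := fun i =>
    Real.mul_self_sqrt (hp i).le
  let gt : Fin M → Fin m → ℝ := fun l i => g l i / Real.sqrt (p i)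
  have hgt : ∀ l i, p i * gt l i = Real.sqrt (p i) * g l i := by
    intro l i
    have h := hs i
    calc p i * gt l i = (Real.sqrt (p i) * Real.sqrt (p i)) * (g l i / Real.sqrt (p i)) := by
          rw [hss i]
      _ = Real.sqrt (p i) * g l i := by field_simp
  let a : Fin M → Fin m → ℝ := fun l i => if i ∈ A then 0 else gt l i
  let d : Fin m → X := fun i => avg p κ' ξ i - avg p κ ξ i
  let D : Fin M → X := fun l => ∑ i, (p i * a l i) • d i
  let W : Fin M → X := fun l => syn (fun i => Real.sqrt (p i) • ξ i) (g l)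
  have hW : ∀ l, W l = ∑ i, (p i * gt l i) • ξ i := by
    intro l
    show ∑ i, g l i • (Real.sqrt (p i) • ξ i) = _
    refine Finset.sum_congr rfl fun i _ => ?_
    rw [smul_smul, hgt, mul_comm]
  -- the difference
  have hdiff : ∀ l, W l - D l = ∑ i, (p i * (a l i - avg p κ' (a l) i)) • ξ i +
      ∑ i, (p i * (if i ∈ A then gt l i else 0)) • ξ i +
      ∑ i, (p i * avg p κ (a l) i) • ξ i := by
    intro l
    have hD : D l = ∑ i, (p i * avg p κ' (a l) i) • ξ i - ∑ i, (p i * avg p κ (a l) i) • ξ i := by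
      rw [← aux_W4_adj, ← aux_W4_adj, ← Finset.sum_sub_distrib]
      refine Finset.sum_congr rfl fun i _ => ?_
      rw [smul_sub]
    rw [hD, hW, ← Finset.sum_sub_distrib, ← Finset.sum_sub_distrib, ← Finset.sum_add_distrib,
      ← Finset.sum_add_distrib]
    refine Finset.sum_congr rfl fun i _ => ?_
    rw [← sub_smul, ← sub_smul, ← add_smul, ← add_smul]
    congr 1
    by_cases hi : i ∈ A
    · simp only [a, hi, if_true]; ring
    · simp only [a, hi, if_false]; ring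
  have hsmall' : ∀ l, ∑ i, p i * |(if i ∈ A then gt l i else 0)| ≤ θ / 2 := by
    intro l
    have h1 : ∑ i, p i * |(if i ∈ A then gt l i else 0)| =
        ∑ i ∈ A, Real.sqrt (p i) * |g l i| := by
      rw [← Finset.sum_filter_add_sum_filter_not univ (fun i => i ∈ A)]
      have e2 : ∑ i ∈ univ.filter (fun i => ¬ i ∈ A), p i * |(if i ∈ A then gt l i else 0)| = 0 :=
        Finset.sum_eq_zero fun i hi => by simp [(Finset.mem_filter.1 hi).2]
      rw [e2, add_zero]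
      have e3 : univ.filter (fun i => i ∈ A) = A := by ext i; simp
      rw [e3]
      refine Finset.sum_congr rfl fun i hi => ?_
      rw [if_pos hi, ← abs_of_pos (hp i), ← abs_mul, abs_of_pos (hp i), hgt, abs_mul,
        abs_of_pos (hs i)]
    rw [h1]
    linarith [hsmall l]
  have hEa : ∀ l i, avg p κ (a l) i = - avg p κ (fun j => if j ∈ A then gt l j else 0) i := by
    intro l i
    have h1 : avg p κ (gt l) i = 0 := by
      unfold avg
      have : ∑ i' with κ i' = κ i, p i' • gt l i' = 0 := by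
        rw [← hzero l i]
        exact Finset.sum_congr rfl fun j _ => by rw [smul_eq_mul, hgt]
      rw [this, smul_zero]
    have h2 : avg p κ (a l) i + avg p κ (fun j => if j ∈ A then gt l j else 0) i =
        avg p κ (gt l) i := by
      unfold avg
      rw [← smul_add, ← Finset.sum_add_distrib]
      congr 1
      refine Finset.sum_congr rfl fun j _ => ?_
      rw [← smul_add]
      congr 1
      by_cases hj : j ∈ A <;> simp [a, hj]
    linarith
  have hclose : ∀ l, ‖W l - D l‖ ≤ 2 * θ := by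
    intro l
    rw [hdiff l]
    have h1 : ‖∑ i, (p i * (a l i - avg p κ' (a l) i)) • ξ i‖ ≤ θ := by
      refine (aux_W4_norm_sum p hp ξ hξ _).trans ?_
      calc ∑ i, p i * |a l i - avg p κ' (a l) i| ≤ ∑ i, p i * θ := by
            refine Finset.sum_le_sum fun i _ => mul_le_mul_of_nonneg_left ?_ (hp i).le
            refine aux_W4_osc p hp κ' (a l) θ i fun j hj => ?_
            by_cases hi : i ∈ A
            · have hj' : j ∈ A := (hA j i hj).2 hi
              simp only [a, hi, hj', if_true, sub_self, abs_zero]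
              exact hθ.le
            · have hj' : j ∉ A := fun h => hi ((hA j i hj).1 h)
              simp only [a, hi, hj', if_false]
              exact hosc l i j hj.symm hi
        _ = (∑ i, p i) * θ := by rw [Finset.sum_mul]
        _ ≤ 1 * θ := mul_le_mul_of_nonneg_right hp1 hθ.le
        _ = θ := one_mul θ
    have h2 : ‖∑ i, (p i * (if i ∈ A then gt l i else 0)) • ξ i‖ ≤ θ / 2 :=
      (aux_W4_norm_sum p hp ξ hξ _).trans (hsmall' l)
    have h3 : ‖∑ i, (p i * avg p κ (a l) i) • ξ i‖ ≤ θ / 2 := by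
      refine (aux_W4_norm_sum p hp ξ hξ _).trans ?_
      refine le_trans (le_of_eq ?_) ((aux_W4_sum_avg p hp κ
        (fun j => if j ∈ A then gt l j else 0)).trans (hsmall' l))
      refine Finset.sum_congr rfl fun i _ => ?_
      rw [hEa, abs_neg]
    calc _ ≤ ‖∑ i, (p i * (a l i - avg p κ' (a l) i)) • ξ i +
          ∑ i, (p i * (if i ∈ A then gt l i else 0)) • ξ i‖ +
          ‖∑ i, (p i * avg p κ (a l) i) • ξ i‖ := norm_add_le _ _
      _ ≤ ‖∑ i, (p i * (a l i - avg p κ' (a l) i)) • ξ i‖ +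
          ‖∑ i, (p i * (if i ∈ A then gt l i else 0)) • ξ i‖ +
          ‖∑ i, (p i * avg p κ (a l) i) • ξ i‖ := by gcongr; exact norm_add_le _ _
      _ ≤ θ + θ / 2 + θ / 2 := by gcongr
      _ = 2 * θ := by ring
  have hsq : ∀ l, ‖W l‖ ^ 2 ≤ 8 * ‖Λ (D l)‖ ^ 2 + 50 * θ ^ 2 := by
    intro l
    have h1 : ‖Λ (W l)‖ ≤ ‖Λ (D l)‖ + 2 * θ := by
      have : Λ (W l) = Λ (D l) + Λ (W l - D l) := by rw [map_sub]; abel
      rw [this]
      refine (norm_add_le _ _).trans ?_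
      have := (hΛ (W l - D l)).trans (hclose l)
      linarith
    have h2 : ‖W l‖ ≤ 2 * ‖Λ (D l)‖ + 5 * θ := by
      have := hΛw l
      change ‖W l‖ ≤ 2 * ‖Λ (W l)‖ + θ at this
      linarith
    have h3 : 0 ≤ ‖Λ (D l)‖ := norm_nonneg _
    calc ‖W l‖ ^ 2 ≤ (2 * ‖Λ (D l)‖ + 5 * θ) ^ 2 := pow_le_pow_left₀ (norm_nonneg _) h2 2
      _ ≤ 8 * ‖Λ (D l)‖ ^ 2 + 50 * θ ^ 2 := by nlinarith [sq_nonneg (2 * ‖Λ (D l)‖ - 5 * θ)]
  have hbes : ∑ l, ‖Λ (D l)‖ ^ 2 ≤ Dn p κ κ' ξ := by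
    have h1 : ∀ l, Λ (D l) = ∑ i, g l i •
        (if i ∈ A then (0 : EuclideanSpace ℝ (Fin L)) else Real.sqrt (p i) • Λ (d i)) := by
      intro l
      show Λ (∑ i, (p i * a l i) • d i) = _
      rw [map_sum]
      refine Finset.sum_congr rfl fun i _ => ?_
      rw [map_smul]
      by_cases hi : i ∈ A
      · simp [a, hi]
      · simp only [a, hi, if_false]
        rw [hgt, smul_smul, mul_comm]
    rw [Finset.sum_congr rfl fun l _ => by rw [h1 l]]
    refine (aux_W4_bessel g hg _).trans ?_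
    unfold Dn
    refine Finset.sum_le_sum fun i _ => ?_
    by_cases hi : i ∈ A
    · simp only [hi, if_true, norm_zero]
      rw [zero_pow two_ne_zero]
      exact mul_nonneg (hp i).le (sq_nonneg _)
    · simp only [hi, if_false]
      rw [norm_smul, Real.norm_eq_abs, abs_of_pos (hs i), mul_pow, sq, hss]
      refine mul_le_mul_of_nonneg_left ?_ (hp i).le
      exact pow_le_pow_left₀ (norm_nonneg _) (hΛ _) 2
  calc ∑ l, ‖W l‖ ^ 2 ≤ ∑ l, (8 * ‖Λ (D l)‖ ^ 2 + 50 * θ ^ 2) := Finset.sum_le_sum fun l _ => hsq l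
    _ = 8 * ∑ l, ‖Λ (D l)‖ ^ 2 + 50 * M * θ ^ 2 := by
        rw [Finset.sum_add_distrib, ← Finset.mul_sum, Finset.sum_const, Finset.card_univ,
          Fintype.card_fin, nsmul_eq_mul]
        ring
    _ ≤ 8 * Dn p κ κ' ξ + 50 * M * θ ^ 2 := by linarith

end W4

end MW4

section MW5

open Finset Module


section W
variable {X : Type*} [NormedAddCommGroup X] [NormedSpace ℝ X]

theorem aux_W5_norm {m : ℕ} (p : Fin m → ℝ) (hp : ∀ i, 0 < p i) (hp1 : ∑ i, p i ≤ 1)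
    (ξ : Fin m → X) (hξ : ∀ i, ‖ξ i‖ ≤ 1) (h : EuclideanSpace ℝ (Fin m)) :
    ‖syn (fun i => Real.sqrt (p i) • ξ i) h‖ ≤ ‖h‖ := by
  have h1 : ‖syn (fun i => Real.sqrt (p i) • ξ i) h‖ ≤ ∑ i, |h i| * Real.sqrt (p i) := by
    change ‖∑ i, h i • (Real.sqrt (p i) • ξ i)‖ ≤ _
    refine (norm_sum_le _ _).trans (Finset.sum_le_sum fun i _ => ?_)
    rw [norm_smul, norm_smul, Real.norm_eq_abs, Real.norm_eq_abs, abs_of_nonneg (Real.sqrt_nonneg _)]
    have := hξ i
    have h2 : 0 ≤ |h i| * Real.sqrt (p i) := by positivity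
    nlinarith
  have h2 : (∑ i, |h i| * Real.sqrt (p i)) ^ 2 ≤ (∑ i, |h i| ^ 2) * ∑ i, Real.sqrt (p i) ^ 2 :=
    Finset.sum_mul_sq_le_sq_mul_sq _ _ _
  have h3 : ∑ i, |h i| ^ 2 = ‖h‖ ^ 2 := by
    rw [EuclideanSpace.norm_sq_eq]
    simp
  have h4 : ∑ i, Real.sqrt (p i) ^ 2 ≤ 1 := by
    refine le_trans (le_of_eq (Finset.sum_congr rfl fun i _ => ?_)) hp1
    exact Real.sq_sqrt (hp i).le
  rw [h3] at h2
  have h5 : (∑ i, |h i| * Real.sqrt (p i)) ^ 2 ≤ ‖h‖ ^ 2 := by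
    nlinarith [sq_nonneg ‖h‖]
  have h6 : ∑ i, |h i| * Real.sqrt (p i) ≤ ‖h‖ := abs_le_of_sq_le_sq' h5 (norm_nonneg _) |>.2
  linarith

/-- W5: one window. -/
theorem window_step {q b : ℕ} {θ : ℝ} (hθ : 0 < θ) (hW : WinAt X q b θ)
    {m : ℕ} (p : Fin m → ℝ) (hp : ∀ i, 0 < p i) (hp1 : ∑ i, p i ≤ 1)
    (ξ : Fin m → X) (hξ : ∀ i, ‖ξ i‖ ≤ 1) (κ : Fin m → ℕ) (hκ : (univ.image κ).card ≤ q) :
    ∃ κ' : Fin m → ℕ, (∀ i j, κ' i = κ' j → κ i = κ j) ∧
      (univ.image κ').card ≤ (univ.image κ).card * RR b θ ∧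
      ∑ k ∈ Ico (2 * q) (2 * q + 2 * b), gel (syn fun i => Real.sqrt (p i) • ξ i) k ^ 2 ≤
        32 * Dn p κ κ' ξ + 400 * b * θ ^ 2 := by
  classical
  obtain ⟨π, hπ⟩ := hW
  set w := syn fun i => Real.sqrt (p i) • ξ i with hw
  -- class sums
  let cs : EuclideanSpace ℝ (Fin m) →ₗ[ℝ] ({c // c ∈ univ.image κ} → ℝ) :=
    { toFun := fun h c => ∑ i' with κ i' = (c : ℕ), Real.sqrt (p i') * h i'
      map_add' := by
        intro h k
        funext c
        simp only [PiLp.add_apply, Pi.add_apply, ← Finset.sum_add_distrib]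
        exact Finset.sum_congr rfl fun i _ => by ring
      map_smul' := by
        intro r h
        funext c
        simp only [PiLp.smul_apply, Pi.smul_apply, smul_eq_mul, RingHom.id_apply, Finset.mul_sum]
        exact Finset.sum_congr rfl fun i _ => by ring }
  let T : EuclideanSpace ℝ (Fin m) →ₗ[ℝ] ({c // c ∈ univ.image κ} → ℝ) × (Fin q → ℝ) :=
    cs.prod (π ∘ₗ w)
  have hcodim : m ≤ finrank ℝ (LinearMap.ker T) + 2 * q := by
    have h1 := LinearMap.finrank_range_add_finrank_ker T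
    have h2 : finrank ℝ (LinearMap.range T) ≤
        finrank ℝ (({c // c ∈ univ.image κ} → ℝ) × (Fin q → ℝ)) := Submodule.finrank_le _
    have h3 : finrank ℝ (({c // c ∈ univ.image κ} → ℝ) × (Fin q → ℝ)) =
        (univ.image κ).card + q := by
      rw [Module.finrank_prod, Module.finrank_fintype_fun_eq_card, Module.finrank_fintype_fun_eq_card,
        Fintype.card_coe, Fintype.card_fin]
    have h4 : finrank ℝ (EuclideanSpace ℝ (Fin m)) = m := by simp
    omega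
  obtain ⟨M', hM', g, hgo, hgN, hsum⟩ := greedy w (LinearMap.ker T) (2 * q) hcodim (2 * b)
  have hgT : ∀ j, cs (g j) = 0 ∧ π (w (g j)) = 0 := by
    intro j
    have := hgN j
    rw [LinearMap.mem_ker] at this
    exact ⟨congrArg Prod.fst this, congrArg Prod.snd this⟩
  have hnorm1 : ∀ j, ‖w (g j)‖ ≤ 1 := by
    intro j
    have := aux_W5_norm p hp hp1 ξ hξ (g j)
    rw [hgo.1 j] at this
    exact this
  obtain ⟨L, Λ, hΛ, hΛw⟩ := hπ M' hM' (fun j => w (g j)) (fun j => (hgT j).2) hnorm1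
  obtain ⟨κ', A, href, hcard, hA, hosc, hsmall⟩ := refine_colour p hp hp1 b θ hθ M' hM' g hgo κ
  refine ⟨κ', href, hcard, ?_⟩
  have hzero : ∀ l, ∀ i, ∑ i' with κ i' = κ i, Real.sqrt (p i') * g l i' = 0 := by
    intro l i
    have := congrFun (hgT l).1 ⟨κ i, Finset.mem_image_of_mem _ (Finset.mem_univ i)⟩
    exact this
  have hmain := main_estimate p hp hp1 ξ hξ θ hθ M' g hgo κ κ' href A hA hosc hsmall hzero Λ hΛ hΛw
  have hMb : (M' : ℝ) ≤ 2 * b := by exact_mod_cast hM'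
  have hth : 0 ≤ θ ^ 2 := sq_nonneg θ
  calc ∑ k ∈ Ico (2 * q) (2 * q + 2 * b), gel w k ^ 2 ≤ 4 * ∑ j, ‖w (g j)‖ ^ 2 := hsum
    _ ≤ 4 * (8 * Dn p κ κ' ξ + 50 * M' * θ ^ 2) := by linarith
    _ ≤ 32 * Dn p κ κ' ξ + 400 * b * θ ^ 2 := by nlinarith

end W

end MW5

section MW6

/-! W6: property (P) from windows. -/


open Finset Module


section W6
variable {X : Type*} [NormedAddCommGroup X] [NormedSpace ℝ X]

theorem aux_W6_gel_nonneg {m : ℕ} (w : EuclideanSpace ℝ (Fin m) →ₗ[ℝ] X) (k : ℕ) :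
    0 ≤ gel w k := by
  apply Real.sInf_nonneg
  rintro s ⟨hs, -⟩
  exact hs

theorem aux_W6_gel_le {m : ℕ} (w : EuclideanSpace ℝ (Fin m) →ₗ[ℝ] X) (k : ℕ) {s : ℝ} (hs : 0 ≤ s)
    (V : Submodule ℝ (EuclideanSpace ℝ (Fin m))) (hV : m ≤ finrank ℝ V + k)
    (h : ∀ v ∈ V, ‖w v‖ ≤ s * ‖v‖) : gel w k ≤ s := by
  apply csInf_le
  · exact ⟨0, fun r hr => hr.1⟩
  · exact ⟨hs, V, hV, h⟩

theorem aux_W6_gel_smul {m : ℕ} (w w' : EuclideanSpace ℝ (Fin m) →ₗ[ℝ] X) (k : ℕ) {r : ℝ}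
    (hr : 0 < r) (h : ∀ v, ‖w' v‖ ≤ r * ‖w v‖) : gel w' k ≤ r * gel w k := by
  rw [mul_comm, ← div_le_iff₀ hr]
  apply le_csInf
  · let W := LinearMap.toContinuousLinearMap w
    refine ⟨‖W‖, norm_nonneg _, ⊤, ?_, fun v _ => W.le_opNorm v⟩
    simp
  · rintro s ⟨hs, V, hV, hv⟩
    rw [div_le_iff₀ hr]
    refine aux_W6_gel_le w' k (by positivity) V hV fun v hvV => ?_
    have h1 := h v
    have h2 := hv v hvV
    nlinarith

theorem aux_W6_norm_syn {m : ℕ} (p : Fin m → ℝ) (hp : ∀ i, 0 < p i) (hp1 : ∑ i, p i ≤ 1)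
    (ξ : Fin m → X) (hξ : ∀ i, ‖ξ i‖ ≤ 1) (h : EuclideanSpace ℝ (Fin m)) :
    ‖syn (fun i => Real.sqrt (p i) • ξ i) h‖ ≤ 1 * ‖h‖ := by
  have h1 : ‖syn (fun i => Real.sqrt (p i) • ξ i) h‖ ≤ ∑ i, |h i| * Real.sqrt (p i) := by
    change ‖∑ i, h i • Real.sqrt (p i) • ξ i‖ ≤ _
    refine (norm_sum_le _ _).trans (Finset.sum_le_sum fun i _ => ?_)
    rw [norm_smul, norm_smul, Real.norm_eq_abs, Real.norm_eq_abs, abs_of_nonneg (Real.sqrt_nonneg _)]
    have := hξ i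
    have h2 : 0 ≤ |h i| * Real.sqrt (p i) := by positivity
    nlinarith
  have h2 : (∑ i, |h i| * Real.sqrt (p i)) ^ 2 ≤ ‖h‖ ^ 2 := by
    have hcs := Finset.sum_mul_sq_le_sq_mul_sq Finset.univ (fun i => |h i|)
      (fun i => Real.sqrt (p i))
    have h3 : ∑ i, |h i| ^ 2 = ‖h‖ ^ 2 := by
      rw [EuclideanSpace.norm_eq, Real.sq_sqrt (by positivity)]
      simp
    have h4 : ∑ i, Real.sqrt (p i) ^ 2 = ∑ i, p i :=
      Finset.sum_congr rfl fun i _ => Real.sq_sqrt (hp i).le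
    rw [h3, h4] at hcs
    have h5 : 0 ≤ ‖h‖ ^ 2 := by positivity
    nlinarith
  rw [one_mul]
  refine h1.trans (le_of_sq_le_sq h2 (norm_nonneg _))

theorem aux_W6_avg_norm {m : ℕ} (p : Fin m → ℝ) (hp : ∀ i, 0 < p i) (κ : Fin m → ℕ)
    (ξ : Fin m → X) (hξ : ∀ i, ‖ξ i‖ ≤ 1) (i : Fin m) : ‖avg p κ ξ i‖ ≤ 1 := by
  have hpos : 0 < ∑ i' with κ i' = κ i, p i' :=
    Finset.sum_pos (fun j _ => hp j) ⟨i, by simp⟩
  rw [avg, norm_smul, norm_inv, Real.norm_eq_abs, abs_of_pos hpos, inv_mul_le_iff₀ hpos, mul_one]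
  refine (norm_sum_le _ _).trans (Finset.sum_le_sum fun j _ => ?_)
  rw [norm_smul, Real.norm_eq_abs, abs_of_pos (hp j)]
  have := hξ j
  have := hp j
  nlinarith

theorem aux_W6_En_le {m : ℕ} (p : Fin m → ℝ) (hp : ∀ i, 0 < p i) (hp1 : ∑ i, p i ≤ 1)
    (κ : Fin m → ℕ) (ξ : Fin m → X) (hξ : ∀ i, ‖ξ i‖ ≤ 1) : En p κ ξ ≤ 1 := by
  refine le_trans (Finset.sum_le_sum fun i _ => ?_) hp1
  have h1 := aux_W6_avg_norm p hp κ ξ hξ i
  have h2 : ‖avg p κ ξ i‖ ^ 2 ≤ 1 := pow_le_one₀ (norm_nonneg _) h1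
  have := hp i
  nlinarith

theorem aux_W6_En_nonneg {m : ℕ} (p : Fin m → ℝ) (hp : ∀ i, 0 < p i)
    (κ : Fin m → ℕ) (ξ : Fin m → X) : 0 ≤ En p κ ξ :=
  Finset.sum_nonneg fun i _ => mul_nonneg (hp i).le (by positivity)

/-- iteration of the window step along `i0, i0 + 2, i0 + 4, ...` -/
theorem aux_W6_iter {c : ℝ} (hc : 0 < c) (hU : UC X c) (t : ℕ → ℕ) (θ : ℕ → ℝ)
    (ht0 : 1 ≤ t 0) (hθ : ∀ i, 0 < θ i) (hsum : ∀ i, t (i + 1) * θ i ^ 2 ≤ (1 / 4 : ℝ) ^ i)
    (hmono : ∀ i, t i < t (i + 1))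
    (hW : ∀ i, WinAt X (t i) (t (i + 1)) (θ i))
    (hG : ∀ i, t i * RR (t (i + 1)) (θ i) ≤ t (i + 2))
    {m : ℕ} (p : Fin m → ℝ) (hp : ∀ i, 0 < p i) (hp1 : ∑ i, p i ≤ 1)
    (ξ : Fin m → X) (hξ : ∀ i, ‖ξ i‖ ≤ 1) (i0 : ℕ) (J : ℕ) :
    ∃ κ : Fin m → ℕ, (univ.image κ).card ≤ t (i0 + 2 * J) ∧
      ∑ j ∈ range J, ∑ k ∈ Ico (2 * t (i0 + 2 * j)) (2 * t (i0 + 2 * j) + 2 * t (i0 + 2 * j + 1)),
        gel (syn fun i => Real.sqrt (p i) • ξ i) k ^ 2 ≤
        64 / c * En p κ ξ + 400 * ∑ j ∈ range J, (1 / 4 : ℝ) ^ j := by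
  induction J with
  | zero =>
    refine ⟨fun _ => 0, ?_, ?_⟩
    · have h1 : (univ.image (fun _ : Fin m => 0)).card ≤ 1 := by
        refine (Finset.card_le_card (t := {0}) ?_).trans (by simp)
        intro x hx
        simp only [Finset.mem_image] at hx
        obtain ⟨_, _, rfl⟩ := hx
        simp
      have h2 : t 0 ≤ t (i0 + 2 * 0) := (strictMono_nat_of_lt_succ hmono).monotone (by omega)
      omega
    · simp only [Finset.range_zero, Finset.sum_empty, mul_zero, add_zero]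
      have := aux_W6_En_nonneg p hp (fun _ => 0) ξ
      positivity
  | succ J ih =>
    obtain ⟨κ, hκ, hs⟩ := ih
    obtain ⟨κ', href, hcard, hwin⟩ := window_step (hθ (i0 + 2 * J)) (hW (i0 + 2 * J)) p hp hp1 ξ hξ
      κ hκ
    refine ⟨κ', ?_, ?_⟩
    · refine hcard.trans ((Nat.mul_le_mul_right _ hκ).trans ?_)
      exact hG (i0 + 2 * J)
    · rw [Finset.sum_range_succ, Finset.sum_range_succ]
      have hm := mart_step hc.le hU p hp ξ κ κ' href
      have h1 : 32 * Dn p κ κ' ξ ≤ 64 / c * (En p κ' ξ - En p κ ξ) := by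
        rw [div_mul_eq_mul_div, le_div_iff₀ hc]
        nlinarith
      have h2 : 400 * (t (i0 + 2 * J + 1) : ℝ) * θ (i0 + 2 * J) ^ 2 ≤ 400 * (1 / 4 : ℝ) ^ J := by
        have h3 := hsum (i0 + 2 * J)
        have h4 : (1 / 4 : ℝ) ^ (i0 + 2 * J) ≤ (1 / 4 : ℝ) ^ J :=
          pow_le_pow_of_le_one (by norm_num) (by norm_num) (by omega)
        nlinarith
      have h5 : 64 / c * (En p κ' ξ - En p κ ξ) = 64 / c * En p κ' ξ - 64 / c * En p κ ξ := by ring
      linarith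

theorem aux_W6_geom (J : ℕ) : ∑ j ∈ range J, (1 / 4 : ℝ) ^ j ≤ 4 / 3 := by
  have h : ∀ J, ∑ j ∈ range J, (1 / 4 : ℝ) ^ j = 4 / 3 - 4 / 3 * (1 / 4 : ℝ) ^ J := by
    intro J
    induction J with
    | zero => simp
    | succ J ih => rw [Finset.sum_range_succ, ih, pow_succ]; ring
  rw [h]
  have : (0 : ℝ) ≤ (1 / 4 : ℝ) ^ J := by positivity
  linarith

theorem aux_W6_split (f : ℕ → ℝ) (t : ℕ → ℕ) (hmono : ∀ i, t i < t (i + 1)) (J : ℕ) :
    ∑ k ∈ range (2 * t (2 * J)), f k = ∑ k ∈ range (2 * t 0), f k +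
      ∑ j ∈ range J, (∑ k ∈ Ico (2 * t (2 * j)) (2 * t (2 * j + 1)), f k +
        ∑ k ∈ Ico (2 * t (2 * j + 1)) (2 * t (2 * j + 2)), f k) := by
  induction J with
  | zero => simp
  | succ J ih =>
    rw [Finset.sum_range_succ, ← add_assoc, ← ih]
    have h1 := hmono (2 * J)
    have h2 : t (2 * J + 1) < t (2 * J + 2) := hmono (2 * J + 1)
    rw [← add_assoc, Finset.sum_range_add_sum_Ico _ (by omega),
      Finset.sum_range_add_sum_Ico _ (by omega)]
    rfl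

theorem aux_W6_core {c : ℝ} (hc : 0 < c) (hU : UC X c) (t : ℕ → ℕ) (θ : ℕ → ℝ)
    (ht0 : 1 ≤ t 0) (hθ : ∀ i, 0 < θ i) (hsum : ∀ i, t (i + 1) * θ i ^ 2 ≤ (1 / 4 : ℝ) ^ i)
    (hmono : ∀ i, t i < t (i + 1))
    (hW : ∀ i, WinAt X (t i) (t (i + 1)) (θ i))
    (hG : ∀ i, t i * RR (t (i + 1)) (θ i) ≤ t (i + 2))
    {m : ℕ} (p : Fin m → ℝ) (hp : ∀ i, 0 < p i) (hp1 : ∑ i, p i ≤ 1)
    (ξ : Fin m → X) (hξ : ∀ i, ‖ξ i‖ ≤ 1) (K : ℕ) :
    ∑ k ∈ range K, gel (syn fun i => Real.sqrt (p i) • ξ i) k ^ 2 ≤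
      2 * t 0 + 2 * (64 / c + 1600 / 3) := by
  set f : ℕ → ℝ := fun k => gel (syn fun i => Real.sqrt (p i) • ξ i) k ^ 2 with hf
  have hf0 : ∀ k, 0 ≤ f k := fun k => by positivity
  have hf1 : ∀ k, f k ≤ 1 := by
    intro k
    have h1 : gel (syn fun i => Real.sqrt (p i) • ξ i) k ≤ 1 := by
      refine aux_W6_gel_le _ k zero_le_one ⊤ (by simp) fun v _ => ?_
      exact aux_W6_norm_syn p hp hp1 ξ hξ v
    exact pow_le_one₀ (aux_W6_gel_nonneg _ _) h1
  have hK : K ≤ 2 * t (2 * K) := by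
    have := (strictMono_nat_of_lt_succ hmono).id_le (2 * K)
    simp only [id] at this
    omega
  have hiter : ∀ i0, ∑ j ∈ range K, ∑ k ∈ Ico (2 * t (i0 + 2 * j)) (2 * t (i0 + 2 * j + 1)), f k ≤
      64 / c + 1600 / 3 := by
    intro i0
    obtain ⟨κ, -, h⟩ := aux_W6_iter hc hU t θ ht0 hθ hsum hmono hW hG p hp hp1 ξ hξ i0 K
    have h1 : ∑ j ∈ range K, ∑ k ∈ Ico (2 * t (i0 + 2 * j)) (2 * t (i0 + 2 * j + 1)), f k ≤
        ∑ j ∈ range K, ∑ k ∈ Ico (2 * t (i0 + 2 * j))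
          (2 * t (i0 + 2 * j) + 2 * t (i0 + 2 * j + 1)), f k := by
      refine Finset.sum_le_sum fun j _ => ?_
      refine Finset.sum_le_sum_of_subset_of_nonneg ?_ (fun k _ _ => hf0 k)
      exact Finset.Ico_subset_Ico le_rfl (by omega)
    have h2 := aux_W6_En_le p hp hp1 κ ξ hξ
    have h3 := aux_W6_geom K
    have h4 : 64 / c * En p κ ξ ≤ 64 / c := by
      have : 0 ≤ 64 / c := by positivity
      nlinarith
    linarith
  have h1 : ∑ k ∈ range K, f k ≤ ∑ k ∈ range (2 * t (2 * K)), f k :=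
    Finset.sum_le_sum_of_subset_of_nonneg (Finset.range_mono hK) (fun k _ _ => hf0 k)
  rw [aux_W6_split f t hmono K, Finset.sum_add_distrib] at h1
  have h2 : ∑ k ∈ range (2 * t 0), f k ≤ 2 * t 0 := by
    refine (Finset.sum_le_sum fun k _ => hf1 k).trans ?_
    simp
  have h3 := hiter 0
  have h4 := hiter 1
  have e3 : ∑ j ∈ range K, ∑ k ∈ Ico (2 * t (0 + 2 * j)) (2 * t (0 + 2 * j + 1)), f k =
      ∑ j ∈ range K, ∑ k ∈ Ico (2 * t (2 * j)) (2 * t (2 * j + 1)), f k := by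
    simp only [Nat.zero_add]
  have e4 : ∑ j ∈ range K, ∑ k ∈ Ico (2 * t (1 + 2 * j)) (2 * t (1 + 2 * j + 1)), f k =
      ∑ j ∈ range K, ∑ k ∈ Ico (2 * t (2 * j + 1)) (2 * t (2 * j + 2)), f k := by
    refine Finset.sum_congr rfl fun j _ => ?_
    rw [Nat.add_comm 1 (2 * j)]
  rw [e3] at h3
  rw [e4] at h4
  linarith

/-- W6: property (P) from windows. -/
theorem propP_of_windows {c : ℝ} (hc : 0 < c) (hU : UC X c) (t : ℕ → ℕ) (θ : ℕ → ℝ)
    (ht0 : 1 ≤ t 0) (hθ : ∀ i, 0 < θ i) (hsum : ∀ i, t (i + 1) * θ i ^ 2 ≤ (1 / 4 : ℝ) ^ i)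
    (hmono : ∀ i, t i < t (i + 1))
    (hW : ∀ i, WinAt X (t i) (t (i + 1)) (θ i))
    (hG : ∀ i, t i * RR (t (i + 1)) (θ i) ≤ t (i + 2)) : ∃ C : ℝ, PropP X C := by
  refine ⟨2 * (2 * t 0 + 2 * (64 / c + 1600 / 3)), ?_⟩
  intro m x hx K
  rcases Nat.eq_zero_or_pos m with hm | hm
  · subst hm
    have h0 : ∀ k, gel (syn x) k ^ 2 ≤ 0 := by
      intro k
      have h1 : gel (syn x) k ≤ 0 := by
        refine aux_W6_gel_le _ k le_rfl ⊤ (by simp) fun v _ => ?_
        have : syn x v = 0 := by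
          change ∑ i, v i • x i = 0
          simp
        rw [this]; simp
      have h2 := aux_W6_gel_nonneg (syn x) k
      have h3 : gel (syn x) k = 0 := le_antisymm h1 h2
      rw [h3]; simp
    refine (Finset.sum_nonpos fun k _ => h0 k).trans ?_
    positivity
  · have hm' : (0 : ℝ) < m := by exact_mod_cast hm
    set p : Fin m → ℝ := fun i => (‖x i‖ ^ 2 + 1 / m) / 2 with hpdef
    have hp : ∀ i, 0 < p i := fun i => by
      have : (0 : ℝ) < 1 / m := by positivity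
      have h2 : 0 ≤ ‖x i‖ ^ 2 := by positivity
      simp only [hpdef]
      linarith
    have hp1 : ∑ i, p i ≤ 1 := by
      simp only [hpdef]
      rw [← Finset.sum_div, Finset.sum_add_distrib]
      have : ∑ _i : Fin m, (1 / m : ℝ) = 1 := by
        rw [Finset.sum_const, Finset.card_univ, Fintype.card_fin, nsmul_eq_mul]
        field_simp
      rw [this]
      linarith
    set ξ : Fin m → X := fun i => (Real.sqrt 2 * Real.sqrt (p i))⁻¹ • x i with hξdef
    have hξ : ∀ i, ‖ξ i‖ ≤ 1 := by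
      intro i
      have hs : 0 < Real.sqrt 2 * Real.sqrt (p i) :=
        mul_pos (Real.sqrt_pos.2 (by norm_num)) (Real.sqrt_pos.2 (hp i))
      simp only [hξdef]
      rw [norm_smul, norm_inv, Real.norm_eq_abs, abs_of_pos hs, inv_mul_le_iff₀ hs, mul_one,
        ← Real.sqrt_mul (by norm_num)]
      apply Real.le_sqrt_of_sq_le
      simp only [hpdef]
      have : (0 : ℝ) < 1 / m := by positivity
      linarith
    have hcore := aux_W6_core hc hU t θ ht0 hθ hsum hmono hW hG p hp hp1 ξ hξ K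
    have hgel : ∀ k, gel (syn x) k ^ 2 ≤
        2 * gel (syn fun i => Real.sqrt (p i) • ξ i) k ^ 2 := by
      intro k
      have h1 : gel (syn x) k ≤ Real.sqrt 2 * gel (syn fun i => Real.sqrt (p i) • ξ i) k := by
        refine aux_W6_gel_smul _ _ k (Real.sqrt_pos.2 (by norm_num)) fun v => ?_
        have h2 : syn x v = Real.sqrt 2 • syn (fun i => Real.sqrt (p i) • ξ i) v := by
          change ∑ i, v i • x i = Real.sqrt 2 • ∑ i, v i • Real.sqrt (p i) • ξ i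
          rw [Finset.smul_sum]
          refine Finset.sum_congr rfl fun i _ => ?_
          simp only [hξdef, smul_smul]
          congr 1
          have hs1 : Real.sqrt 2 ≠ 0 := (Real.sqrt_pos.2 (by norm_num)).ne'
          have hs2 : Real.sqrt (p i) ≠ 0 := (Real.sqrt_pos.2 (hp i)).ne'
          field_simp
        rw [h2, norm_smul, Real.norm_eq_abs, abs_of_nonneg (Real.sqrt_nonneg _)]
      have h2 := aux_W6_gel_nonneg (syn x) k
      have h3 := pow_le_pow_left₀ h2 h1 2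
      rwa [mul_pow, Real.sq_sqrt (by norm_num)] at h3
    calc ∑ k ∈ range K, gel (syn x) k ^ 2
        ≤ ∑ k ∈ range K, 2 * gel (syn fun i => Real.sqrt (p i) • ξ i) k ^ 2 :=
          Finset.sum_le_sum fun k _ => hgel k
      _ = 2 * ∑ k ∈ range K, gel (syn fun i => Real.sqrt (p i) • ξ i) k ^ 2 := by
          rw [Finset.mul_sum]
      _ ≤ _ := by linarith

end W6

end MW6

end H9.Beps
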