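import Pool.Agent.H9.Beps.Space
import Pool.Agent.H9.Beps.Window
import Pool.Agent.H9.Beps.Trace

/-!
# MP_975b05_an: the example
-/

set_option autoImplicit false

open Finset Module

namespace H9.Beps

section MF3

open Finset Module


/-- F3 -/
theorem XX_not_typeTwo {n N : ℕ → ℕ} (hn : ∀ m, ∃ I, ∀ i, I ≤ i → m < n i)
    {V : Type} [NormedAddCommGroup V] [Nontrivial V] [NormedSpace ℝ V] {X' : Type*}
    [NormedAddCommGroup X'] (ι : XX n N V →+ X') (hι : ∀ x, ‖ι x‖ = ‖x‖) : ¬ TypeTwo X' := by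
  classical
  rintro ⟨C, hC⟩
  obtain ⟨v, hv⟩ : ∃ v : V, ‖v‖ = 1 := exists_norm_eq V zero_le_one
  -- choose g with large mass
  obtain ⟨g, hg, S, hS⟩ := exists_big (n := n) (N := N) hn (max 1 (C ^ 2 + 1))
  set σ := ∑ j ∈ S, g j with hσ
  have hσ1 : 1 ≤ σ := (le_max_left _ _).trans hS
  have hσC : C ^ 2 + 1 ≤ σ := (le_max_right _ _).trans hS
  let e := S.equivFin.symm
  let y : Fin S.card → XX n N V := fun i => XX.mk (Finsupp.single (e i : ℕ) (Real.sqrt (g (e i)) • v))
  have hy : ∀ i, ‖y i‖ = Real.sqrt (g (e i)) := by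
    intro i
    rw [XX.norm_def]
    have : XX.absF (y i) = Finsupp.single (e i : ℕ) (Real.sqrt (g (e i))) := by
      ext k
      rw [XX.absF_apply]
      simp only [y, XX.fs_mk, Finsupp.single_apply]
      split_ifs
      · rw [norm_smul, hv, mul_one, Real.norm_eq_abs, abs_of_nonneg (Real.sqrt_nonneg _)]
      · exact norm_zero
    rw [this, NN_single, abs_of_nonneg (Real.sqrt_nonneg _)]
  have hsum : ∑ i, ‖ι (y i)‖ ^ 2 = σ := by
    have h1 : ∑ i, ‖ι (y i)‖ ^ 2 = ∑ i, g (e i) := by
      refine Finset.sum_congr rfl fun i _ => ?_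
      rw [hι, hy, Real.sq_sqrt (KK_nonneg hg _)]
    rw [h1, hσ, Equiv.sum_comp e (fun j : S => g j), Finset.sum_coe_sort]
  have hsigns : ∀ s : Fin S.card → Bool,
      σ ^ (3 / 4 : ℝ) ≤ ‖∑ i, (if s i then ι (y i) else - ι (y i))‖ := by
    intro s
    have h1 : ∑ i, (if s i then ι (y i) else - ι (y i)) = ι (∑ i, (if s i then y i else - y i)) := by
      rw [map_sum]
      refine Finset.sum_congr rfl fun i _ => ?_
      split_ifs
      · rfl
      · rw [map_neg]
    rw [h1, hι, XX.norm_def]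
    refine (NN_sqrt_lower hg S).trans (NN_mono ?_)
    intro k
    rw [XX.absF_apply]
    by_cases hk : k ∈ S
    · -- both sides equal sqrt (g k)
      have h2 : (∑ j ∈ S, Finsupp.single j (Real.sqrt (g j))) k = Real.sqrt (g k) := by
        rw [Finsupp.finsetSum_apply, Finset.sum_eq_single k]
        · simp
        · intro j _ hjk; rw [Finsupp.single_apply, if_neg hjk]
        · intro h; exact absurd hk h
      have h3 : ‖(∑ i, (if s i then y i else - y i)).fs k‖ = Real.sqrt (g k) := by
        have h4 : (∑ i, (if s i then y i else - y i)).fs k =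
            ∑ i, (if s i then y i else - y i).fs k := by
          have : ∀ T : Finset (Fin S.card), (∑ i ∈ T, (if s i then y i else - y i)).fs k =
              ∑ i ∈ T, (if s i then y i else - y i).fs k := by
            intro T
            induction T using Finset.induction_on with
            | empty => simp
            | insert a T ha ih => rw [Finset.sum_insert ha, Finset.sum_insert ha, XX.fs_add,
                Finsupp.add_apply, ih]
          exact this _
        rw [h4, Finset.sum_eq_single (S.equivFin ⟨k, hk⟩)]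
        · have h5 : (e (S.equivFin ⟨k, hk⟩) : ℕ) = k := by simp [e]
          split_ifs
          · simp only [y, XX.fs_mk]
            rw [h5, Finsupp.single_eq_same, norm_smul, hv, mul_one, Real.norm_eq_abs,
              abs_of_nonneg (Real.sqrt_nonneg _)]
          · simp only [y, XX.fs_neg, XX.fs_mk]
            rw [h5, Finsupp.neg_apply, Finsupp.single_eq_same, norm_neg, norm_smul, hv, mul_one,
              Real.norm_eq_abs, abs_of_nonneg (Real.sqrt_nonneg _)]
        · intro i _ hi
          have h5 : (e i : ℕ) ≠ k := by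
            intro h
            apply hi
            have : e i = ⟨k, hk⟩ := Subtype.ext h
            rw [← this]
            simp [e]
          split_ifs
          · simp only [y, XX.fs_mk]
            rw [Finsupp.single_apply, if_neg h5]
          · simp only [y, XX.fs_neg, XX.fs_mk]
            rw [Finsupp.neg_apply, Finsupp.single_apply, if_neg h5, neg_zero]
        · intro h; exact absurd (Finset.mem_univ _) h
      rw [h2, h3, abs_of_nonneg (Real.sqrt_nonneg _)]
    · have h2 : (∑ j ∈ S, Finsupp.single j (Real.sqrt (g j))) k = 0 := by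
        rw [Finsupp.finsetSum_apply]
        apply Finset.sum_eq_zero
        intro j hj
        rw [Finsupp.single_apply, if_neg]
        intro h; exact hk (h ▸ hj)
      rw [h2, abs_zero]
      positivity
  have h := hC S.card (fun i => ι (y i))
  rw [hsum] at h
  have h1 : σ ^ (3 / 2 : ℝ) * 2 ^ S.card ≤
      ∑ s : Fin S.card → Bool, ‖∑ i, (if s i then ι (y i) else - ι (y i))‖ ^ 2 := by
    have h2 : ∀ s ∈ (Finset.univ : Finset (Fin S.card → Bool)), σ ^ (3 / 2 : ℝ) ≤
        ‖∑ i, (if s i then ι (y i) else - ι (y i))‖ ^ 2 := by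
      intro s _
      have h3 : σ ^ (3 / 2 : ℝ) = (σ ^ (3 / 4 : ℝ)) ^ 2 := by
        rw [← Real.rpow_natCast, ← Real.rpow_mul (by linarith)]
        norm_num
      rw [h3]
      exact pow_le_pow_left₀ (by positivity) (hsigns s) 2
    have h4 := Finset.card_nsmul_le_sum _ _ _ h2
    rw [Finset.card_univ, Fintype.card_fun, Fintype.card_bool, Fintype.card_fin, nsmul_eq_mul] at h4
    push_cast at h4
    linarith
  have h2 : σ ^ (3 / 2 : ℝ) ≤ C * σ := by
    refine le_trans ?_ h
    rw [le_div_iff₀ (by positivity)]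
    exact h1
  have h3 : σ ^ (3 / 2 : ℝ) = σ * Real.sqrt σ := by
    rw [Real.sqrt_eq_rpow, ← Real.rpow_one_add' (by linarith) (by norm_num)]
    norm_num
  rw [h3] at h2
  have h4 : Real.sqrt σ ≤ C := by
    have : σ * Real.sqrt σ ≤ σ * C := by linarith
    exact le_of_mul_le_mul_left this (by linarith)
  have h5 : σ ≤ C ^ 2 := by
    have h6 := Real.sq_sqrt (show (0 : ℝ) ≤ σ by linarith)
    have h7 := Real.sqrt_nonneg σ
    nlinarith
  linarith

end MF3

section MF4

open Finset Module


noncomputable def aux_F4_s : ℕ → ℕ × ℕ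
  | 0 => (1, 2)
  | i + 1 => ((aux_F4_s i).2, (aux_F4_s i).2 + 1 +
      (aux_F4_s i).1 * RR (aux_F4_s i).2 (1 / (2 ^ i * (((aux_F4_s i).2 : ℝ) + 1))))

noncomputable def aux_F4_t (i : ℕ) : ℕ := (aux_F4_s i).1

noncomputable def aux_F4_θ (i : ℕ) : ℝ := 1 / (2 ^ i * ((aux_F4_t (i + 1) : ℝ) + 1))

theorem aux_F4_snd (i : ℕ) : (aux_F4_s i).2 = aux_F4_t (i + 1) := by
  rw [aux_F4_t, aux_F4_s]

theorem aux_F4_rec (i : ℕ) : aux_F4_t (i + 2) =
    aux_F4_t (i + 1) + 1 + aux_F4_t i * RR (aux_F4_t (i + 1)) (aux_F4_θ i) := by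
  rw [← aux_F4_snd (i + 1), aux_F4_s]
  simp only [aux_F4_snd, aux_F4_θ]
  rfl

theorem aux_F4_lt (i : ℕ) : aux_F4_t i < aux_F4_t (i + 1) := by
  cases i with
  | zero =>
    rw [← aux_F4_snd 0]
    simp [aux_F4_t, aux_F4_s]
  | succ i =>
    rw [aux_F4_rec i]
    omega

theorem aux_F4_ge (i : ℕ) : i + 1 ≤ aux_F4_t i := by
  induction i with
  | zero => simp [aux_F4_t, aux_F4_s]
  | succ i ih => have := aux_F4_lt i; omega

theorem aux_F4_θ_pos (i : ℕ) : 0 < aux_F4_θ i := by
  unfold aux_F4_θ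
  positivity

theorem exists_params (V : Type) [NormedAddCommGroup V] [InnerProductSpace ℝ V]
    [FiniteDimensional ℝ V] (hV : finrank ℝ V ≤ 2) :
    ∃ (n N : ℕ → ℕ) (C : ℝ), (∀ m, ∃ I, ∀ i, I ≤ i → m < n i) ∧ PropP (XX n N V) C := by
  choose K hK using fun i => XX_win V (aux_F4_t (i + 1)) (aux_F4_θ i) (aux_F4_θ_pos i)
  have hsum : ∀ i, (aux_F4_t (i + 1) : ℝ) * aux_F4_θ i ^ 2 ≤ (1 / 4 : ℝ) ^ i := by
    intro i
    have h1 : (0 : ℝ) ≤ aux_F4_t (i + 1) := Nat.cast_nonneg _
    unfold aux_F4_θ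
    have h2 : ((1 : ℝ) / 4) ^ i = 1 / ((2 : ℝ) ^ i) ^ 2 := by
      rw [← pow_mul, mul_comm i 2, pow_mul, div_pow, one_pow]
      norm_num
    rw [h2, div_pow, one_pow, mul_one_div, mul_pow, div_le_div_iff₀ (by positivity) (by positivity),
      one_mul, mul_comm]
    refine mul_le_mul_of_nonneg_left ?_ (by positivity)
    nlinarith
  obtain ⟨C, hC⟩ : ∃ C : ℝ, PropP (XX (fun i => aux_F4_t i / 2) K V) C := by
    refine propP_of_windows (c := 1 / 3)
      (by norm_num) XX_UC aux_F4_t aux_F4_θ (aux_F4_ge 0) aux_F4_θ_pos hsum aux_F4_lt ?_ ?_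
    · intro i
      refine hK i _ _ i _ le_rfl ?_
      change finrank ℝ V * (aux_F4_t i / 2) ≤ aux_F4_t i
      calc finrank ℝ V * (aux_F4_t i / 2) ≤ 2 * (aux_F4_t i / 2) := Nat.mul_le_mul_right _ hV
        _ ≤ aux_F4_t i := Nat.mul_div_le _ _
    · intro i
      rw [aux_F4_rec i]
      omega
  refine ⟨fun i => aux_F4_t i / 2, K, C, ?_, hC⟩
  intro m
  refine ⟨2 * m + 2, fun i hi => ?_⟩
  have := aux_F4_ge i
  change m < aux_F4_t i / 2
  omega

end MF4

theorem final_real : ∃ (X : Type) (_ : NormedAddCommGroup X) (_ : NormedSpace ℝ X)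
    (_ : CompleteSpace X), BEPS ℝ X ∧ ¬ TypeTwo X := by
  obtain ⟨n, N, C, hn, hP⟩ := exists_params ℝ (by simp)
  refine ⟨UniformSpace.Completion (XX n N ℝ), inferInstance, inferInstance, inferInstance, ?_, ?_⟩
  · obtain ⟨C', hC'⟩ := propP_of_dense
      (UniformSpace.Completion.toComplₗᵢ : XX n N ℝ →ₗᵢ[ℝ] UniformSpace.Completion (XX n N ℝ))
      UniformSpace.Completion.denseRange_coe hP
    intro Y _ B
    exact extend_of_propP hC' Y B
  · exact XX_not_typeTwo hn
      (UniformSpace.Completion.toComplₗᵢ : XX n N ℝ →ₗᵢ[ℝ] UniformSpace.Completion (XX n N ℝ)).toLinearMap.toAddMonoidHom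
      (fun x => UniformSpace.Completion.norm_coe x)

theorem final_complex : ∃ (X : Type) (_ : NormedAddCommGroup X) (_ : NormedSpace ℂ X)
    (_ : CompleteSpace X), BEPS ℂ X ∧ ¬ TypeTwo X := by
  obtain ⟨n, N, C, hn, hP⟩ := exists_params ℂ (by simp)
  refine ⟨UniformSpace.Completion (XX n N ℂ), inferInstance, inferInstance, inferInstance, ?_, ?_⟩
  · have hr : ∀ (r : ℝ) (x : XX n N ℂ), ((r • x : XX n N ℂ) : UniformSpace.Completion (XX n N ℂ)) =
        r • (x : UniformSpace.Completion (XX n N ℂ)) := by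
      intro r x
      have h1 : r • (x : UniformSpace.Completion (XX n N ℂ)) =
          (r : ℂ) • (x : UniformSpace.Completion (XX n N ℂ)) := rfl
      rw [h1, ← UniformSpace.Completion.coe_smul]
      congr 1
    obtain ⟨C', hC'⟩ := propP_of_dense
      (X' := UniformSpace.Completion (XX n N ℂ))
      { toFun := fun x : XX n N ℂ => (x : UniformSpace.Completion (XX n N ℂ))
        map_add' := fun x y => UniformSpace.Completion.coe_add x y
        map_smul' := fun r x => hr r x
        norm_map' := fun x => UniformSpace.Completion.norm_coe x }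
      UniformSpace.Completion.denseRange_coe hP
    exact beps_complex (fun Y B => extend_of_propP hC' Y B)
  · exact XX_not_typeTwo hn
      (UniformSpace.Completion.toComplₗᵢ : XX n N ℂ →ₗᵢ[ℂ] UniformSpace.Completion (XX n N ℂ)).toLinearMap.toAddMonoidHom
      (fun x => UniformSpace.Completion.norm_coe x)


end H9.Beps
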