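import Pool.Agent.H9.Beps.Core

/-!
# MP_975b05_an: the lattice norm
-/

set_option autoImplicit false

open Finset Module

namespace H9.Beps

section MN1

open Finset Module


section N
variable {n N : ℕ → ℕ}

theorem NN_mono {a b : ℕ →₀ ℝ} (h : ∀ j, |a j| ≤ |b j|) : NN n N a ≤ NN n N b := by
  apply NN_le (NN_nonneg b)
  intro g hg
  refine le_trans ?_ (PP_le_NN hg b)
  rw [PP_eq_sum g a (S := a.support ∪ b.support) Finset.subset_union_left,
    PP_eq_sum g b (S := a.support ∪ b.support) Finset.subset_union_right]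
  apply Finset.sum_le_sum
  intro j _
  have := KK_nonneg hg j
  have h1 : |a j| ^ (4 / 3 : ℝ) ≤ |b j| ^ (4 / 3 : ℝ) :=
    Real.rpow_le_rpow (abs_nonneg _) (h j) (by norm_num)
  have h2 : 0 ≤ g j ^ (1 / 3 : ℝ) := by positivity
  nlinarith

theorem aux_N1_PP_smul (g : ℕ → ℝ) (r : ℝ) (a : ℕ →₀ ℝ) :
    PP g (r • a) = |r| ^ (4 / 3 : ℝ) * PP g a := by
  rw [PP_eq_sum g (r • a) (S := a.support) Finsupp.support_smul, PP_eq_sum g a (Finset.Subset.refl _),
    Finset.mul_sum]
  refine Finset.sum_congr rfl fun j _ => ?_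
  rw [Finsupp.smul_apply, smul_eq_mul, abs_mul, Real.mul_rpow (abs_nonneg _) (abs_nonneg _)]
  ring

theorem aux_N1_smul_le (r : ℝ) (a : ℕ →₀ ℝ) : NN n N (r • a) ≤ |r| * NN n N a := by
  apply NN_le (mul_nonneg (abs_nonneg _) (NN_nonneg a))
  intro g hg
  rw [aux_N1_PP_smul, Real.mul_rpow (abs_nonneg _) (NN_nonneg a)]
  exact mul_le_mul_of_nonneg_left (PP_le_NN hg a) (by positivity)

theorem NN_smul (r : ℝ) (a : ℕ →₀ ℝ) : NN n N (r • a) = |r| * NN n N a := by
  apply le_antisymm (aux_N1_smul_le r a)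
  rcases eq_or_ne r 0 with hr | hr
  · rw [hr, abs_zero, zero_mul]
    exact NN_nonneg _
  · have h := aux_N1_smul_le (n := n) (N := N) r⁻¹ (r • a)
    rw [smul_smul, inv_mul_cancel₀ hr, one_smul, abs_inv] at h
    have h1 : 0 < |r| := abs_pos.mpr hr
    calc |r| * NN n N a ≤ |r| * (|r|⁻¹ * NN n N (r • a)) := by gcongr
      _ = NN n N (r • a) := by field_simp

theorem NN_add_le (a b : ℕ →₀ ℝ) : NN n N (a + b) ≤ NN n N a + NN n N b := by
  apply NN_le (add_nonneg (NN_nonneg a) (NN_nonneg b))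
  intro g hg
  set S := a.support ∪ b.support with hS
  have hab : (a + b).support ⊆ S := Finsupp.support_add
  have hkey : ∀ c : ℕ →₀ ℝ, c.support ⊆ S →
      PP g c = ∑ j ∈ S, |g j ^ (1 / 4 : ℝ) * c j| ^ (4 / 3 : ℝ) := by
    intro c hc
    rw [PP_eq_sum g c hc]
    refine Finset.sum_congr rfl fun j _ => ?_
    have h0 := KK_nonneg hg j
    rw [abs_mul, abs_of_nonneg (show 0 ≤ g j ^ (1 / 4 : ℝ) by positivity),
      Real.mul_rpow (by positivity) (abs_nonneg _), ← Real.rpow_mul h0]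
    norm_num
  have hL := Real.Lp_add_le S (fun j => g j ^ (1 / 4 : ℝ) * a j) (fun j => g j ^ (1 / 4 : ℝ) * b j)
    (p := 4 / 3) (by norm_num)
  have h1 : ∑ j ∈ S, |g j ^ (1 / 4 : ℝ) * a j + g j ^ (1 / 4 : ℝ) * b j| ^ (4 / 3 : ℝ) =
      PP g (a + b) := by
    rw [hkey (a + b) hab]
    refine Finset.sum_congr rfl fun j _ => ?_
    rw [Finsupp.add_apply, mul_add]
  rw [h1, ← hkey a Finset.subset_union_left, ← hkey b Finset.subset_union_right] at hL
  have h2 : ∀ c : ℕ →₀ ℝ, PP g c ^ (1 / (4 / 3) : ℝ) ≤ NN n N c := by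
    intro c
    have h3 : PP g c ^ (1 / (4 / 3) : ℝ) ≤ (NN n N c ^ (4 / 3 : ℝ)) ^ (1 / (4 / 3) : ℝ) :=
      Real.rpow_le_rpow (PP_nonneg (KK_nonneg hg) c) (PP_le_NN hg c) (by norm_num)
    rw [← Real.rpow_mul (NN_nonneg c)] at h3
    norm_num at h3 ⊢
    exact h3
  have h4 : PP g (a + b) ^ (1 / (4 / 3) : ℝ) ≤ NN n N a + NN n N b :=
    hL.trans (add_le_add (h2 a) (h2 b))
  have h5 : (PP g (a + b) ^ (1 / (4 / 3) : ℝ)) ^ (4 / 3 : ℝ) ≤ (NN n N a + NN n N b) ^ (4 / 3 : ℝ) :=
    Real.rpow_le_rpow (Real.rpow_nonneg (PP_nonneg (KK_nonneg hg) _) _) h4 (by norm_num)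
  rw [← Real.rpow_mul (PP_nonneg (KK_nonneg hg) _)] at h5
  norm_num at h5 ⊢
  exact h5

theorem NN_single (j : ℕ) (r : ℝ) : NN n N (Finsupp.single j r) = |r| := by
  have hPP : ∀ g : ℕ → ℝ, PP g (Finsupp.single j r) = g j ^ (1 / 3 : ℝ) * |r| ^ (4 / 3 : ℝ) := by
    intro g
    rw [PP_eq_sum g _ (S := {j}) Finsupp.support_single_subset, Finset.sum_singleton,
      Finsupp.single_eq_same]
  apply le_antisymm
  · apply NN_le (abs_nonneg _)
    intro g hg
    rw [hPP]
    have h1 : g j ^ (1 / 3 : ℝ) ≤ 1 :=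
      Real.rpow_le_one (KK_nonneg hg j) (KK_le_one hg j) (by norm_num)
    have h2 : 0 ≤ |r| ^ (4 / 3 : ℝ) := by positivity
    nlinarith
  · have h := PP_le_NN (KK_single (n := n) (N := N) j) (Finsupp.single j r)
    rw [hPP] at h
    simp only [if_true, Real.one_rpow, one_mul] at h
    have h1 := Real.rpow_le_rpow (by positivity) h (show (0 : ℝ) ≤ 3 / 4 by norm_num)
    rw [← Real.rpow_mul (abs_nonneg _), ← Real.rpow_mul (NN_nonneg _)] at h1
    norm_num at h1
    exact h1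

end N

end MN1

section MN2

open Finset Module


section N
variable {n N : ℕ → ℕ}

theorem aux_N2_two (g1 g2 a b z s t : ℝ) (hg1 : 0 ≤ g1) (hg2 : 0 ≤ g2) (hs : 0 ≤ s) (ht : 0 ≤ t)
    (h : a ^ 2 + b ^ 2 ≤ z ^ 2) :
    s ^ (1 / 3 : ℝ) * (g1 ^ (1 / 3 : ℝ) * |a| ^ (4 / 3 : ℝ)) +
      t ^ (1 / 3 : ℝ) * (g2 ^ (1 / 3 : ℝ) * |b| ^ (4 / 3 : ℝ)) ≤
      (s * g1 + t * g2) ^ (1 / 3 : ℝ) * |z| ^ (4 / 3 : ℝ) := by
  have hH := holder_third (Finset.univ : Finset (Fin 2)) ![s * g1, t * g2] ![a ^ 2, b ^ 2]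
    (by intro i _; fin_cases i <;> simp <;> positivity)
    (by intro i _; fin_cases i <;> simp <;> positivity)
  simp only [Fin.sum_univ_two, Matrix.cons_val_zero, Matrix.cons_val_one] at hH
  have e1 : (s * g1) ^ (1 / 3 : ℝ) * (a ^ 2) ^ (2 / 3 : ℝ) =
      s ^ (1 / 3 : ℝ) * (g1 ^ (1 / 3 : ℝ) * |a| ^ (4 / 3 : ℝ)) := by
    rw [Real.mul_rpow hs hg1, ← sq_abs a, ← Real.rpow_natCast, ← Real.rpow_mul (abs_nonneg _)]
    norm_num
    ring
  have e2 : (t * g2) ^ (1 / 3 : ℝ) * (b ^ 2) ^ (2 / 3 : ℝ) =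
      t ^ (1 / 3 : ℝ) * (g2 ^ (1 / 3 : ℝ) * |b| ^ (4 / 3 : ℝ)) := by
    rw [Real.mul_rpow ht hg2, ← sq_abs b, ← Real.rpow_natCast, ← Real.rpow_mul (abs_nonneg _)]
    norm_num
    ring
  rw [e1, e2] at hH
  refine hH.trans ?_
  have e3 : (a ^ 2 + b ^ 2) ^ (2 / 3 : ℝ) ≤ |z| ^ (4 / 3 : ℝ) := by
    have h1 : (a ^ 2 + b ^ 2) ^ (2 / 3 : ℝ) ≤ (z ^ 2) ^ (2 / 3 : ℝ) :=
      Real.rpow_le_rpow (by positivity) h (by norm_num)
    refine h1.trans (le_of_eq ?_)
    rw [← sq_abs z, ← Real.rpow_natCast, ← Real.rpow_mul (abs_nonneg _)]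
    norm_num
  have h2 : 0 ≤ (s * g1 + t * g2) ^ (1 / 3 : ℝ) := by positivity
  exact mul_le_mul_of_nonneg_left e3 h2

theorem NN_concave {a b z : ℕ →₀ ℝ} (h : ∀ j, a j ^ 2 + b j ^ 2 ≤ z j ^ 2) :
    NN n N a ^ 2 + NN n N b ^ 2 ≤ NN n N z ^ 2 := by
  set α := NN n N a with hα
  set β := NN n N b with hβ
  have hα0 : 0 ≤ α := NN_nonneg a
  have hβ0 : 0 ≤ β := NN_nonneg b
  rcases eq_or_lt_of_le (show 0 ≤ α ^ 2 + β ^ 2 by positivity) with h0 | hpos
  · rw [← h0]; positivity
  set σ := α ^ 2 + β ^ 2 with hσ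
  set s := α ^ 2 / σ with hs
  set t := β ^ 2 / σ with ht
  have hs0 : 0 ≤ s := by positivity
  have ht0 : 0 ≤ t := by positivity
  have hst : s + t = 1 := by rw [hs, ht, ← add_div]; exact div_self hpos.ne'
  -- key inequality for fixed g1, g2
  have key : ∀ g1 ∈ KK n N, ∀ g2 ∈ KK n N,
      s ^ (1 / 3 : ℝ) * PP g1 a + t ^ (1 / 3 : ℝ) * PP g2 b ≤ QQ n N z := by
    intro g1 hg1 g2 hg2
    refine le_trans ?_ (PP_le_QQ (KK_convex hg1 hg2 hs0 ht0 hst) z)
    set S := a.support ∪ b.support ∪ z.support with hS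
    rw [PP_eq_sum g1 a (S := S) (by intro x hx; simp only [hS, Finset.mem_union]; tauto),
      PP_eq_sum g2 b (S := S) (by intro x hx; simp only [hS, Finset.mem_union]; tauto),
      PP_eq_sum _ z (S := S) (by intro x hx; simp only [hS, Finset.mem_union]; tauto),
      Finset.mul_sum, Finset.mul_sum, ← Finset.sum_add_distrib]
    apply Finset.sum_le_sum
    intro j _
    exact aux_N2_two (g1 j) (g2 j) (a j) (b j) (z j) s t (KK_nonneg hg1 j) (KK_nonneg hg2 j) hs0 ht0 (h j)
  -- sup over g1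
  have key1 : ∀ g2 ∈ KK n N, s ^ (1 / 3 : ℝ) * QQ n N a + t ^ (1 / 3 : ℝ) * PP g2 b ≤ QQ n N z := by
    intro g2 hg2
    rcases eq_or_lt_of_le (Real.rpow_nonneg hs0 (1 / 3 : ℝ)) with h0 | h0
    · rw [← h0, zero_mul]
      have := key _ KK_zero g2 hg2
      rw [← h0, zero_mul] at this
      exact this
    · have h1 : QQ n N a ≤ (QQ n N z - t ^ (1 / 3 : ℝ) * PP g2 b) / s ^ (1 / 3 : ℝ) := by
        apply QQ_le
        intro g1 hg1
        rw [le_div_iff₀ h0]
        have := key g1 hg1 g2 hg2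
        linarith
      rw [le_div_iff₀ h0] at h1
      linarith
  have key2 : s ^ (1 / 3 : ℝ) * QQ n N a + t ^ (1 / 3 : ℝ) * QQ n N b ≤ QQ n N z := by
    rcases eq_or_lt_of_le (Real.rpow_nonneg ht0 (1 / 3 : ℝ)) with h0 | h0
    · rw [← h0, zero_mul]
      have := key1 _ KK_zero
      rw [← h0, zero_mul] at this
      exact this
    · have h1 : QQ n N b ≤ (QQ n N z - s ^ (1 / 3 : ℝ) * QQ n N a) / t ^ (1 / 3 : ℝ) := by
        apply QQ_le
        intro g2 hg2
        rw [le_div_iff₀ h0]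
        have := key1 g2 hg2
        linarith
      rw [le_div_iff₀ h0] at h1
      linarith
  rw [QQ_eq_NN_rpow, QQ_eq_NN_rpow, QQ_eq_NN_rpow, ← hα, ← hβ] at key2
  -- left side equals σ^(2/3)
  have e1 : s ^ (1 / 3 : ℝ) * α ^ (4 / 3 : ℝ) = α ^ 2 / σ ^ (1 / 3 : ℝ) := by
    rw [hs, Real.div_rpow (by positivity) hpos.le, ← Real.rpow_natCast α 2, ← Real.rpow_mul hα0,
      div_mul_eq_mul_div]
    congr 1
    rcases eq_or_lt_of_le hα0 with h0 | h0
    · rw [← h0, Real.zero_rpow (by norm_num), Real.zero_rpow (by norm_num)]; norm_num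
    · rw [← Real.rpow_add h0]; norm_num
  have e2 : t ^ (1 / 3 : ℝ) * β ^ (4 / 3 : ℝ) = β ^ 2 / σ ^ (1 / 3 : ℝ) := by
    rw [ht, Real.div_rpow (by positivity) hpos.le, ← Real.rpow_natCast β 2, ← Real.rpow_mul hβ0,
      div_mul_eq_mul_div]
    congr 1
    rcases eq_or_lt_of_le hβ0 with h0 | h0
    · rw [← h0, Real.zero_rpow (by norm_num), Real.zero_rpow (by norm_num)]; norm_num
    · rw [← Real.rpow_add h0]; norm_num
  rw [e1, e2, ← add_div, ← hσ] at key2
  have e3 : σ / σ ^ (1 / 3 : ℝ) = σ ^ (2 / 3 : ℝ) := by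
    rw [div_eq_iff (by positivity), ← Real.rpow_add hpos]
    norm_num
  rw [e3] at key2
  have h1 := Real.rpow_le_rpow (by positivity) key2 (show (0 : ℝ) ≤ 3 / 2 by norm_num)
  rw [← Real.rpow_mul hpos.le, ← Real.rpow_mul (NN_nonneg z)] at h1
  norm_num at h1
  exact h1

theorem NN_pconvex {a b z : ℕ →₀ ℝ}
    (h : ∀ j, 2 * |z j| ^ (4 / 3 : ℝ) ≤ |a j| ^ (4 / 3 : ℝ) + |b j| ^ (4 / 3 : ℝ)) :
    2 * NN n N z ^ (4 / 3 : ℝ) ≤ NN n N a ^ (4 / 3 : ℝ) + NN n N b ^ (4 / 3 : ℝ) := by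
  rw [← QQ_eq_NN_rpow, ← QQ_eq_NN_rpow, ← QQ_eq_NN_rpow]
  have h1 : QQ n N z ≤ (QQ n N a + QQ n N b) / 2 := by
    apply QQ_le
    intro g hg
    have ha := PP_le_QQ hg a
    have hb := PP_le_QQ hg b
    set S := a.support ∪ b.support ∪ z.support with hS
    have h2 : 2 * PP g z ≤ PP g a + PP g b := by
      rw [PP_eq_sum g a (S := S) (by intro x hx; simp only [hS, Finset.mem_union]; tauto),
        PP_eq_sum g b (S := S) (by intro x hx; simp only [hS, Finset.mem_union]; tauto),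
        PP_eq_sum g z (S := S) (by intro x hx; simp only [hS, Finset.mem_union]; tauto),
        Finset.mul_sum, ← Finset.sum_add_distrib]
      apply Finset.sum_le_sum
      intro j _
      have h3 := h j
      have h4 : 0 ≤ g j ^ (1 / 3 : ℝ) := Real.rpow_nonneg (KK_nonneg hg j) _
      nlinarith
    linarith
  linarith

theorem NN_lower {L : ℕ} (a : ℕ →₀ ℝ) (κ : ℕ → Fin L) :
    ∑ c, NN n N (a.filter fun j => κ j = c) ^ 2 ≤ NN n N a ^ 2 := by
  classical
  have key : ∀ T : Finset (Fin L),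
      ∑ c ∈ T, NN n N (a.filter fun j => κ j = c) ^ 2 ≤ NN n N (a.filter fun j => κ j ∈ T) ^ 2 := by
    intro T
    induction T using Finset.induction_on with
    | empty => simp only [Finset.sum_empty]; positivity
    | insert c T hc ih =>
      rw [Finset.sum_insert hc]
      have h1 : NN n N (a.filter fun j => κ j = c) ^ 2 + NN n N (a.filter fun j => κ j ∈ T) ^ 2 ≤
          NN n N (a.filter fun j => κ j ∈ insert c T) ^ 2 := by
        apply NN_concave
        intro j
        rw [Finsupp.filter_apply, Finsupp.filter_apply, Finsupp.filter_apply]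
        by_cases h2 : κ j = c
        · have h3 : κ j ∉ T := by rw [h2]; exact hc
          rw [if_pos h2, if_neg h3, if_pos (by rw [Finset.mem_insert]; exact Or.inl h2)]
          simp
        · by_cases h3 : κ j ∈ T
          · rw [if_neg h2, if_pos h3, if_pos (by rw [Finset.mem_insert]; exact Or.inr h3)]
            simp
          · rw [if_neg h2, if_neg h3, if_neg (by rw [Finset.mem_insert]; tauto)]
            simp
      linarith
  have h := key Finset.univ
  have h1 : (a.filter fun j => κ j ∈ (Finset.univ : Finset (Fin L))) = a := by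
    ext j
    rw [Finsupp.filter_apply, if_pos (Finset.mem_univ _)]
  rw [h1] at h
  exact h

end N

end MN2

section MN3

open Finset Module


section N
variable {n N : ℕ → ℕ}

/-- gauge of `KK` on a finite set -/
noncomputable def aux_N3_r (n N : ℕ → ℕ) (g : ℕ → ℝ) (A : Finset ℕ) : ℝ :=
  sSup ((fun f : ℕ → ℝ => ∑ j ∈ A, f j * g j) '' {f | Tree n N f})

theorem aux_N3_bdd {g : ℕ → ℝ} (hg : ∀ j, 0 ≤ g j) (A : Finset ℕ) :
    BddAbove ((fun f : ℕ → ℝ => ∑ j ∈ A, f j * g j) '' {f | Tree n N f}) := by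
  refine ⟨∑ j ∈ A, g j, ?_⟩
  rintro _ ⟨f, hf, rfl⟩
  apply Finset.sum_le_sum
  intro j _
  have h1 := Tree.le_one hf j
  have h2 := hg j
  nlinarith

theorem aux_N3_le {g : ℕ → ℝ} (hg : ∀ j, 0 ≤ g j) (A : Finset ℕ) {f : ℕ → ℝ} (hf : Tree n N f) :
    ∑ j ∈ A, f j * g j ≤ aux_N3_r n N g A := le_csSup (aux_N3_bdd hg A) ⟨f, hf, rfl⟩

theorem aux_N3_nonneg {g : ℕ → ℝ} (hg : ∀ j, 0 ≤ g j) (A : Finset ℕ) : 0 ≤ aux_N3_r n N g A := by
  refine le_trans ?_ (aux_N3_le hg A (Tree.single 0))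
  apply Finset.sum_nonneg
  intro j _
  exact mul_nonneg ((Tree.single (n := n) (N := N) 0).nonneg j) (hg j)

theorem aux_N3_piece {g : ℕ → ℝ} (hg : ∀ j, 0 ≤ g j) (b : ℕ →₀ ℝ) :
    PP g b ≤ aux_N3_r n N g b.support ^ (1 / 3 : ℝ) * NN n N b ^ (4 / 3 : ℝ) := by
  rcases eq_or_lt_of_le (aux_N3_nonneg (n := n) (N := N) hg b.support) with h0 | hpos
  · have hz : ∀ j ∈ b.support, g j = 0 := by
      intro j hj
      have h1 := aux_N3_le (n := n) (N := N) hg b.support (Tree.single j)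
      rw [← h0] at h1
      have h2 : g j ≤ ∑ k ∈ b.support, (if k = j then (1 : ℝ) else 0) * g k := by
        have : ∑ k ∈ b.support, (if k = j then (1 : ℝ) else 0) * g k = g j := by
          rw [Finset.sum_eq_single j]
          · simp
          · intro k _ hk; rw [if_neg hk, zero_mul]
          · intro h; exact absurd hj h
        rw [this]
      exact le_antisymm (h2.trans h1) (hg j)
    have h1 : PP g b = 0 := by
      rw [PP_eq_sum g b (Finset.Subset.refl _)]
      apply Finset.sum_eq_zero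
      intro j hj
      rw [hz j hj, Real.zero_rpow (by norm_num), zero_mul]
    rw [h1]
    have := NN_nonneg (n := n) (N := N) b
    have := aux_N3_nonneg (n := n) (N := N) hg b.support
    positivity
  · set r := aux_N3_r n N g b.support with hr
    let g' : ℕ → ℝ := fun j => if j ∈ b.support then g j / r else 0
    have hg' : g' ∈ KK n N := by
      refine ⟨fun j => ?_, fun f hf S => ?_⟩
      · dsimp only [g']
        split_ifs
        · exact div_nonneg (hg j) hpos.le
        · exact le_rfl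
      · have h1 : ∑ j ∈ S, f j * g' j = (∑ j ∈ S with j ∈ b.support, f j * g j) / r := by
          rw [Finset.sum_filter, Finset.sum_div]
          refine Finset.sum_congr rfl fun j _ => ?_
          dsimp only [g']
          split_ifs
          · ring
          · simp
        rw [h1, div_le_one hpos]
        refine le_trans ?_ (aux_N3_le hg b.support hf)
        apply Finset.sum_le_sum_of_subset_of_nonneg
        · intro j hj; exact (Finset.mem_filter.mp hj).2
        · intro j _ _; exact mul_nonneg (hf.nonneg j) (hg j)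
    have h1 := PP_le_NN hg' b
    have h2 : PP g' b = PP g b / r ^ (1 / 3 : ℝ) := by
      rw [PP_eq_sum g' b (Finset.Subset.refl _), PP_eq_sum g b (Finset.Subset.refl _), Finset.sum_div]
      refine Finset.sum_congr rfl fun j hj => ?_
      dsimp only [g']
      rw [if_pos hj, Real.div_rpow (hg j) hpos.le]
      ring
    rw [h2, div_le_iff₀ (by positivity)] at h1
    linarith

theorem aux_N3_sum {g : ℕ → ℝ} (hg : g ∈ KK n N) (i : ℕ) (A : Fin (N i) → Finset ℕ)
    (hd : ∀ c c', c ≠ c' → Disjoint (A c) (A c')) (hA : ∀ c, ∀ j ∈ A c, n i ≤ j) :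
    ∑ c, aux_N3_r n N g (A c) ≤ 2 := by
  by_contra hcon
  push Not at hcon
  set ε := (∑ c, aux_N3_r n N g (A c) - 2) / (N i + 1) with hε
  have hε0 : 0 < ε := by
    rw [hε]
    apply div_pos (by linarith) (by positivity)
  have hch : ∀ c, ∃ f, Tree n N f ∧ aux_N3_r n N g (A c) - ε < ∑ j ∈ A c, f j * g j := by
    intro c
    obtain ⟨_, ⟨f, hf, rfl⟩, h⟩ := exists_lt_of_lt_csSup
      (s := (fun f : ℕ → ℝ => ∑ j ∈ A c, f j * g j) '' {f | Tree n N f})
      ⟨_, _, Tree.single 0, rfl⟩ (show aux_N3_r n N g (A c) - ε < sSup _ from by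
        change aux_N3_r n N g (A c) - ε < aux_N3_r n N g (A c); linarith)
    exact ⟨f, hf, h⟩
  choose f hf hfl using hch
  have h1 := KK_pieces hg i A hd hA f hf
  have h2 : ∑ c, (aux_N3_r n N g (A c) - ε) ≤ ∑ c, ∑ j ∈ A c, f c j * g j :=
    Finset.sum_le_sum fun c _ => (hfl c).le
  rw [Finset.sum_sub_distrib, Finset.sum_const, Finset.card_univ, Fintype.card_fin,
    nsmul_eq_mul] at h2
  have h3 : (N i + 1 : ℝ) * ε = ∑ c, aux_N3_r n N g (A c) - 2 := by
    rw [hε]; field_simp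
  nlinarith

theorem NN_upper (i : ℕ) (a : ℕ →₀ ℝ) (ha : ∀ j, a j ≠ 0 → n i ≤ j) (κ : ℕ → Fin (N i)) :
    NN n N a ^ 2 ≤ 2 * ∑ c, NN n N (a.filter fun j => κ j = c) ^ 2 := by
  classical
  set SS2 := ∑ c, NN n N (a.filter fun j => κ j = c) ^ 2 with hSS
  have hSS0 : 0 ≤ SS2 := Finset.sum_nonneg fun c _ => sq_nonneg _
  have hmain : NN n N a ≤ Real.sqrt (2 * SS2) := by
    apply NN_le (Real.sqrt_nonneg _)
    intro g hg
    have hg0 := KK_nonneg hg
    -- decomposition
    have h1 : PP g a = ∑ c, PP g (a.filter fun j => κ j = c) := by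
      have h2 : ∀ c, PP g (a.filter fun j => κ j = c) =
          ∑ j ∈ a.support, if κ j = c then g j ^ (1 / 3 : ℝ) * |a j| ^ (4 / 3 : ℝ) else 0 := by
        intro c
        rw [PP_eq_sum g _ (S := a.support) (by
          intro x hx
          rw [Finsupp.support_filter] at hx
          exact (Finset.mem_filter.mp hx).1)]
        refine Finset.sum_congr rfl fun j _ => ?_
        rw [Finsupp.filter_apply]
        split_ifs
        · rfl
        · rw [abs_zero, Real.zero_rpow (by norm_num), mul_zero]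
      rw [Finset.sum_congr rfl fun c _ => h2 c, Finset.sum_comm, PP_eq_sum g a (Finset.Subset.refl _)]
      refine Finset.sum_congr rfl fun j _ => ?_
      rw [Finset.sum_ite_eq]
      simp
    set A : Fin (N i) → Finset ℕ := fun c => (a.filter fun j => κ j = c).support with hA
    have hmemA : ∀ c j, j ∈ A c ↔ j ∈ a.support ∧ κ j = c := by
      intro c j
      rw [hA]
      simp only [Finsupp.support_filter, Finset.mem_filter]
    have hd : ∀ c c', c ≠ c' → Disjoint (A c) (A c') := by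
      intro c c' hcc
      rw [Finset.disjoint_left]
      intro j hj hj'
      rw [hmemA] at hj hj'
      exact hcc (hj.2.symm.trans hj'.2)
    have hAn : ∀ c, ∀ j ∈ A c, n i ≤ j := by
      intro c j hj
      rw [hmemA] at hj
      exact ha j (Finsupp.mem_support_iff.mp hj.1)
    have hr := aux_N3_sum hg i A hd hAn
    have h3 : PP g a ≤ ∑ c, aux_N3_r n N g (A c) ^ (1 / 3 : ℝ) *
        (NN n N (a.filter fun j => κ j = c) ^ 2) ^ (2 / 3 : ℝ) := by
      rw [h1]
      apply Finset.sum_le_sum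
      intro c _
      refine (aux_N3_piece (n := n) (N := N) hg0 (a.filter fun j => κ j = c)).trans (le_of_eq ?_)
      congr 1
      rw [← Real.rpow_natCast, ← Real.rpow_mul (NN_nonneg _)]
      norm_num
    have h4 := holder_third (Finset.univ : Finset (Fin (N i))) (fun c => aux_N3_r n N g (A c))
      (fun c => NN n N (a.filter fun j => κ j = c) ^ 2) (fun c _ => aux_N3_nonneg hg0 _)
      (fun c _ => sq_nonneg _)
    have h5 : (∑ c, aux_N3_r n N g (A c)) ^ (1 / 3 : ℝ) ≤ 2 ^ (2 / 3 : ℝ) := by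
      calc (∑ c, aux_N3_r n N g (A c)) ^ (1 / 3 : ℝ) ≤ 2 ^ (1 / 3 : ℝ) :=
            Real.rpow_le_rpow (Finset.sum_nonneg fun c _ => aux_N3_nonneg hg0 _) hr (by norm_num)
        _ ≤ 2 ^ (2 / 3 : ℝ) := Real.rpow_le_rpow_of_exponent_le (by norm_num) (by norm_num)
    have h6 : PP g a ≤ 2 ^ (2 / 3 : ℝ) * SS2 ^ (2 / 3 : ℝ) := by
      refine h3.trans (h4.trans ?_)
      exact mul_le_mul_of_nonneg_right h5 (Real.rpow_nonneg hSS0 _)
    refine h6.trans (le_of_eq ?_)
    rw [← Real.mul_rpow (by norm_num) hSS0, Real.sqrt_eq_rpow, ← Real.rpow_mul (by positivity)]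
    norm_num
  have h7 := NN_nonneg (n := n) (N := N) a
  have h8 : NN n N a ^ 2 ≤ Real.sqrt (2 * SS2) ^ 2 := pow_le_pow_left₀ h7 hmain 2
  have h9 : (0 : ℝ) ≤ 2 * SS2 := mul_nonneg (by norm_num) hSS0
  rw [Real.sq_sqrt h9] at h8
  exact h8

theorem NN_sqrt_lower {g : ℕ → ℝ} (hg : g ∈ KK n N) (S : Finset ℕ) :
    (∑ j ∈ S, g j) ^ (3 / 4 : ℝ) ≤ NN n N (∑ j ∈ S, Finsupp.single j (Real.sqrt (g j))) := by
  classical
  set a : ℕ →₀ ℝ := ∑ j ∈ S, Finsupp.single j (Real.sqrt (g j)) with ha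
  have haj : ∀ j ∈ S, a j = Real.sqrt (g j) := by
    intro j hj
    rw [ha, Finsupp.finsetSum_apply, Finset.sum_eq_single j]
    · simp
    · intro k _ hk; rw [Finsupp.single_apply, if_neg hk]
    · intro h; exact absurd hj h
  have hsupp : a.support ⊆ S := by
    intro j hj
    by_contra hjS
    apply Finsupp.mem_support_iff.mp hj
    rw [ha, Finsupp.finsetSum_apply]
    apply Finset.sum_eq_zero
    intro k hk
    rw [Finsupp.single_apply, if_neg]
    rintro rfl
    exact hjS hk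
  have h1 : PP g a = ∑ j ∈ S, g j := by
    rw [PP_eq_sum g a hsupp]
    refine Finset.sum_congr rfl fun j hj => ?_
    have h0 := KK_nonneg hg j
    rw [haj j hj, abs_of_nonneg (Real.sqrt_nonneg _), Real.sqrt_eq_rpow, ← Real.rpow_mul h0]
    rcases eq_or_lt_of_le h0 with h2 | h2
    · rw [← h2, Real.zero_rpow (by norm_num), zero_mul]
    · rw [← Real.rpow_add h2]
      norm_num
  have h2 := PP_le_NN hg a
  rw [h1] at h2
  have h0 : 0 ≤ ∑ j ∈ S, g j := Finset.sum_nonneg fun j _ => KK_nonneg hg j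
  have h3 := Real.rpow_le_rpow h0 h2 (show (0 : ℝ) ≤ 3 / 4 by norm_num)
  rw [← Real.rpow_mul (NN_nonneg _)] at h3
  norm_num at h3 ⊢
  exact h3

end N

end MN3

section MN4

open Finset Module


variable {n N : ℕ → ℕ}

/-- positive part of a finitely supported sequence -/
noncomputable def aux_N4_pos (b : ℕ →₀ ℝ) : ℕ →₀ ℝ :=
  Finsupp.mapRange (fun r : ℝ => max r 0) (by simp) b

theorem aux_N4_pos_apply (b : ℕ →₀ ℝ) (j : ℕ) : aux_N4_pos b j = max (b j) 0 := by
  simp [aux_N4_pos]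

theorem aux_N4_pos_nonneg (b : ℕ →₀ ℝ) (j : ℕ) : 0 ≤ aux_N4_pos b j := by
  rw [aux_N4_pos_apply]; exact le_max_right _ _

theorem aux_N4_zero : NN n N (0 : ℕ →₀ ℝ) = 0 := by
  have h : (0 : ℕ →₀ ℝ) = (0 : ℝ) • (0 : ℕ →₀ ℝ) := by simp
  rw [h, NN_smul]
  simp

theorem aux_N4_hom (c : ℝ) (hc : 0 < c) (b : ℕ →₀ ℝ) :
    NN n N (aux_N4_pos (c • b)) = c * NN n N (aux_N4_pos b) := by
  have h : aux_N4_pos (c • b) = c • aux_N4_pos b := by
    ext j
    rw [aux_N4_pos_apply, Finsupp.smul_apply, Finsupp.smul_apply, aux_N4_pos_apply, smul_eq_mul,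
      smul_eq_mul, mul_max_of_nonneg _ _ hc.le, mul_zero]
  rw [h, NN_smul, abs_of_pos hc]

theorem aux_N4_add (b c : ℕ →₀ ℝ) :
    NN n N (aux_N4_pos (b + c)) ≤ NN n N (aux_N4_pos b) + NN n N (aux_N4_pos c) := by
  refine le_trans (NN_mono ?_) (NN_add_le _ _)
  intro j
  rw [Finsupp.add_apply, abs_of_nonneg (aux_N4_pos_nonneg _ _),
    abs_of_nonneg (add_nonneg (aux_N4_pos_nonneg _ _) (aux_N4_pos_nonneg _ _)),
    aux_N4_pos_apply, aux_N4_pos_apply, aux_N4_pos_apply, Finsupp.add_apply]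
  exact max_le (add_le_add (le_max_left _ _) (le_max_left _ _))
    (add_nonneg (le_max_right _ _) (le_max_right _ _))

theorem aux_N4_exists (a : ℕ →₀ ℝ) (ha : ∀ j, 0 ≤ a j) :
    ∃ F : (ℕ →₀ ℝ) →ₗ[ℝ] ℝ, F a = NN n N a ∧ ∀ b, F b ≤ NN n N (aux_N4_pos b) := by
  have hpa : aux_N4_pos a = a := by
    ext j
    rw [aux_N4_pos_apply, max_eq_left (ha j)]
  by_cases h0 : a = 0
  · refine ⟨0, ?_, fun b => ?_⟩
    · rw [h0, aux_N4_zero]; simp
    · simpa using NN_nonneg _
  · obtain ⟨F, hF1, hF2⟩ := exists_extension_of_le_sublinear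
      (LinearPMap.mkSpanSingleton a (NN n N a) h0) (fun b => NN n N (aux_N4_pos b))
      (fun c hc b => aux_N4_hom c hc b) (fun b c => aux_N4_add b c) (by
        rintro ⟨x, hx⟩
        obtain ⟨t, rfl⟩ := Submodule.mem_span_singleton.1 hx
        have hval : (LinearPMap.mkSpanSingleton a (NN n N a) h0) ⟨t • a, hx⟩ = t • NN n N a :=
          LinearPMap.mkSpanSingleton'_apply a (NN n N a) _ t hx
        rw [hval]
        rcases lt_or_ge 0 t with ht | ht
        · change _ ≤ NN n N (aux_N4_pos (t • a))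
          rw [aux_N4_hom t ht, hpa, smul_eq_mul]
        · refine le_trans ?_ (NN_nonneg _)
          rw [smul_eq_mul]
          exact mul_nonpos_of_nonpos_of_nonneg ht (NN_nonneg _))
    refine ⟨F, ?_, hF2⟩
    have h1 := hF1 ⟨a, Submodule.mem_span_singleton_self a⟩
    exact h1.trans (LinearPMap.mkSpanSingleton_apply ℝ ℝ h0 (NN n N a))

theorem NN_norming (a : ℕ →₀ ℝ) (ha : ∀ j, 0 ≤ a j) :
    ∃ φ : ℕ → ℝ, (∀ j, 0 ≤ φ j) ∧ (∀ j, a j = 0 → φ j = 0) ∧
      (a.sum fun j v => φ j * v) = NN n N a ∧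
      ∀ b : ℕ →₀ ℝ, (b.sum fun j v => φ j * |v|) ≤ NN n N b := by
  obtain ⟨F, hFa, hF⟩ := aux_N4_exists (n := n) (N := N) a ha
  have hpos : ∀ j, 0 ≤ F (Finsupp.single j 1) := by
    intro j
    have h1 := hF (-Finsupp.single j 1)
    have h2 : aux_N4_pos (-Finsupp.single j (1 : ℝ)) = 0 := by
      ext k
      rw [aux_N4_pos_apply, Finsupp.neg_apply, Finsupp.single_apply, Finsupp.zero_apply]
      split_ifs <;> simp
    rw [h2, aux_N4_zero, map_neg] at h1
    linarith
  refine ⟨fun j => if a j = 0 then 0 else F (Finsupp.single j 1), ?_, ?_, ?_, ?_⟩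
  · intro j
    dsimp only
    split_ifs
    · exact le_rfl
    · exact hpos j
  · intro j hj
    dsimp only
    rw [if_pos hj]
  · rw [← hFa]
    conv_rhs => rw [← Finsupp.sum_single a]
    rw [Finsupp.sum, Finsupp.sum, map_sum]
    refine Finset.sum_congr rfl fun j hj => ?_
    dsimp only
    rw [if_neg (Finsupp.mem_support_iff.1 hj)]
    have h1 : Finsupp.single j (a j) = a j • Finsupp.single j (1 : ℝ) := by simp
    rw [h1, map_smul, smul_eq_mul, mul_comm]
  · intro b
    have h1 : (b.sum fun j v => (if a j = 0 then 0 else F (Finsupp.single j 1)) * |v|) =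
        F (∑ j ∈ b.support, if a j = 0 then 0 else Finsupp.single j |b j|) := by
      rw [Finsupp.sum, map_sum]
      refine Finset.sum_congr rfl fun j _ => ?_
      split_ifs
      · simp
      · have h1 : Finsupp.single j |b j| = |b j| • Finsupp.single j (1 : ℝ) := by simp
        rw [h1, map_smul, smul_eq_mul, mul_comm]
    rw [h1]
    refine (hF _).trans (NN_mono ?_)
    intro k
    rw [abs_of_nonneg (aux_N4_pos_nonneg _ _), aux_N4_pos_apply]
    refine max_le ?_ (abs_nonneg _)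
    rw [Finsupp.finsetSum_apply]
    have h2 : ∀ j ∈ b.support, (if a j = 0 then (0 : ℕ →₀ ℝ) else Finsupp.single j |b j|) k ≤
        if j = k then |b k| else 0 := by
      intro j _
      split_ifs with h3 h4 h4
      · exact abs_nonneg _
      · simp
      · subst h4; simp
      · rw [Finsupp.single_apply, if_neg h4]
    refine (Finset.sum_le_sum h2).trans ?_
    rw [Finset.sum_ite_eq']
    split_ifs
    · exact le_rfl
    · exact abs_nonneg _

end MN4

section MB

/-! Module B: `KK` contains elements of arbitrarily large sum. -/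


open Finset Module


/-- Finite sets of depth at most `k`. -/
def aux_B_AA (n N : ℕ → ℕ) : ℕ → Finset ℕ → Prop
  | 0, A => A.card ≤ 1
  | k + 1, A => aux_B_AA n N k A ∨ ∃ (i : ℕ) (B : Fin (N i) → Finset ℕ),
      (∀ c, aux_B_AA n N k (B c)) ∧ A ⊆ Finset.univ.biUnion B ∧ ∀ j ∈ A, n i ≤ j

theorem aux_B_card {n N : ℕ → ℕ} {A : Finset ℕ} (h : A.card ≤ 1) (k : ℕ) : aux_B_AA n N k A := by
  induction k with
  | zero => exact h
  | succ k ih => exact Or.inl ih

theorem aux_B_tree {n N : ℕ → ℕ} {f : ℕ → ℝ} (hf : Tree n N f) :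
    ∀ (k : ℕ) (A : Finset ℕ), (∀ j ∈ A, (1 / 2 : ℝ) ^ k ≤ f j) → aux_B_AA n N k A := by
  induction hf with
  | single j0 =>
    intro k A hA
    apply aux_B_card
    have h1 : A ⊆ {j0} := by
      intro j hj
      have h2 := hA j hj
      dsimp only at h2
      by_contra h3
      rw [Finset.mem_singleton] at h3
      rw [if_neg h3] at h2
      have : (0 : ℝ) < (1 / 2) ^ k := by positivity
      linarith
    calc A.card ≤ ({j0} : Finset ℕ).card := Finset.card_le_card h1
      _ = 1 := Finset.card_singleton j0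
  | node i A0 f hd hA0 hf ih =>
    intro k A hA
    cases k with
    | zero =>
      apply aux_B_card
      have h1 : A = ∅ := by
        by_contra h2
        obtain ⟨j, hj⟩ := Finset.nonempty_iff_ne_empty.2 h2
        have h3 := hA j hj
        have h4 := Tree.node_le_half A0 f hd hf j
        dsimp only at h3
        rw [pow_zero] at h3
        linarith
      rw [h1]; simp
    | succ k =>
      right
      have key : ∀ j ∈ A, ∃ c, j ∈ A0 c ∧ (1 / 2 : ℝ) ^ k ≤ f c j := by
        intro j hj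
        have h3 := hA j hj
        dsimp only at h3
        have hpos : (0 : ℝ) < (1 / 2) ^ (k + 1) := by positivity
        rcases sum_ite_disjoint A0 hd f j with h0 | ⟨c, hc, h1⟩
        · rw [h0] at h3
          linarith
        · refine ⟨c, hc, ?_⟩
          rw [h1, pow_succ] at h3
          linarith
      refine ⟨i, fun c => A.filter (fun j => j ∈ A0 c ∧ (1 / 2 : ℝ) ^ k ≤ f c j), ?_, ?_, ?_⟩
      · intro c
        apply ih c k
        intro j hj
        rw [Finset.mem_filter] at hj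
        exact hj.2.2
      · intro j hj
        obtain ⟨c, hc, h1⟩ := key j hj
        rw [Finset.mem_biUnion]
        exact ⟨c, Finset.mem_univ _, Finset.mem_filter.2 ⟨hj, hc, h1⟩⟩
      · intro j hj
        obtain ⟨c, hc, -⟩ := key j hj
        exact hA0 c j hc

/-- finitely supported measures of mass `R` which are small on sets of depth `k` and almost
bounded by one on sets of depth `k + 1` -/
theorem aux_B_blocks {n N : ℕ → ℕ} (hn : ∀ m, ∃ I, ∀ i, I ≤ i → m < n i) (k : ℕ)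
    (hk : ∀ ε : ℝ, 0 < ε → ∀ m : ℕ, ∃ (T : Finset ℕ) (ν : ℕ → ℝ), (∀ j, 0 ≤ ν j) ∧
      (∀ j, j ∉ T → ν j = 0) ∧ (∀ j ∈ T, m ≤ j) ∧ ∑ j ∈ T, ν j = 1 ∧
      ∀ A, aux_B_AA n N k A → ∑ j ∈ A, ν j ≤ ε)
    (ε : ℝ) (hε : 0 < ε) (m : ℕ) (R : ℕ) :
    ∃ (T : Finset ℕ) (μ : ℕ → ℝ), (∀ j, 0 ≤ μ j) ∧
      (∀ j, j ∉ T → μ j = 0) ∧ (∀ j ∈ T, m ≤ j) ∧ ∑ j ∈ T, μ j = R ∧
      (∀ A, aux_B_AA n N k A → ∑ j ∈ A, μ j ≤ R * ε) ∧
      ∀ (A : Finset ℕ) (i : ℕ) (B : Fin (N i) → Finset ℕ), (∀ c, aux_B_AA n N k (B c)) →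
        A ⊆ Finset.univ.biUnion B → (∀ j ∈ A, n i ≤ j) → ∑ j ∈ A, μ j ≤ 1 + R * ε := by
  induction R with
  | zero =>
    refine ⟨∅, fun _ => 0, fun _ => le_rfl, fun _ _ => rfl, by simp, by simp, ?_, ?_⟩
    · intro A _; simp
    · intro A i B _ _ _; simp
  | succ R ih =>
    obtain ⟨T, μ, h1, h2, h3, h4, h5, h6⟩ := ih
    set M := T.sup id with hM
    obtain ⟨I, hI⟩ := hn M
    set K := 1 + (Finset.range I).sup N with hK
    have hK0 : (0 : ℝ) < K := by rw [hK]; positivity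
    have hK1 : (1 : ℝ) ≤ K := by rw [hK]; push_cast; linarith [Nat.cast_nonneg (α := ℝ) ((Finset.range I).sup N)]
    obtain ⟨T', ν, g1, g2, g3, g4, g5⟩ := hk (ε / K) (by positivity) (max m (M + 1))
    have hdisj : Disjoint T T' := by
      rw [Finset.disjoint_left]
      intro j hj hj'
      have e1 : j ≤ M := Finset.le_sup (f := id) hj
      have e2 := (le_max_right m (M + 1)).trans (g3 j hj')
      omega
    have hεK : ε / K ≤ ε := div_le_self hε.le hK1
    -- sums over arbitrary sets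
    have hνle : ∀ A : Finset ℕ, ∑ j ∈ A, ν j ≤ 1 := by
      intro A
      rw [← g4]
      calc ∑ j ∈ A, ν j = ∑ j ∈ A.filter (fun j => j ∈ T'), ν j := by
            rw [Finset.sum_filter]
            refine Finset.sum_congr rfl fun j _ => ?_
            split_ifs with h
            · rfl
            · exact g2 j h
        _ ≤ ∑ j ∈ T', ν j := Finset.sum_le_sum_of_subset_of_nonneg
            (fun j hj => (Finset.mem_filter.1 hj).2) (fun j _ _ => g1 j)
    refine ⟨T ∪ T', fun j => μ j + ν j, fun j => add_nonneg (h1 j) (g1 j), ?_, ?_, ?_, ?_, ?_⟩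
    · intro j hj
      rw [Finset.mem_union, not_or] at hj
      dsimp only
      rw [h2 j hj.1, g2 j hj.2, add_zero]
    · intro j hj
      rw [Finset.mem_union] at hj
      rcases hj with hj | hj
      · exact h3 j hj
      · exact (le_max_left m (M + 1)).trans (g3 j hj)
    · rw [Finset.sum_union hdisj, Finset.sum_add_distrib, Finset.sum_add_distrib, h4, g4]
      have e1 : ∑ j ∈ T, ν j = 0 :=
        Finset.sum_eq_zero fun j hj => g2 j (Finset.disjoint_left.1 hdisj hj)
      have e2 : ∑ j ∈ T', μ j = 0 :=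
        Finset.sum_eq_zero fun j hj => h2 j (Finset.disjoint_right.1 hdisj hj)
      rw [e1, e2]
      push_cast
      ring
    · intro A hA
      rw [Finset.sum_add_distrib]
      have e1 := h5 A hA
      have e2 := g5 A hA
      push_cast
      linarith
    · intro A i B hB hAB hAn
      rw [Finset.sum_add_distrib]
      by_cases hAT : ∃ j ∈ A, j ∈ T
      · obtain ⟨j, hjA, hjT⟩ := hAT
        have e1 : n i ≤ M := (hAn j hjA).trans (Finset.le_sup (f := id) hjT)
        have e2 : i < I := by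
          by_contra h
          exact absurd (hI i (not_lt.1 h)) (not_lt.2 e1)
        have e3 : N i ≤ K := by
          have := Finset.le_sup (f := N) (Finset.mem_range.2 e2)
          omega
        have e4 : ∑ j ∈ A, ν j ≤ ε := by
          calc ∑ j ∈ A, ν j ≤ ∑ j ∈ Finset.univ.biUnion B, ν j :=
                Finset.sum_le_sum_of_subset_of_nonneg hAB (fun j _ _ => g1 j)
            _ ≤ ∑ c, ∑ j ∈ B c, ν j := by
                have : ∀ (s : Finset (Fin (N i))), ∑ j ∈ s.biUnion B, ν j ≤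
                    ∑ c ∈ s, ∑ j ∈ B c, ν j := by
                  intro s
                  induction s using Finset.induction_on with
                  | empty => simp
                  | insert c s hc ih =>
                    rw [Finset.biUnion_insert, Finset.sum_insert hc]
                    have e5 := Finset.sum_union_inter (s₁ := B c) (s₂ := s.biUnion B) (f := ν)
                    have e6 : 0 ≤ ∑ j ∈ B c ∩ s.biUnion B, ν j :=
                      Finset.sum_nonneg fun j _ => g1 j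
                    linarith
                exact this _
            _ ≤ ∑ _c : Fin (N i), ε / K := Finset.sum_le_sum fun c _ => g5 _ (hB c)
            _ = N i * (ε / K) := by
                rw [Finset.sum_const, Finset.card_univ, Fintype.card_fin, nsmul_eq_mul]
            _ ≤ K * (ε / K) := by
                apply mul_le_mul_of_nonneg_right _ (by positivity)
                exact_mod_cast e3
            _ = ε := by field_simp
        have e5 := h6 A i B hB hAB hAn
        push_cast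
        linarith
      · push Not at hAT
        have e1 : ∑ j ∈ A, μ j = 0 := Finset.sum_eq_zero fun j hj => h2 j (hAT j hj)
        have e2 := hνle A
        have e3 : (0 : ℝ) ≤ ((R + 1 : ℕ) : ℝ) * ε := by positivity
        rw [e1]
        linarith

theorem aux_B_measure {n N : ℕ → ℕ} (hn : ∀ m, ∃ I, ∀ i, I ≤ i → m < n i) (k : ℕ) :
    ∀ ε : ℝ, 0 < ε → ∀ m : ℕ, ∃ (T : Finset ℕ) (ν : ℕ → ℝ), (∀ j, 0 ≤ ν j) ∧
      (∀ j, j ∉ T → ν j = 0) ∧ (∀ j ∈ T, m ≤ j) ∧ ∑ j ∈ T, ν j = 1 ∧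
      ∀ A, aux_B_AA n N k A → ∑ j ∈ A, ν j ≤ ε := by
  induction k with
  | zero =>
    intro ε hε m
    obtain ⟨L, hL⟩ := exists_nat_gt (1 / ε)
    have hL0 : (0 : ℝ) < L := lt_trans (by positivity) hL
    have hL1 : 1 / (L : ℝ) ≤ ε := by
      rw [div_le_iff₀ hL0]
      rw [div_lt_iff₀ hε] at hL
      linarith
    refine ⟨Finset.Ico m (m + L), fun j => if j ∈ Finset.Ico m (m + L) then 1 / (L : ℝ) else 0,
      ?_, ?_, ?_, ?_, ?_⟩
    · intro j
      dsimp only
      split_ifs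
      · positivity
      · exact le_rfl
    · intro j hj
      dsimp only
      rw [if_neg hj]
    · intro j hj
      exact (Finset.mem_Ico.1 hj).1
    · rw [Finset.sum_congr rfl (fun j hj => if_pos hj), Finset.sum_const, Nat.card_Ico,
        nsmul_eq_mul]
      rw [Nat.add_sub_cancel_left]
      field_simp
    · intro A hA
      have hA' : A.card ≤ 1 := hA
      calc ∑ j ∈ A, (if j ∈ Finset.Ico m (m + L) then 1 / (L : ℝ) else 0) ≤
            ∑ _j ∈ A, 1 / (L : ℝ) := by
            refine Finset.sum_le_sum fun j _ => ?_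
            split_ifs
            · exact le_rfl
            · positivity
        _ = A.card * (1 / (L : ℝ)) := by rw [Finset.sum_const, nsmul_eq_mul]
        _ ≤ 1 * (1 / (L : ℝ)) := by
            apply mul_le_mul_of_nonneg_right _ (by positivity)
            exact_mod_cast hA'
        _ ≤ ε := by rw [one_mul]; exact hL1
  | succ k ih =>
    intro ε hε m
    obtain ⟨R, hR⟩ := exists_nat_gt (2 / ε)
    have hR0 : (0 : ℝ) < R := lt_trans (by positivity) hR
    have hR1 : 1 / (R : ℝ) ≤ ε / 2 := by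
      rw [div_le_iff₀ hR0]
      rw [div_lt_iff₀ hε] at hR
      linarith
    obtain ⟨T, μ, h1, h2, h3, h4, h5, h6⟩ := aux_B_blocks hn k ih (ε / 2) (by positivity) m R
    refine ⟨T, fun j => μ j / R, fun j => div_nonneg (h1 j) hR0.le, ?_, h3, ?_, ?_⟩
    · intro j hj
      dsimp only
      rw [h2 j hj, zero_div]
    · rw [← Finset.sum_div, h4, div_self hR0.ne']
    · intro A hA
      rw [← Finset.sum_div, div_le_iff₀ hR0]
      rcases hA with hA | ⟨i, B, hB, hAB, hAn⟩
      · have := h5 A hA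
        nlinarith
      · have e1 := h6 A i B hB hAB hAn
        have e2 : 1 ≤ ε / 2 * R := by
          rw [div_le_iff₀ hR0] at hR1
          exact hR1
        linarith

theorem exists_big {n N : ℕ → ℕ} (hn : ∀ m, ∃ I, ∀ i, I ≤ i → m < n i) (R : ℝ) :
    ∃ g ∈ KK n N, ∃ S : Finset ℕ, R ≤ ∑ j ∈ S, g j := by
  obtain ⟨k, hk⟩ := pow_unbounded_of_one_lt R (one_lt_two (α := ℝ))
  obtain ⟨T, ν, h1, h2, -, h4, h5⟩ := aux_B_measure (N := N) hn (k + 1) ((1 / 2 : ℝ) ^ (k + 1))
    (by positivity) 0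
  have hνle : ∀ A : Finset ℕ, ∑ j ∈ A, ν j ≤ 1 := by
    intro A
    rw [← h4]
    calc ∑ j ∈ A, ν j = ∑ j ∈ A.filter (fun j => j ∈ T), ν j := by
          rw [Finset.sum_filter]
          refine Finset.sum_congr rfl fun j _ => ?_
          split_ifs with h
          · rfl
          · exact h2 j h
      _ ≤ ∑ j ∈ T, ν j := Finset.sum_le_sum_of_subset_of_nonneg
          (fun j hj => (Finset.mem_filter.1 hj).2) (fun j _ _ => h1 j)
  have h2k : (2 : ℝ) ^ k * (1 / 2 : ℝ) ^ (k + 1) = 1 / 2 := by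
    rw [pow_succ, ← mul_assoc, ← mul_pow]
    norm_num
  refine ⟨fun j => 2 ^ k * ν j, ⟨fun j => mul_nonneg (by positivity) (h1 j), ?_⟩, T, ?_⟩
  · intro f hf S
    set A := S.filter (fun j => (1 / 2 : ℝ) ^ (k + 1) ≤ f j) with hA
    have e1 : ∑ j ∈ A, ν j ≤ (1 / 2 : ℝ) ^ (k + 1) := by
      apply h5
      apply aux_B_tree hf
      intro j hj
      rw [hA, Finset.mem_filter] at hj
      exact hj.2
    have e2 : ∑ j ∈ S, f j * ν j ≤ ∑ j ∈ A, ν j + (1 / 2 : ℝ) ^ (k + 1) * ∑ j ∈ S, ν j := by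
      rw [hA, Finset.sum_filter, Finset.mul_sum, ← Finset.sum_add_distrib]
      refine Finset.sum_le_sum fun j _ => ?_
      have f1 := hf.le_one j
      have f2 := h1 j
      have f3 : (0 : ℝ) < (1 / 2) ^ (k + 1) := by positivity
      split_ifs with h
      · have : f j * ν j ≤ 1 * ν j := mul_le_mul_of_nonneg_right f1 f2
        have : 0 ≤ (1 / 2 : ℝ) ^ (k + 1) * ν j := by positivity
        linarith
      · rw [zero_add]
        exact mul_le_mul_of_nonneg_right (not_le.1 h).le f2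
    have e3 := hνle S
    have e4 : ∑ j ∈ S, f j * (2 ^ k * ν j) = 2 ^ k * ∑ j ∈ S, f j * ν j := by
      rw [Finset.mul_sum]
      exact Finset.sum_congr rfl fun j _ => by ring
    rw [e4]
    have e5 : (0 : ℝ) < (1 / 2) ^ (k + 1) := by positivity
    calc (2 : ℝ) ^ k * ∑ j ∈ S, f j * ν j ≤
          2 ^ k * ((1 / 2 : ℝ) ^ (k + 1) + (1 / 2 : ℝ) ^ (k + 1) * 1) := by
          apply mul_le_mul_of_nonneg_left _ (by positivity)
          have : (1 / 2 : ℝ) ^ (k + 1) * ∑ j ∈ S, ν j ≤ (1 / 2 : ℝ) ^ (k + 1) * 1 :=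
            mul_le_mul_of_nonneg_left e3 e5.le
          linarith
      _ = 2 * (2 ^ k * (1 / 2 : ℝ) ^ (k + 1)) := by ring
      _ = 1 := by rw [h2k]; norm_num
  · rw [← Finset.mul_sum, h4, mul_one]
    exact hk.le

end MB

end H9.Beps
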