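import Mathlib

/-!
# MP_975b05_an: property (BEPS) and Rademacher type 2
-/

set_option autoImplicit false

namespace H9.Beps

/-- Property (BEPS) of the normed space `X` over `𝕜` (real or complex numbers): for every closed
subspace `Y` of `X`, every bounded bilinear form `B` on `Y` (times `Y`) is the restriction of a
bounded bilinear form `B'` on `X` (times `X`). -/
def BEPS (𝕜 X : Type*) [RCLike 𝕜] [NormedAddCommGroup X] [NormedSpace 𝕜 X] : Prop :=
  ∀ Y : Submodule 𝕜 X, IsClosed (Y : Set X) → ∀ B : Y →L[𝕜] Y →L[𝕜] 𝕜,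
    ∃ B' : X →L[𝕜] X →L[𝕜] 𝕜, ∀ y y' : Y, B' (y : X) (y' : X) = B y y'

/-- Rademacher type 2: for some constant `C`, for all finite families, the average over all choices
of signs of the squared norm of the signed sum is at most `C` times the sum of the squared norms. -/
def TypeTwo (X : Type*) [NormedAddCommGroup X] : Prop :=
  ∃ C : ℝ, ∀ (n : ℕ) (x : Fin n → X),
    (∑ s : Fin n → Bool, ‖∑ i, (if s i then x i else - x i)‖ ^ 2) / 2 ^ n ≤ C * ∑ i, ‖x i‖ ^ 2

end H9.Beps
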