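import Pool.Agent.H9.Beps.Norm

/-!
# MP_975b05_an: the vector valued space
-/

set_option autoImplicit false

open Finset Module

namespace H9.Beps

section XXdef

/-- Finitely supported `V`-valued sequences with the lattice norm. -/
def XX (_n _N : ℕ → ℕ) (V : Type) [NormedAddCommGroup V] : Type := ℕ →₀ V

variable {n N : ℕ → ℕ} {V : Type} [NormedAddCommGroup V]

noncomputable instance : AddCommGroup (XX n N V) := inferInstanceAs (AddCommGroup (ℕ →₀ V))

noncomputable instance {R : Type*} [Semiring R] [Module R V] : Module R (XX n N V) :=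
  inferInstanceAs (Module R (ℕ →₀ V))

/-- underlying finitely supported function -/
def XX.fs (x : XX n N V) : ℕ →₀ V := x

/-- the element of `XX` given by a finitely supported function -/
def XX.mk (x : ℕ →₀ V) : XX n N V := x

@[simp] theorem XX.fs_mk (x : ℕ →₀ V) : (XX.mk x : XX n N V).fs = x := rfl
@[simp] theorem XX.mk_fs (x : XX n N V) : XX.mk x.fs = x := rfl
@[simp] theorem XX.fs_add (x y : XX n N V) : (x + y).fs = x.fs + y.fs := rfl
@[simp] theorem XX.fs_sub (x y : XX n N V) : (x - y).fs = x.fs - y.fs := rfl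
@[simp] theorem XX.fs_neg (x : XX n N V) : (-x).fs = -x.fs := rfl
@[simp] theorem XX.fs_zero : (0 : XX n N V).fs = 0 := rfl
@[simp] theorem XX.fs_smul {R : Type*} [Semiring R] [Module R V] (r : R) (x : XX n N V) :
    (r • x).fs = r • x.fs := rfl

@[ext] theorem XX.ext {x y : XX n N V} (h : ∀ j, x.fs j = y.fs j) : x = y := Finsupp.ext h

/-- pointwise norms -/
noncomputable def XX.absF (x : XX n N V) : ℕ →₀ ℝ :=
  Finsupp.mapRange (fun v : V => ‖v‖) norm_zero x.fs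

@[simp] theorem XX.absF_apply (x : XX n N V) (j : ℕ) : XX.absF x j = ‖x.fs j‖ := rfl

noncomputable def XX.gn : AddGroupNorm (XX n N V) where
  toFun x := NN n N (XX.absF x)
  map_zero' := by
    have h : XX.absF (0 : XX n N V) = (0 : ℝ) • (0 : ℕ →₀ ℝ) := by
      ext j
      simp
    rw [h, NN_smul]
    simp
  add_le' := by
    intro x y
    refine le_trans (NN_mono ?_) (NN_add_le _ _)
    intro j
    rw [Finsupp.add_apply, XX.absF_apply, XX.absF_apply, XX.absF_apply, abs_of_nonneg (norm_nonneg _),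
      abs_of_nonneg (by positivity)]
    exact norm_add_le _ _
  neg' := by
    intro x
    congr 1
    ext j
    simp
  eq_zero_of_map_eq_zero' := by
    intro x hx
    ext j
    have h1 : NN n N (Finsupp.single j ‖x.fs j‖) ≤ NN n N (XX.absF x) := by
      apply NN_mono
      intro k
      rw [XX.absF_apply]
      by_cases hk : k = j
      · subst hk; simp
      · rw [Finsupp.single_apply, if_neg (fun h => hk h.symm)]
        simp
    rw [NN_single, abs_of_nonneg (norm_nonneg _)] at h1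
    have h2 : ‖x.fs j‖ ≤ 0 := h1.trans (le_of_eq hx)
    simpa using norm_le_zero_iff.mp h2

noncomputable instance : NormedAddCommGroup (XX n N V) :=
  AddGroupNorm.toNormedAddCommGroup XX.gn

theorem XX.norm_def (x : XX n N V) : ‖x‖ = NN n N (XX.absF x) := rfl

noncomputable instance {𝕜 : Type*} [NormedField 𝕜] [NormedSpace 𝕜 V] : NormedSpace 𝕜 (XX n N V) where
  norm_smul_le := by
    intro r x
    rw [XX.norm_def, XX.norm_def]
    have h : XX.absF (r • x) = ‖r‖ • XX.absF x := by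
      ext j
      simp [norm_smul]
    rw [h, NN_smul, abs_of_nonneg (norm_nonneg _)]


end XXdef

section MS1

/-! Module S1: the uniform convexity inequality `XX_UC`. -/


open Finset Module


/-- polynomial inequality behind the real case -/
theorem aux_S1_poly {P R : ℝ} (hP : 0 ≤ P) (hR : 0 ≤ R) :
    8 * (P ^ 6 + P ^ 3 * R ^ 3 + R ^ 6) ^ 2 ≤ 9 * (P ^ 4 + R ^ 4) ^ 3 := by
  have h : 9 * (P ^ 4 + R ^ 4) ^ 3 - 8 * (P ^ 6 + P ^ 3 * R ^ 3 + R ^ 6) ^ 2 =
      (P - R) ^ 4 * ((P ^ 4 - R ^ 4) ^ 2 + 4 * P ^ 7 * R + 10 * P ^ 6 * R ^ 2 + 4 * P ^ 5 * R ^ 3 +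
        4 * P ^ 3 * R ^ 5 + 10 * P ^ 2 * R ^ 6 + 4 * P * R ^ 7) := by ring
  have h2 : 0 ≤ (P - R) ^ 4 * ((P ^ 4 - R ^ 4) ^ 2 + 4 * P ^ 7 * R + 10 * P ^ 6 * R ^ 2 +
      4 * P ^ 5 * R ^ 3 + 4 * P ^ 3 * R ^ 5 + 10 * P ^ 2 * R ^ 6 + 4 * P * R ^ 7) := by
    positivity
  linarith

/-- the real inequality for `β ≤ α` -/
theorem aux_S1_real {α β : ℝ} (hβ : 0 ≤ β) (hαβ : β ≤ α) :
    2 * (α ^ 2 + β ^ 2 / 3) ^ (2 / 3 : ℝ) ≤ ((α + β) ^ 2) ^ (2 / 3 : ℝ) +
      ((α - β) ^ 2) ^ (2 / 3 : ℝ) := by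
  have hα : 0 ≤ α := hβ.trans hαβ
  set P : ℝ := (α + β) ^ (1 / 3 : ℝ) with hPdef
  set R : ℝ := (α - β) ^ (1 / 3 : ℝ) with hRdef
  have h1 : 0 ≤ α + β := by linarith
  have h2 : 0 ≤ α - β := by linarith
  have hP : 0 ≤ P := Real.rpow_nonneg h1 _
  have hR : 0 ≤ R := Real.rpow_nonneg h2 _
  have hP3 : P ^ 3 = α + β := by
    rw [hPdef, ← Real.rpow_natCast, ← Real.rpow_mul h1]; norm_num
  have hR3 : R ^ 3 = α - β := by
    rw [hRdef, ← Real.rpow_natCast, ← Real.rpow_mul h2]; norm_num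
  have hP4 : ((α + β) ^ 2) ^ (2 / 3 : ℝ) = P ^ 4 := by
    rw [hPdef, ← Real.rpow_natCast (α + β) 2, ← Real.rpow_mul h1, ← Real.rpow_natCast,
      ← Real.rpow_mul h1]; norm_num
  have hR4 : ((α - β) ^ 2) ^ (2 / 3 : ℝ) = R ^ 4 := by
    rw [hRdef, ← Real.rpow_natCast (α - β) 2, ← Real.rpow_mul h2, ← Real.rpow_natCast,
      ← Real.rpow_mul h2]; norm_num
  rw [hP4, hR4]
  set X : ℝ := α ^ 2 + β ^ 2 / 3 with hX
  have hX0 : 0 ≤ X := by positivity
  set Q : ℝ := X ^ (1 / 3 : ℝ) with hQdef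
  have hQ : 0 ≤ Q := Real.rpow_nonneg hX0 _
  have hQ3 : Q ^ 3 = X := by
    rw [hQdef, ← Real.rpow_natCast, ← Real.rpow_mul hX0]; norm_num
  have hQ2 : X ^ (2 / 3 : ℝ) = Q ^ 2 := by
    rw [hQdef, ← Real.rpow_natCast, ← Real.rpow_mul hX0]; norm_num
  rw [hQ2]
  have hα' : α = (P ^ 3 + R ^ 3) / 2 := by rw [hP3, hR3]; ring
  have hβ' : β = (P ^ 3 - R ^ 3) / 2 := by rw [hP3, hR3]; ring
  have hX' : X = (P ^ 6 + P ^ 3 * R ^ 3 + R ^ 6) / 3 := by
    rw [hX, hα', hβ']; ring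
  have h3 := aux_S1_poly hP hR
  have h4 : (2 * Q ^ 2) ^ 3 ≤ (P ^ 4 + R ^ 4) ^ 3 := by
    have h5 : (2 * Q ^ 2) ^ 3 = 8 * (Q ^ 3) ^ 2 := by ring
    rw [h5, hQ3, hX']
    nlinarith [h3]
  exact le_of_pow_le_pow_left₀ (by norm_num) (by positivity) h4

theorem aux_S1_real' {α β : ℝ} (hα : 0 ≤ α) (hβ : 0 ≤ β) :
    2 * (α ^ 2 + β ^ 2 / 3) ^ (2 / 3 : ℝ) ≤ ((α + β) ^ 2) ^ (2 / 3 : ℝ) +
      ((α - β) ^ 2) ^ (2 / 3 : ℝ) := by
  rcases le_total β α with h | h
  · exact aux_S1_real hβ h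
  · have h1 := aux_S1_real hα h
    have h2 : (β - α) ^ 2 = (α - β) ^ 2 := by ring
    rw [add_comm β α, h2] at h1
    refine le_trans ?_ h1
    have h3 : (α ^ 2 + β ^ 2 / 3) ^ (2 / 3 : ℝ) ≤ (β ^ 2 + α ^ 2 / 3) ^ (2 / 3 : ℝ) := by
      apply Real.rpow_le_rpow (by positivity) _ (by norm_num)
      nlinarith
    linarith

/-- concavity: spreading decreases the sum -/
theorem aux_S1_conc {s t t' : ℝ} (ht : |t| ≤ t') (hs : t' ≤ s) :
    (s + t') ^ (2 / 3 : ℝ) + (s - t') ^ (2 / 3 : ℝ) ≤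
      (s + t) ^ (2 / 3 : ℝ) + (s - t) ^ (2 / 3 : ℝ) := by
  have ht' : 0 ≤ t' := (abs_nonneg t).trans ht
  rcases ht'.eq_or_lt with h0 | h0
  · have : t = 0 := by
      rw [← h0] at ht
      exact abs_nonpos_iff.1 ht
    rw [this, ← h0]
  · have hc : ConcaveOn ℝ (Set.Ici 0) fun x : ℝ => x ^ (2 / 3 : ℝ) :=
      Real.concaveOn_rpow (by norm_num) (by norm_num)
    obtain ⟨hl, hr⟩ := abs_le.1 ht
    set a : ℝ := (t' + t) / (2 * t') with ha
    set b : ℝ := (t' - t) / (2 * t') with hb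
    have ha0 : 0 ≤ a := div_nonneg (by linarith) (by linarith)
    have hb0 : 0 ≤ b := div_nonneg (by linarith) (by linarith)
    have hab : a + b = 1 := by
      rw [ha, hb]; field_simp; ring
    have hab' : (a - b) * t' = t := by
      rw [ha, hb]; field_simp; ring
    have m1 : s + t' ∈ Set.Ici (0 : ℝ) := by rw [Set.mem_Ici]; linarith
    have m2 : s - t' ∈ Set.Ici (0 : ℝ) := by rw [Set.mem_Ici]; linarith
    have h1 := hc.2 m1 m2 ha0 hb0 hab
    have h2 := hc.2 m1 m2 hb0 ha0 (by linarith)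
    simp only [smul_eq_mul] at h1 h2
    have e1 : a * (s + t') + b * (s - t') = s + t := by
      have : a * (s + t') + b * (s - t') = (a + b) * s + (a - b) * t' := by ring
      rw [this, hab, hab']; ring
    have e2 : b * (s + t') + a * (s - t') = s - t := by
      have : b * (s + t') + a * (s - t') = (a + b) * s - (a - b) * t' := by ring
      rw [this, hab, hab']; ring
    rw [e1] at h1
    rw [e2] at h2
    have h3 : a * (s + t') ^ (2 / 3 : ℝ) + b * (s - t') ^ (2 / 3 : ℝ) +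
        (b * (s + t') ^ (2 / 3 : ℝ) + a * (s - t') ^ (2 / 3 : ℝ)) =
        (a + b) * ((s + t') ^ (2 / 3 : ℝ) + (s - t') ^ (2 / 3 : ℝ)) := by ring
    rw [hab, one_mul] at h3
    linarith

/-- the pointwise inequality in an inner product space -/
theorem aux_S1_inner {V : Type} [NormedAddCommGroup V] [InnerProductSpace ℝ V] (v w : V) :
    2 * (‖v‖ ^ 2 + ‖w‖ ^ 2 / 3) ^ (2 / 3 : ℝ) ≤ ‖v + w‖ ^ (4 / 3 : ℝ) +
      ‖v - w‖ ^ (4 / 3 : ℝ) := by
  have h1 := aux_S1_real' (norm_nonneg v) (norm_nonneg w)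
  have e : ∀ u : V, ‖u‖ ^ (4 / 3 : ℝ) = (‖u‖ ^ 2) ^ (2 / 3 : ℝ) := by
    intro u
    rw [← Real.rpow_natCast ‖u‖ 2, ← Real.rpow_mul (norm_nonneg u)]
    norm_num
  rw [e, e, norm_add_sq_real, norm_sub_sq_real]
  have h2 := aux_S1_conc (s := ‖v‖ ^ 2 + ‖w‖ ^ 2) (t := 2 * inner ℝ v w) (t' := 2 * ‖v‖ * ‖w‖)
    (by
      rw [abs_mul, abs_of_pos (by norm_num : (0 : ℝ) < 2), mul_assoc]
      exact mul_le_mul_of_nonneg_left (abs_real_inner_le_norm v w) (by norm_num))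
    (by nlinarith [sq_nonneg (‖v‖ - ‖w‖)])
  have e1 : (‖v‖ + ‖w‖) ^ 2 = ‖v‖ ^ 2 + ‖w‖ ^ 2 + 2 * ‖v‖ * ‖w‖ := by ring
  have e2 : (‖v‖ - ‖w‖) ^ 2 = ‖v‖ ^ 2 + ‖w‖ ^ 2 - 2 * ‖v‖ * ‖w‖ := by ring
  have e3 : ‖v‖ ^ 2 + 2 * inner ℝ v w + ‖w‖ ^ 2 = ‖v‖ ^ 2 + ‖w‖ ^ 2 + 2 * inner ℝ v w := by ring
  have e4 : ‖v‖ ^ 2 - 2 * inner ℝ v w + ‖w‖ ^ 2 = ‖v‖ ^ 2 + ‖w‖ ^ 2 - 2 * inner ℝ v w := by ring
  rw [e1, e2] at h1
  rw [e3, e4]
  linarith

/-- power mean -/
theorem aux_S1_mean {A B Z : ℝ} (hA : 0 ≤ A) (hB : 0 ≤ B) (hZ : 0 ≤ Z)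
    (h : 2 * Z ^ (4 / 3 : ℝ) ≤ A ^ (4 / 3 : ℝ) + B ^ (4 / 3 : ℝ)) :
    2 * Z ^ 2 ≤ A ^ 2 + B ^ 2 := by
  have hc : ConvexOn ℝ (Set.Ici 0) fun x : ℝ => x ^ (3 / 2 : ℝ) := convexOn_rpow (by norm_num)
  have e : ∀ u : ℝ, 0 ≤ u → (u ^ (4 / 3 : ℝ)) ^ (3 / 2 : ℝ) = u ^ 2 := by
    intro u hu
    rw [← Real.rpow_mul hu, ← Real.rpow_natCast u 2]
    norm_num
  have h1 := hc.2 (Set.mem_Ici.2 (Real.rpow_nonneg hA (4 / 3 : ℝ)))
    (Set.mem_Ici.2 (Real.rpow_nonneg hB (4 / 3 : ℝ)))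
    (by norm_num : (0 : ℝ) ≤ 1 / 2) (by norm_num : (0 : ℝ) ≤ 1 / 2) (by norm_num)
  simp only [smul_eq_mul] at h1
  rw [e A hA, e B hB] at h1
  have h2 : (Z ^ (4 / 3 : ℝ)) ^ (3 / 2 : ℝ) ≤
      (1 / 2 * A ^ (4 / 3 : ℝ) + 1 / 2 * B ^ (4 / 3 : ℝ)) ^ (3 / 2 : ℝ) := by
    apply Real.rpow_le_rpow (Real.rpow_nonneg hZ _) _ (by norm_num)
    linarith
  rw [e Z hZ] at h2
  linarith

theorem XX_UC {n N : ℕ → ℕ} {V : Type} [NormedAddCommGroup V] [InnerProductSpace ℝ V] :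
    UC (XX n N V) (1 / 3) := by
  intro x y
  -- the square function
  set z : ℕ →₀ ℝ := Finsupp.onFinset (x.fs.support ∪ y.fs.support)
    (fun j => Real.sqrt (‖x.fs j‖ ^ 2 + ‖y.fs j‖ ^ 2 / 3)) (by
      intro j hj
      by_contra hn
      rw [Finset.mem_union, not_or, Finsupp.notMem_support_iff, Finsupp.notMem_support_iff] at hn
      apply hj
      rw [hn.1, hn.2]
      simp) with hz
  have hzj : ∀ j, z j = Real.sqrt (‖x.fs j‖ ^ 2 + ‖y.fs j‖ ^ 2 / 3) := fun j => rfl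
  have hsq : ∀ j, z j ^ 2 = ‖x.fs j‖ ^ 2 + ‖y.fs j‖ ^ 2 / 3 := by
    intro j
    rw [hzj, Real.sq_sqrt (by positivity)]
  have h3 : (Real.sqrt 3)⁻¹ ^ 2 = (1 / 3 : ℝ) := by
    rw [inv_pow, Real.sq_sqrt (by norm_num)]; norm_num
  have hconc := NN_concave (n := n) (N := N) (a := XX.absF x)
    (b := (Real.sqrt 3)⁻¹ • XX.absF y) (z := z) (by
      intro j
      rw [hsq, Finsupp.smul_apply, XX.absF_apply, XX.absF_apply, smul_eq_mul, mul_pow, h3]
      apply le_of_eq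
      ring)
  rw [NN_smul, mul_pow, sq_abs, h3] at hconc
  have hpc := NN_pconvex (n := n) (N := N) (a := XX.absF (x + y)) (b := XX.absF (x - y)) (z := z)
    (by
      intro j
      have h4 := aux_S1_inner (x.fs j) (y.fs j)
      rw [XX.absF_apply, XX.absF_apply, abs_of_nonneg (norm_nonneg _),
        abs_of_nonneg (norm_nonneg _)]
      have h5 : |z j| ^ (4 / 3 : ℝ) = (‖x.fs j‖ ^ 2 + ‖y.fs j‖ ^ 2 / 3) ^ (2 / 3 : ℝ) := by
        rw [← hsq, ← sq_abs (z j), ← Real.rpow_natCast |z j| 2, ← Real.rpow_mul (abs_nonneg _)]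
        norm_num
      rw [h5]
      exact h4)
  rw [← XX.norm_def, ← XX.norm_def] at hconc hpc
  have hZ : 0 ≤ NN n N z := NN_nonneg z
  have hm := aux_S1_mean (norm_nonneg (x + y)) (norm_nonneg (x - y)) hZ hpc
  linarith

end MS1

section MS2

/-! Module S2: window property of `XX n N V`. -/


open Finset Module


/-- A finite net of the unit ball. -/
theorem aux_S2_net (V : Type) [NormedAddCommGroup V] [InnerProductSpace ℝ V]
    [FiniteDimensional ℝ V] {δ : ℝ} (hδ : 0 < δ) :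
    ∃ (k : ℕ) (z : Fin k → V) (c : V → Fin k), ∀ v, ‖v‖ ≤ 1 → ‖v - z (c v)‖ ≤ δ := by
  have hprop : ProperSpace V := FiniteDimensional.proper_real V
  have hc : IsCompact (Metric.closedBall (0 : V) 1) := isCompact_closedBall 0 1
  obtain ⟨t, ht, hcov⟩ := Metric.totallyBounded_iff.mp hc.totallyBounded δ hδ
  have hne : ∀ v : V, ∃ y : ht.toFinset, ‖v‖ ≤ 1 → ‖v - y‖ ≤ δ := by
    intro v
    have key : ∀ w : V, ‖w‖ ≤ 1 → ∃ y : ht.toFinset, ‖w - y‖ ≤ δ := by
      intro w hw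
      have h1 := hcov (mem_closedBall_zero_iff.mpr hw)
      simp only [Set.mem_iUnion, Metric.mem_ball, exists_prop] at h1
      obtain ⟨y, hy, hd⟩ := h1
      refine ⟨⟨y, ht.mem_toFinset.mpr hy⟩, ?_⟩
      rw [← dist_eq_norm]
      exact hd.le
    by_cases hv : ‖v‖ ≤ 1
    · obtain ⟨y, hy⟩ := key v hv
      exact ⟨y, fun _ => hy⟩
    · obtain ⟨y, _⟩ := key 0 (by simp)
      exact ⟨y, fun h => absurd h hv⟩
  choose c hc' using hne
  refine ⟨ht.toFinset.card, fun k => (ht.toFinset.equivFin.symm k : V),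
    fun v => ht.toFinset.equivFin (c v), fun v hv => ?_⟩
  simpa using hc' v hv

/-- first coordinates -/
theorem aux_S2_pi (V : Type) [NormedAddCommGroup V] [InnerProductSpace ℝ V]
    [FiniteDimensional ℝ V] (n N : ℕ → ℕ) (i q : ℕ) (h : finrank ℝ V * n i ≤ q) :
    ∃ π : XX n N V →ₗ[ℝ] (Fin q → ℝ), ∀ x, π x = 0 → ∀ j, x.fs j ≠ 0 → n i ≤ j := by
  have h1 : finrank ℝ (Fin (n i) → V) ≤ finrank ℝ (Fin q → ℝ) := by
    rw [Module.finrank_pi_fintype, Module.finrank_pi]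
    simp only [Finset.sum_const, Finset.card_univ, Fintype.card_fin, smul_eq_mul]
    rw [mul_comm]
    exact h
  obtain ⟨T, hT⟩ := finrank_le_iff_exists_linearMap.mp h1
  let ρ : XX n N V →ₗ[ℝ] (Fin (n i) → V) :=
    { toFun := fun x j => x.fs j
      map_add' := by
        intro x y
        ext j
        simp
      map_smul' := by
        intro r x
        ext j
        simp }
  refine ⟨T.comp ρ, fun x hx j hj => ?_⟩
  by_contra hlt
  push Not at hlt
  have h2 : ρ x = 0 := hT (by rw [map_zero]; exact hx)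
  exact hj (congrFun h2 ⟨j, hlt⟩)

theorem XX_win (V : Type) [NormedAddCommGroup V] [InnerProductSpace ℝ V] [FiniteDimensional ℝ V]
    (b : ℕ) (θ : ℝ) (hθ : 0 < θ) :
    ∃ K : ℕ, ∀ (n N : ℕ → ℕ) (i q : ℕ), K ≤ N i → finrank ℝ V * n i ≤ q →
      WinAt (XX n N V) q b θ := by
  have hδ : 0 < θ / (6 * b + 1) := by positivity
  obtain ⟨k, z, qc, hq⟩ := aux_S2_net V hδ
  set δ : ℝ := θ / (6 * b + 1) with hδdef
  have hk : 1 ≤ k := Nat.one_le_iff_ne_zero.mpr (fun h0 => by subst h0; exact (qc 0).elim0)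
  refine ⟨k ^ (2 * b), fun n N i q hK hq' => ?_⟩
  obtain ⟨π, hπ⟩ := aux_S2_pi V n N i q hq'
  refine ⟨π, fun M hM x hx0 hx1 => ?_⟩
  -- colours
  have hcard : Fintype.card (Fin M → Fin k) ≤ Fintype.card (Fin (N i)) := by
    simp only [Fintype.card_pi, Finset.prod_const, Finset.card_univ, Fintype.card_fin]
    exact (Nat.pow_le_pow_right hk hM).trans hK
  obtain ⟨e⟩ := Function.Embedding.nonempty_of_card_le hcard
  -- the function u
  let u : ℕ →₀ ℝ := ∑ j, XX.absF (x j)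
  have hu_apply : ∀ l, u l = ∑ j, ‖(x j).fs l‖ := by
    intro l
    simp only [u, Finsupp.finsetSum_apply, XX.absF_apply]
  have hu0 : ∀ l, 0 ≤ u l := fun l => by rw [hu_apply]; positivity
  have hule : ∀ j l, ‖(x j).fs l‖ ≤ u l := by
    intro j l
    rw [hu_apply]
    exact Finset.single_le_sum (f := fun j => ‖(x j).fs l‖) (fun _ _ => norm_nonneg _) (Finset.mem_univ j)
  have hNu : NN n N u ≤ M := by
    have : ∀ s : Finset (Fin M), NN n N (∑ j ∈ s, XX.absF (x j)) ≤ s.card := by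
      intro s
      induction s using Finset.induction_on with
      | empty =>
        have h0 : NN n N ((0 : ℝ) • (0 : ℕ →₀ ℝ)) = 0 := by rw [NN_smul]; simp
        simp only [smul_zero] at h0
        simp [h0]
      | insert a s ha ih =>
        rw [Finset.sum_insert ha, Finset.card_insert_of_notMem ha]
        push_cast
        have h1 : NN n N (XX.absF (x a)) ≤ 1 := hx1 a
        have h2 := NN_add_le (n := n) (N := N) (XX.absF (x a)) (∑ j ∈ s, XX.absF (x j))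
        linarith
    have h := this Finset.univ
    simpa using h
  let κ : ℕ → Fin (N i) := fun l => e fun j => qc ((u l)⁻¹ • (x j).fs l)
  let Z : Fin (N i) → Fin M → V := fun c j => if h : ∃ y, e y = c then z (h.choose j) else 0
  have hZ : ∀ l j, Z (κ l) j = z (qc ((u l)⁻¹ • (x j).fs l)) := by
    intro l j
    have h : ∃ y, e y = κ l := ⟨_, rfl⟩
    have h2 : h.choose = fun j => qc ((u l)⁻¹ • (x j).fs l) := e.injective h.choose_spec
    simp only [Z]
    rw [dif_pos h, h2]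
  -- approximating vectors
  let x' : Fin M → XX n N V := fun j =>
    XX.mk (Finsupp.onFinset u.support (fun l => u l • Z (κ l) j) (by
      intro l hl
      rw [Finsupp.mem_support_iff]
      intro h0
      apply hl
      rw [h0, zero_smul]))
  have hx'_apply : ∀ j l, (x' j).fs l = u l • Z (κ l) j := fun j l => rfl
  have hclose : ∀ j l, ‖(x j).fs l - (x' j).fs l‖ ≤ δ * u l := by
    intro j l
    rw [hx'_apply, hZ]
    rcases eq_or_lt_of_le (hu0 l) with h0 | hpos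
    · have h1 : ‖(x j).fs l‖ ≤ 0 := by rw [h0]; exact hule j l
      have h2 : (x j).fs l = 0 := norm_le_zero_iff.mp h1
      rw [← h0, h2]
      simp
    · have h1 : (x j).fs l - u l • z (qc ((u l)⁻¹ • (x j).fs l)) =
          u l • ((u l)⁻¹ • (x j).fs l - z (qc ((u l)⁻¹ • (x j).fs l))) := by
        rw [smul_sub, smul_smul, mul_inv_cancel₀ hpos.ne', one_smul]
      rw [h1, norm_smul, Real.norm_of_nonneg (hu0 l), mul_comm]
      apply mul_le_mul_of_nonneg_right _ (hu0 l)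
      apply hq
      rw [norm_smul, norm_inv, Real.norm_of_nonneg (hu0 l)]
      rw [inv_mul_le_iff₀ hpos, mul_one]
      exact hule j l
  have hdiff : ∀ j, ‖x j - x' j‖ ≤ M * δ := by
    intro j
    rw [XX.norm_def]
    have h1 : NN n N (XX.absF (x j - x' j)) ≤ NN n N (δ • u) := by
      apply NN_mono
      intro l
      rw [XX.absF_apply, XX.fs_sub, Finsupp.sub_apply, abs_norm, Finsupp.smul_apply, smul_eq_mul,
        abs_of_nonneg (mul_nonneg hδ.le (hu0 l))]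
      exact hclose j l
    rw [NN_smul, abs_of_pos hδ] at h1
    have := mul_le_mul_of_nonneg_left hNu hδ.le
    linarith [mul_comm (M : ℝ) δ]
  -- norming functionals
  have hnorming : ∀ c : Fin (N i), ∃ φ : ℕ → ℝ, (∀ l, 0 ≤ φ l) ∧
      (∀ l, (u.filter fun l => κ l = c) l = 0 → φ l = 0) ∧
      ((u.filter fun l => κ l = c).sum fun l v => φ l * v) = NN n N (u.filter fun l => κ l = c) ∧
      ∀ b : ℕ →₀ ℝ, (b.sum fun l v => φ l * |v|) ≤ NN n N b := by
    intro c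
    apply NN_norming
    intro l
    rw [Finsupp.filter_apply]
    split_ifs
    · exact hu0 l
    · exact le_rfl
  choose φ hφ0 hφs hφn hφb using hnorming
  have hφκ : ∀ c l, κ l ≠ c → φ c l = 0 := by
    intro c l hl
    apply hφs
    rw [Finsupp.filter_apply, if_neg hl]
  -- the map
  let E := PiLp 2 (fun _ : Fin (N i) => V)
  let Λ₁ : Fin (N i) → XX n N V →ₗ[ℝ] V := fun c =>
    { toFun := fun y => y.fs.sum fun l v => φ c l • v
      map_add' := by
        intro y y'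
        rw [XX.fs_add]
        apply Finsupp.sum_add_index' (fun _ => smul_zero _) (fun _ _ _ => smul_add _ _ _)
      map_smul' := by
        intro r y
        rw [XX.fs_smul, Finsupp.sum_smul_index' (fun _ => smul_zero _)]
        simp only [Finsupp.sum, Finset.smul_sum, RingHom.id_apply]
        exact Finset.sum_congr rfl fun l _ => smul_comm _ _ _ }
  let Λ₀ : XX n N V →ₗ[ℝ] E :=
    ((WithLp.linearEquiv 2 ℝ (Fin (N i) → V)).symm : (Fin (N i) → V) →ₗ[ℝ] E).comp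
      (LinearMap.pi Λ₁)
  have hΛ₀ : ∀ y, ‖Λ₀ y‖ ^ 2 = ∑ c, ‖Λ₁ c y‖ ^ 2 := by
    intro y
    rw [PiLp.norm_sq_eq_of_L2]
    rfl
  have hΛ₁ : ∀ c y, ‖Λ₁ c y‖ ≤ NN n N ((XX.absF y).filter fun l => κ l = c) := by
    intro c y
    refine le_trans ?_ (hφb c _)
    have h1 : ((XX.absF y).filter fun l => κ l = c).sum (fun l v => φ c l * |v|) =
        ∑ l ∈ y.fs.support, φ c l * ‖y.fs l‖ := by
      rw [Finsupp.sum_of_support_subset (s := y.fs.support)]
      · apply Finset.sum_congr rfl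
        intro l _
        rw [Finsupp.filter_apply]
        split_ifs with h
        · rw [XX.absF_apply, abs_norm]
        · rw [hφκ c l h]; simp
      · intro l hl
        rw [Finsupp.mem_support_iff] at hl ⊢
        intro h0
        apply hl
        rw [Finsupp.filter_apply]
        split_ifs
        · rw [XX.absF_apply, h0, norm_zero]
        · rfl
      · intro l _
        simp
    rw [h1]
    refine (norm_sum_le _ _).trans (Finset.sum_le_sum fun l _ => ?_)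
    rw [norm_smul, Real.norm_of_nonneg (hφ0 c l)]
  have hΛcontr : ∀ y, ‖Λ₀ y‖ ≤ ‖y‖ := by
    intro y
    apply le_of_sq_le_sq _ (norm_nonneg _)
    rw [hΛ₀]
    refine (Finset.sum_le_sum fun c _ => ?_).trans (NN_lower (XX.absF y) κ)
    exact pow_le_pow_left₀ (norm_nonneg _) (hΛ₁ c y) 2
  have hΛx' : ∀ j c, Λ₁ c (x' j) = NN n N (u.filter fun l => κ l = c) • Z c j := by
    intro j c
    rw [← hφn c]
    have h1 : Λ₁ c (x' j) = ∑ l ∈ u.support, φ c l • (u l • Z (κ l) j) := by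
      change ((x' j).fs.sum fun l v => φ c l • v) = _
      rw [Finsupp.sum_of_support_subset (s := u.support)]
      · rfl
      · intro l hl
        rw [Finsupp.mem_support_iff] at hl ⊢
        intro h0
        apply hl
        rw [hx'_apply, h0, zero_smul]
      · intro l _
        simp
    rw [h1, Finsupp.sum_of_support_subset (s := u.support)]
    · rw [Finset.sum_smul]
      apply Finset.sum_congr rfl
      intro l _
      rw [Finsupp.filter_apply]
      split_ifs with h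
      · rw [smul_smul, h]
      · rw [hφκ c l h]; simp
    · intro l hl
      rw [Finsupp.mem_support_iff] at hl ⊢
      intro h0
      apply hl
      rw [Finsupp.filter_apply]
      split_ifs
      · exact h0
      · rfl
    · intro l _
      simp
  have hx'_norm : ∀ j, ‖x' j‖ ≤ 3 / 2 * ‖Λ₀ (x' j)‖ := by
    intro j
    apply le_of_sq_le_sq _ (by positivity)
    rw [mul_pow, hΛ₀]
    have hbey : ∀ l, XX.absF (x' j) l ≠ 0 → n i ≤ l := by
      intro l hl
      rw [XX.absF_apply, norm_ne_zero_iff, hx'_apply] at hl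
      have hul : u l ≠ 0 := fun h0 => hl (by rw [h0, zero_smul])
      rw [hu_apply] at hul
      obtain ⟨j', _, hj'⟩ := Finset.exists_ne_zero_of_sum_ne_zero hul
      exact hπ (x j') (hx0 j') l (norm_ne_zero_iff.mp hj')
    have h1 := NN_upper i (XX.absF (x' j)) hbey κ
    rw [← XX.norm_def] at h1
    have h2 : ∀ c, NN n N ((XX.absF (x' j)).filter fun l => κ l = c) = ‖Λ₁ c (x' j)‖ := by
      intro c
      have h3 : ((XX.absF (x' j)).filter fun l => κ l = c) =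
          ‖Z c j‖ • (u.filter fun l => κ l = c) := by
        ext l
        rw [Finsupp.filter_apply, Finsupp.smul_apply, Finsupp.filter_apply]
        split_ifs with h
        · rw [XX.absF_apply, hx'_apply, norm_smul, Real.norm_of_nonneg (hu0 l), h, smul_eq_mul,
            mul_comm]
        · simp
      rw [h3, NN_smul, abs_norm, hΛx', norm_smul, Real.norm_of_nonneg (NN_nonneg _), mul_comm]
    have h4 : ∑ c, NN n N ((XX.absF (x' j)).filter fun l => κ l = c) ^ 2 =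
        ∑ c, ‖Λ₁ c (x' j)‖ ^ 2 := Finset.sum_congr rfl fun c _ => by rw [h2 c]
    rw [h4] at h1
    have h5 : 0 ≤ ∑ c, ‖Λ₁ c (x' j)‖ ^ 2 := Finset.sum_nonneg fun c _ => by positivity
    linarith
  -- conclusion
  let ι := (stdOrthonormalBasis ℝ E).repr
  refine ⟨finrank ℝ E, (ι.toLinearEquiv : E →ₗ[ℝ] _).comp Λ₀, fun y => ?_, fun j => ?_⟩
  · have : ‖ι (Λ₀ y)‖ = ‖Λ₀ y‖ := ι.norm_map _
    exact this.le.trans (hΛcontr y)
  · have h0 : ‖ι (Λ₀ (x j))‖ = ‖Λ₀ (x j)‖ := ι.norm_map _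
    change ‖x j‖ ≤ 2 * ‖ι (Λ₀ (x j))‖ + θ
    rw [h0]
    have h1 : ‖x j‖ ≤ ‖x' j‖ + ‖x j - x' j‖ := by
      have := norm_add_le (x' j) (x j - x' j)
      rwa [add_sub_cancel] at this
    have h2 : ‖Λ₀ (x' j)‖ ≤ ‖Λ₀ (x j)‖ + ‖x j - x' j‖ := by
      have h3 : Λ₀ (x' j) = Λ₀ (x j) - Λ₀ (x j - x' j) := by
        rw [map_sub]; abel
      rw [h3]
      exact (norm_sub_le _ _).trans (add_le_add le_rfl (hΛcontr _))
    have h3 := hx'_norm j
    have h4 := hdiff j
    have h5 : (5 / 2 : ℝ) * (M * δ) ≤ θ := by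
      have hM' : (M : ℝ) ≤ 2 * b := by exact_mod_cast hM
      have h6 : (M : ℝ) * δ ≤ 2 * b * δ := mul_le_mul_of_nonneg_right hM' hδ.le
      have h7 : δ * (6 * b + 1) = θ := by
        rw [hδdef]
        field_simp
      nlinarith
    have h8 : 0 ≤ ‖Λ₀ (x j)‖ := norm_nonneg _
    linarith

end MS2

end H9.Beps
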